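import Pool.Agent.Work.MP_d1e9a6_pr.AFinal
import Pool.Agent.Work.MP_d1e9a6_pr_helper54.Count
import Pool.Agent.Work.MP_d1e9a6_pr_helper70.IndexBound

/-!
# MP_d1e9a6_pr: Theorem A, unconditional
-/

set_option autoImplicit false

namespace Pool.Agent.Work.MP_d1e9a6_pr

theorem stmt_A : Stmt_A := BlockA.stmt_A_of count H70.indexBound H70.index2

end Pool.Agent.Work.MP_d1e9a6_pr
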