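import Pool.Agent.Work.MP_d1e9a6_pr.Statements

/-!
# MP_d1e9a6_pr: elementary probability on `G(n,p)`
-/

set_option autoImplicit false

namespace Pool.Agent.Work.MP_d1e9a6_pr.BlockA

variable {n : ℕ}

/-- number of edges -/
noncomputable def ec (G : SimpleGraph (Fin n)) : ℕ := G.edgeSet.ncard

/-- weight of a graph -/
noncomputable def wtG (p : ℝ) (G : SimpleGraph (Fin n)) : ℝ :=
  p ^ ec G * (1 - p) ^ (n.choose 2 - ec G)

open Classical in
/-- expectation on `G(n,p)` -/
noncomputable def ExG (p : ℝ) (f : SimpleGraph (Fin n) → ℝ) : ℝ :=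
  ∑ G : SimpleGraph (Fin n), wtG p G * f G

open Classical in
/-- indicator of a proposition -/
noncomputable def ind (P : Prop) : ℝ := if P then 1 else 0

lemma ind_true {P : Prop} (h : P) : ind P = 1 := if_pos h
lemma ind_false {P : Prop} (h : ¬ P) : ind P = 0 := if_neg h
lemma ind_nonneg (P : Prop) : 0 ≤ ind P := by
  by_cases h : P
  · rw [ind_true h]; exact zero_le_one
  · rw [ind_false h]
lemma ind_le_one (P : Prop) : ind P ≤ 1 := by
  by_cases h : P
  · rw [ind_true h]
  · rw [ind_false h]; exact zero_le_one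
lemma ind_congr {P Q : Prop} (h : P ↔ Q) : ind P = ind Q := by rw [propext h]
lemma ind_not (P : Prop) : ind (¬ P) = 1 - ind P := by
  by_cases h : P
  · rw [ind_true h, ind_false (not_not.mpr h)]; ring
  · rw [ind_false h, ind_true h]; ring
lemma ind_mono {P Q : Prop} (h : P → Q) : ind P ≤ ind Q := by
  by_cases hP : P
  · rw [ind_true hP, ind_true (h hP)]
  · rw [ind_false hP]; exact ind_nonneg Q
lemma ind_and (P Q : Prop) : ind (P ∧ Q) = ind P * ind Q := by
  by_cases hP : P <;> by_cases hQ : Q <;>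
    simp [ind, hP, hQ]

lemma PrG_eq (p : ℝ) (P : SimpleGraph (Fin n) → Prop) :
    PrG n p P = ExG p (fun G => ind (P G)) := by
  classical
  unfold PrG ExG
  rw [Finset.sum_filter]
  apply Finset.sum_congr rfl
  intro G _
  have : G.edgeFinset.card = ec G := by
    unfold ec
    rw [SimpleGraph.edgeFinset, Set.ncard_eq_toFinset_card']
  unfold wtG
  show _ = _ * ind (P G)
  by_cases h : P G
  · rw [if_pos h, ind_true h, mul_one, this]
  · rw [if_neg h, ind_false h, mul_zero]

lemma ec_le (G : SimpleGraph (Fin n)) : ec G ≤ n.choose 2 := by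
  classical
  unfold ec
  have h := SimpleGraph.card_edgeFinset_le_card_choose_two (G := G)
  rw [Fintype.card_fin] at h
  rwa [Set.ncard_eq_toFinset_card']

lemma wtG_nonneg {p : ℝ} (h0 : 0 ≤ p) (h1 : p ≤ 1) (G : SimpleGraph (Fin n)) : 0 ≤ wtG p G :=
  mul_nonneg (pow_nonneg h0 _) (pow_nonneg (sub_nonneg.mpr h1) _)

/-- take the pairs of `A` from `H`, the others from `G` -/
def mrg (A G H : SimpleGraph (Fin n)) : SimpleGraph (Fin n) := (G \ A) ⊔ (H ⊓ A)

lemma mrg_adj (A G H : SimpleGraph (Fin n)) (a b : Fin n) :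
    (mrg A G H).Adj a b ↔ (G.Adj a b ∧ ¬ A.Adj a b) ∨ (H.Adj a b ∧ A.Adj a b) := by
  simp [mrg, SimpleGraph.sup_adj, SimpleGraph.sdiff_adj, SimpleGraph.inf_adj]

lemma mrg_mrg (A G H : SimpleGraph (Fin n)) : mrg A (mrg A G H) (mrg A H G) = G := by
  ext a b
  simp only [mrg_adj]
  tauto

lemma ec_mrg (A G H : SimpleGraph (Fin n)) :
    ec (mrg A G H) + ec (mrg A H G) = ec G + ec H := by
  have h : ∀ G H : SimpleGraph (Fin n), ec (mrg A G H) =
      (G.edgeSet \ A.edgeSet).ncard + (H.edgeSet ∩ A.edgeSet).ncard := by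
    intro G H
    unfold ec mrg
    rw [SimpleGraph.edgeSet_sup, SimpleGraph.edgeSet_sdiff, SimpleGraph.edgeSet_inf]
    apply Set.ncard_union_eq
    · rw [Set.disjoint_left]
      rintro e ⟨_, h2⟩ ⟨_, h4⟩
      exact h2 h4
    · exact Set.toFinite _
    · exact Set.toFinite _
  have h2 : ∀ G : SimpleGraph (Fin n), ec G =
      (G.edgeSet \ A.edgeSet).ncard + (G.edgeSet ∩ A.edgeSet).ncard := by
    intro G
    unfold ec
    rw [add_comm]
    exact (Set.ncard_inter_add_ncard_diff_eq_ncard _ _ (Set.toFinite _)).symm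
  rw [h, h, h2 G, h2 H]
  ring

lemma wtG_mrg (p : ℝ) (A G H : SimpleGraph (Fin n)) :
    wtG p (mrg A G H) * wtG p (mrg A H G) = wtG p G * wtG p H := by
  unfold wtG
  have h := ec_mrg A G H
  have h1 := ec_le (mrg A G H)
  have h2 := ec_le (mrg A H G)
  have h3 := ec_le G
  have h4 := ec_le H
  calc _ = p ^ (ec (mrg A G H) + ec (mrg A H G)) *
        (1 - p) ^ ((n.choose 2 - ec (mrg A G H)) + (n.choose 2 - ec (mrg A H G))) := by
        rw [pow_add, pow_add]; ring
    _ = p ^ (ec G + ec H) * (1 - p) ^ ((n.choose 2 - ec G) + (n.choose 2 - ec H)) := by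
        rw [h]
        congr 2
        omega
    _ = _ := by rw [pow_add, pow_add]; ring

open Classical in
/-- total mass one -/
lemma wtG_sum (p : ℝ) : ∑ G : SimpleGraph (Fin n), wtG p G = 1 := by
  set E : Finset (Sym2 (Fin n)) := (⊤ : SimpleGraph (Fin n)).edgeFinset with hE
  have hcard : E.card = n.choose 2 := by
    rw [hE, SimpleGraph.card_edgeFinset_top_eq_card_choose_two, Fintype.card_fin]
  have h1 : ∑ t ∈ E.powerset, p ^ t.card * (1 - p) ^ (E.card - t.card) = 1 := by
    rw [Finset.sum_pow_mul_eq_add_pow]; simp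
  rw [← h1]
  refine Finset.sum_bij' (fun G _ => G.edgeSet.toFinset)
    (fun t _ => SimpleGraph.fromEdgeSet (t : Set (Sym2 (Fin n)))) ?_ ?_ ?_ ?_ ?_
  · intro G _
    rw [Finset.mem_powerset]
    intro e he
    rw [Set.mem_toFinset] at he
    rw [hE, SimpleGraph.mem_edgeFinset]
    exact SimpleGraph.edgeSet_mono le_top he
  · intro t _; exact Finset.mem_univ _
  · intro G _
    rw [Set.coe_toFinset, SimpleGraph.fromEdgeSet_edgeSet]
  · intro t ht
    rw [Finset.mem_powerset] at ht
    ext e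
    have h1 : e ∈ (SimpleGraph.fromEdgeSet (t : Set (Sym2 (Fin n)))).edgeSet ↔ e ∈ t := by
      rw [SimpleGraph.edgeSet_fromEdgeSet]
      constructor
      · exact fun h => h.1
      · intro h
        refine ⟨h, ?_⟩
        have := ht h
        rw [hE, SimpleGraph.mem_edgeFinset] at this
        exact SimpleGraph.not_isDiag_of_mem_edgeSet _ this
    simp only [Set.mem_toFinset]
    exact h1
  · intro G _
    unfold wtG ec
    rw [hcard, Set.ncard_eq_toFinset_card']

open Classical in
/-- resampling the pairs of `A` -/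
lemma ExG_resample (p : ℝ) (A : SimpleGraph (Fin n)) (f : SimpleGraph (Fin n) → ℝ) :
    ExG p f = ExG p (fun G => ExG p (fun H => f (mrg A G H))) := by
  have h1 : ExG p (fun G => ExG p (fun H => f (mrg A G H))) =
      ∑ x : SimpleGraph (Fin n) × SimpleGraph (Fin n),
        wtG p x.1 * wtG p x.2 * f (mrg A x.1 x.2) := by
    unfold ExG
    rw [Fintype.sum_prod_type]
    apply Finset.sum_congr rfl
    intro G _
    rw [Finset.mul_sum]
    apply Finset.sum_congr rfl
    intro H _
    ring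
  have h2 : ExG p f = ∑ x : SimpleGraph (Fin n) × SimpleGraph (Fin n),
      wtG p x.1 * wtG p x.2 * f x.1 := by
    unfold ExG
    rw [Fintype.sum_prod_type]
    apply Finset.sum_congr rfl
    intro G _
    calc wtG p G * f G = wtG p G * f G * ∑ H : SimpleGraph (Fin n), wtG p H := by
          rw [wtG_sum, mul_one]
      _ = _ := by
          rw [Finset.mul_sum]
          apply Finset.sum_congr rfl
          intro H _
          ring
  rw [h1, h2]
  symm
  refine Fintype.sum_equiv
    { toFun := fun x => (mrg A x.1 x.2, mrg A x.2 x.1)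
      invFun := fun x => (mrg A x.1 x.2, mrg A x.2 x.1)
      left_inv := fun x => by simp [mrg_mrg]
      right_inv := fun x => by simp [mrg_mrg] } _ _ ?_
  intro x
  simp only [Equiv.coe_fn_mk]
  rw [wtG_mrg]

/-! ### Basic properties of `ExG` -/

lemma ExG_mono {p : ℝ} (h0 : 0 ≤ p) (h1 : p ≤ 1) {f g : SimpleGraph (Fin n) → ℝ}
    (h : ∀ G, f G ≤ g G) : ExG p f ≤ ExG p g := by
  unfold ExG
  exact Finset.sum_le_sum fun G _ => mul_le_mul_of_nonneg_left (h G) (wtG_nonneg h0 h1 G)

lemma ExG_const (p : ℝ) (c : ℝ) : ExG p (fun _ : SimpleGraph (Fin n) => c) = c := by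
  unfold ExG
  rw [← Finset.sum_mul, wtG_sum, one_mul]

lemma ExG_add (p : ℝ) (f g : SimpleGraph (Fin n) → ℝ) :
    ExG p (fun G => f G + g G) = ExG p f + ExG p g := by
  unfold ExG
  rw [← Finset.sum_add_distrib]
  exact Finset.sum_congr rfl fun G _ => by ring

lemma ExG_mul_left (p c : ℝ) (f : SimpleGraph (Fin n) → ℝ) :
    ExG p (fun G => c * f G) = c * ExG p f := by
  unfold ExG
  rw [Finset.mul_sum]
  exact Finset.sum_congr rfl fun G _ => by ring

lemma ExG_sum {κ : Type} (s : Finset κ) (p : ℝ) (f : κ → SimpleGraph (Fin n) → ℝ) :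
    ExG p (fun G => ∑ k ∈ s, f k G) = ∑ k ∈ s, ExG p (f k) := by
  unfold ExG
  rw [Finset.sum_comm]
  exact Finset.sum_congr rfl fun G _ => by rw [Finset.mul_sum]

lemma ExG_nonneg {p : ℝ} (h0 : 0 ≤ p) (h1 : p ≤ 1) {f : SimpleGraph (Fin n) → ℝ}
    (h : ∀ G, 0 ≤ f G) : 0 ≤ ExG p f :=
  Finset.sum_nonneg fun G _ => mul_nonneg (wtG_nonneg h0 h1 G) (h G)

lemma PrG_nonneg {p : ℝ} (h0 : 0 ≤ p) (h1 : p ≤ 1) (P : SimpleGraph (Fin n) → Prop) :
    0 ≤ PrG n p P := by
  rw [PrG_eq]
  exact ExG_nonneg h0 h1 fun G => ind_nonneg _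

lemma PrG_mono {p : ℝ} (h0 : 0 ≤ p) (h1 : p ≤ 1) {P Q : SimpleGraph (Fin n) → Prop}
    (h : ∀ G, P G → Q G) : PrG n p P ≤ PrG n p Q := by
  rw [PrG_eq, PrG_eq]
  exact ExG_mono h0 h1 fun G => ind_mono (h G)

lemma PrG_le_one {p : ℝ} (h0 : 0 ≤ p) (h1 : p ≤ 1) (P : SimpleGraph (Fin n) → Prop) :
    PrG n p P ≤ 1 := by
  rw [PrG_eq]
  calc _ ≤ ExG p (fun _ : SimpleGraph (Fin n) => (1 : ℝ)) :=
        ExG_mono h0 h1 fun G => ind_le_one _
    _ = 1 := ExG_const _ _

lemma PrG_compl (p : ℝ) (P : SimpleGraph (Fin n) → Prop) :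
    PrG n p (fun G => ¬ P G) = 1 - PrG n p P := by
  rw [PrG_eq, PrG_eq]
  have h : ExG p (fun G : SimpleGraph (Fin n) => ind (¬ P G) + ind (P G)) = 1 := by
    have : (fun G : SimpleGraph (Fin n) => ind (¬ P G) + ind (P G)) = fun _ => 1 := by
      funext G
      rw [ind_not]; ring
    rw [this, ExG_const]
  rw [ExG_add] at h
  linarith

/-- union bound -/
lemma PrG_exists_le {p : ℝ} (h0 : 0 ≤ p) (h1 : p ≤ 1) {κ : Type} (s : Finset κ)
    (P : κ → SimpleGraph (Fin n) → Prop) :
    PrG n p (fun G => ∃ k ∈ s, P k G) ≤ ∑ k ∈ s, PrG n p (P k) := by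
  classical
  rw [PrG_eq]
  simp only [PrG_eq]
  rw [← ExG_sum]
  refine ExG_mono h0 h1 fun G => ?_
  by_cases h : ∃ k ∈ s, P k G
  · rw [ind_true h]
    obtain ⟨k, hk, hP⟩ := h
    calc (1 : ℝ) = ind (P k G) := by rw [ind_true hP]
      _ ≤ _ := Finset.single_le_sum (f := fun k => ind (P k G)) (fun i _ => ind_nonneg _) hk
  · rw [ind_false h]
    exact Finset.sum_nonneg fun i _ => ind_nonneg _

lemma PrG_or_le {p : ℝ} (h0 : 0 ≤ p) (h1 : p ≤ 1) (P Q : SimpleGraph (Fin n) → Prop) :
    PrG n p (fun G => P G ∨ Q G) ≤ PrG n p P + PrG n p Q := by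
  rw [PrG_eq, PrG_eq, PrG_eq, ← ExG_add]
  refine ExG_mono h0 h1 fun G => ?_
  by_cases h : P G <;> by_cases h' : Q G <;> simp [ind, h, h']

/-- Markov -/
lemma PrG_markov {p : ℝ} (h0 : 0 ≤ p) (h1 : p ≤ 1) {f : SimpleGraph (Fin n) → ℝ} {c : ℝ}
    (hc : 0 < c) (hf : ∀ G, 0 ≤ f G) : PrG n p (fun G => c ≤ f G) ≤ ExG p f / c := by
  rw [PrG_eq, le_div_iff₀ hc, mul_comm, ← ExG_mul_left]
  refine ExG_mono h0 h1 fun G => ?_
  by_cases h : c ≤ f G
  · rw [ind_true h]; linarith
  · rw [ind_false h]; simpa using hf G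

/-! ### Probability that given pairs are edges -/

open Classical in
/-- one pair -/
lemma PrG_adj (p : ℝ) {a b : Fin n} (hab : a ≠ b) : PrG n p (fun G => G.Adj a b) = p := by
  -- compare with the complement by switching the pair
  set A : SimpleGraph (Fin n) := SimpleGraph.edge a b with hA
  have hAab : A.Adj a b := by rw [hA, SimpleGraph.edge_adj]; tauto
  -- sums over graphs with and without the edge
  have hcomp : PrG n p (fun G => ¬ G.Adj a b) = 1 - PrG n p (fun G => G.Adj a b) := PrG_compl _ _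
  have hkey : (1 - p) * PrG n p (fun G => G.Adj a b) = p * PrG n p (fun G => ¬ G.Adj a b) := by
    rw [PrG_eq, PrG_eq]
    unfold ExG ind
    simp only [mul_ite, mul_one, mul_zero]
    rw [← Finset.sum_filter, ← Finset.sum_filter, Finset.mul_sum, Finset.mul_sum]
    refine Finset.sum_bij' (fun G _ => G \ A) (fun G _ => G ⊔ A) ?_ ?_ ?_ ?_ ?_
    · intro G hG
      simp only [Finset.mem_filter, Finset.mem_univ, true_and, SimpleGraph.sdiff_adj, not_and,
        not_not]
      exact fun _ => hAab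
    · intro G hG
      simp only [Finset.mem_filter, Finset.mem_univ, true_and, SimpleGraph.sup_adj]
      exact Or.inr hAab
    · intro G hG
      simp only [Finset.mem_filter, Finset.mem_univ, true_and] at hG
      have : A ≤ G := by
        rw [hA, SimpleGraph.edge_le_iff]; exact Or.inr hG
      exact sdiff_sup_cancel this
    · intro G hG
      simp only [Finset.mem_filter, Finset.mem_univ, true_and] at hG
      ext x y
      simp only [SimpleGraph.sdiff_adj, SimpleGraph.sup_adj]
      constructor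
      · rintro ⟨h1 | h1, h2⟩
        · exact h1
        · exact absurd h1 h2
      · intro h1
        refine ⟨Or.inl h1, ?_⟩
        intro h2
        rw [hA, SimpleGraph.edge_adj] at h2
        obtain ⟨h3 | h3, _⟩ := h2
        · rw [h3.1, h3.2] at h1; exact hG h1
        · rw [h3.1, h3.2] at h1; exact hG h1.symm
    · intro G hG
      simp only [Finset.mem_filter, Finset.mem_univ, true_and] at hG
      have he : ec G = ec (G \ A) + 1 := by
        unfold ec
        rw [SimpleGraph.edgeSet_sdiff, hA, SimpleGraph.edge_edgeSet_of_ne hab]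
        have hmem : s(a, b) ∈ G.edgeSet := hG
        exact (Set.ncard_diff_singleton_add_one hmem (Set.toFinite _)).symm
      have hle := ec_le G
      unfold wtG
      have hsub : n.choose 2 - ec (G \ A) = (n.choose 2 - ec G) + 1 := by omega
      rw [hsub, he, pow_succ, pow_succ]
      ring
  rw [hcomp] at hkey
  linarith

/-- independence of one pair and a function not depending on it -/
lemma ExG_adj_mul (p : ℝ) {a b : Fin n} (hab : a ≠ b) (f : SimpleGraph (Fin n) → ℝ)
    (hf : ∀ G H, f (mrg (SimpleGraph.edge a b) G H) = f G) :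
    ExG p (fun G => ind (G.Adj a b) * f G) = p * ExG p f := by
  have hAab : (SimpleGraph.edge a b).Adj a b := by rw [SimpleGraph.edge_adj]; tauto
  rw [ExG_resample p (SimpleGraph.edge a b), ← ExG_mul_left]
  congr 1
  funext G
  have h1 : (fun H => ind ((mrg (SimpleGraph.edge a b) G H).Adj a b) *
      f (mrg (SimpleGraph.edge a b) G H)) =
      fun H : SimpleGraph (Fin n) => f G * ind (H.Adj a b) := by
    funext H
    have h2 : (mrg (SimpleGraph.edge a b) G H).Adj a b ↔ H.Adj a b := by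
      rw [mrg_adj]; tauto
    rw [hf, ind_congr h2, mul_comm]
  rw [h1, ExG_mul_left, ← PrG_eq, PrG_adj p hab, mul_comm]

/-- the star at `w`: all vertices of `T` are neighbours -/
lemma ExG_star_mul (p : ℝ) {w : Fin n} (T : Finset (Fin n)) (hw : w ∉ T)
    (f : SimpleGraph (Fin n) → ℝ)
    (hf : ∀ t ∈ T, ∀ G H, f (mrg (SimpleGraph.edge w t) G H) = f G) :
    ExG p (fun G => ind (∀ t ∈ T, G.Adj w t) * f G) = p ^ T.card * ExG p f := by
  induction T using Finset.induction_on with
  | empty => simp [ind]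
  | insert t T ht ih =>
    have hwt : w ≠ t := fun h => hw (h ▸ Finset.mem_insert_self t T)
    have hwT : w ∉ T := fun h => hw (Finset.mem_insert_of_mem h)
    rw [Finset.card_insert_of_notMem ht, pow_succ, mul_comm (p ^ T.card) p, mul_assoc,
      ← ih hwT fun t' ht' => hf t' (Finset.mem_insert_of_mem ht')]
    rw [← ExG_adj_mul p hwt (fun G => ind (∀ t ∈ T, G.Adj w t) * f G) ?_]
    · congr 1
      funext G
      rw [← mul_assoc, ← ind_and]
      congr 1
      apply ind_congr
      rw [Finset.forall_mem_insert]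
    · intro G H
      rw [hf t (Finset.mem_insert_self t T)]
      congr 1
      apply ind_congr
      refine forall₂_congr fun t' ht' => ?_
      have h3 : ¬ (SimpleGraph.edge w t).Adj w t' := by
        rw [SimpleGraph.edge_adj]
        rintro ⟨h4 | h4, h5⟩
        · exact ht (h4.2 ▸ ht')
        · exact hwt h4.1
      rw [mrg_adj]
      tauto

/-- probability that all vertices of `T` are neighbours of `w` -/
lemma PrG_star (p : ℝ) {w : Fin n} (T : Finset (Fin n)) (hw : w ∉ T) :
    PrG n p (fun G => ∀ t ∈ T, G.Adj w t) = p ^ T.card := by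
  rw [PrG_eq]
  have := ExG_star_mul p T hw (fun _ => (1 : ℝ)) (fun _ _ _ _ => rfl)
  rw [ExG_const, mul_one] at this
  simpa using this

end Pool.Agent.Work.MP_d1e9a6_pr.BlockA
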