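import Pool.Agent.Work.MP_d1e9a6_pr.AStep
import Pool.Agent.Work.MP_d1e9a6_pr.AProb

/-!
# MP_d1e9a6_pr, Theorem A: the conditions of one step, agreement of graphs
-/

set_option autoImplicit false

namespace Pool.Agent.Work.MP_d1e9a6_pr.BlockA

variable {V : Type} [DecidableEq V]

/-- agreement of two graphs on a set -/
def Agr (G G' : SimpleGraph V) (X : Finset V) : Prop :=
  ∀ a ∈ X, ∀ b ∈ X, (G'.Adj a b ↔ G.Adj a b)

lemma Agr.mono {G G' : SimpleGraph V} {X Y : Finset V} (h : Agr G G' X) (hY : Y ⊆ X) :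
    Agr G G' Y := fun a ha b hb => h a (hY ha) b (hY hb)

lemma Agr.symm {G G' : SimpleGraph V} {X : Finset V} (h : Agr G G' X) : Agr G' G X :=
  fun a ha b hb => (h a ha b hb).symm

omit [DecidableEq V] in
lemma mem_comN {G : SimpleGraph V} {T W : Finset V} {v : V} :
    v ∈ comN G T W ↔ v ∈ W ∧ ∀ t ∈ T, G.Adj t v := Iff.rfl

lemma Agr.comN_eq {G G' : SimpleGraph V} {T W X : Finset V} (h : Agr G G' X) (hT : T ⊆ X)
    (hW : W ⊆ X) : comN G' T W = comN G T W := by
  ext v
  rw [mem_comN, mem_comN]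
  constructor
  · rintro ⟨h1, h2⟩
    exact ⟨h1, fun t ht => (h t (hT ht) v (hW h1)).mp (h2 t ht)⟩
  · rintro ⟨h1, h2⟩
    exact ⟨h1, fun t ht => (h t (hT ht) v (hW h1)).mpr (h2 t ht)⟩

lemma Agr.cl_eq {G G' : SimpleGraph V} {X : Finset V} (h : Agr G G' X) {S : Set V}
    (hS : S ⊆ (X : Set V)) : cl G' S = cl G S :=
  cl_congr fun a ha b hb => h a (hS ha) b (hS hb)

omit [DecidableEq V] in
lemma comN_subset {G : SimpleGraph V} {T W : Finset V} : comN G T W ⊆ (W : Set V) :=
  fun _ hv => hv.1

omit [DecidableEq V] in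
lemma comN_mono {G : SimpleGraph V} {T W W' : Finset V} (h : W ⊆ W') :
    comN G T W ⊆ comN G T W' := fun _ hv => ⟨h hv.1, hv.2⟩

lemma comN_inter {G : SimpleGraph V} {T τ W : Finset V} :
    comN G T W ∩ {u | ∀ t ∈ τ, G.Adj t u} = comN G (T ∪ τ) W := by
  ext v
  simp only [Set.mem_inter_iff, mem_comN, Set.mem_setOf_eq, Finset.mem_union]
  constructor
  · rintro ⟨⟨h1, h2⟩, h3⟩
    exact ⟨h1, fun t ht => ht.elim (h2 t) (h3 t)⟩
  · rintro ⟨h1, h2⟩
    exact ⟨⟨h1, fun t ht => h2 t (Or.inl ht)⟩, fun t ht => h2 t (Or.inr ht)⟩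

lemma comN_inter_nbr {G : SimpleGraph V} {T W : Finset V} {w : V} :
    comN G T W ∩ {u | G.Adj w u} = comN G (insert w T) W := by
  ext v
  simp only [Set.mem_inter_iff, mem_comN, Set.mem_setOf_eq, Finset.forall_mem_insert]
  tauto

lemma comN_insert_of {G : SimpleGraph V} {T W : Finset V} {w : V} (h : ∀ t ∈ T, G.Adj w t) :
    comN G T (insert w W) = insert w (comN G T W) := by
  ext v
  simp only [mem_comN, Finset.mem_insert, Set.mem_insert_iff]
  constructor
  · rintro ⟨h1 | h1, h2⟩
    · exact Or.inl h1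
    · exact Or.inr ⟨h1, h2⟩
  · rintro (rfl | ⟨h1, h2⟩)
    · exact ⟨Or.inl rfl, fun t ht => (h t ht).symm⟩
    · exact ⟨Or.inr h1, h2⟩

lemma comN_insert_of_not {G : SimpleGraph V} {T W : Finset V} {w : V}
    (h : ¬ ∀ t ∈ T, G.Adj w t) : comN G T (insert w W) = comN G T W := by
  ext v
  simp only [mem_comN, Finset.mem_insert]
  constructor
  · rintro ⟨h1 | h1, h2⟩
    · subst h1
      exact absurd (fun t ht => (h2 t ht).symm) h
    · exact ⟨h1, h2⟩
  · rintro ⟨h1, h2⟩
    exact ⟨Or.inr h1, h2⟩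

/-- adding the vertices of a list one at a time -/
lemma surj_of_list {G : SimpleGraph V} {T : Finset V} {m : ℕ} (l : List V) :
    ∀ U2 : Finset V, l.Nodup → (∀ v ∈ l, v ∉ U2) →
    (∀ (u : V) (l' : List V), (u :: l').IsSuffix l →
      Zc (cl G (comN G (insert u T) (U2 ∪ l'.toFinset))) m ≤
        Bd (cl G (comN G (insert u T) (U2 ∪ l'.toFinset))) m) →
    Zc (cl G (comN G T (U2 ∪ l.toFinset))) (m + 1) ≤
      Zc (cl G (comN G T U2)) (m + 1) ⊔ Bd (cl G (comN G T (U2 ∪ l.toFinset))) (m + 1) := by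
  induction l with
  | nil => intro U2 _ _ _; simp
  | cons u l ih =>
    intro U2 hnd hdis h
    have hnd' := List.nodup_cons.mp hnd
    have hU : U2 ∪ (u :: l).toFinset = insert u (U2 ∪ l.toFinset) := by
      rw [List.toFinset_cons, Finset.union_insert]
    have ih' := ih U2 hnd'.2 (fun v hv => hdis v (List.mem_cons_of_mem _ hv))
      (fun u' l' hs => h u' l' (hs.trans (List.suffix_cons u l)))
    have hmono : Bd (cl G (comN G T (U2 ∪ l.toFinset))) (m + 1) ≤
        Bd (cl G (comN G T (U2 ∪ (u :: l).toFinset))) (m + 1) := by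
      apply Bd_mono
      apply cl_mono
      apply comN_mono
      rw [hU]; exact Finset.subset_insert _ _
    by_cases hu : ∀ t ∈ T, G.Adj u t
    · have hlink := h u l List.suffix_rfl
      rw [← comN_inter_nbr] at hlink
      have hnot : u ∉ comN G T (U2 ∪ l.toFinset) := by
        intro hmem
        have := hmem.1
        rw [Finset.mem_union, List.mem_toFinset] at this
        rcases this with h1 | h1
        · exact hdis u List.mem_cons_self h1
        · exact hnd'.1 h1
      have h1 := add_vertex hnot hlink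
      rw [← comN_insert_of hu, ← hU] at h1
      refine h1.trans (sup_le (ih'.trans (sup_le le_sup_left (hmono.trans le_sup_right)))
        le_sup_right)
    · rw [hU, comN_insert_of_not hu]
      exact ih'

/-- the conditions of a step at `w`, except for the link condition -/
def StepBC (G : SimpleGraph V) (T V1 U : Finset V) (m : ℕ) (w : V) : Prop :=
  Zc (cl G (comN G T U)) (m + 1) ≤
      Zc (cl G (comN G T (U \ V1))) (m + 1) ⊔ Bd (cl G (comN G T U)) (m + 1) ∧
  Acyc (cl G (comN G (insert w T) V1)) m ∧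
  ∀ τ, cl G (comN G T (U \ V1)) τ → τ.length ≤ m →
    Acyc (cl G (comN G (insert w T) V1 ∪ ls τ)) m

/-- the link condition -/
def StepA (G : SimpleGraph V) (T U : Finset V) (m : ℕ) (w : V) : Prop :=
  Zc (cl G (comN G T U ∩ {v | G.Adj w v})) m ≤ Bd (cl G (comN G T U ∩ {v | G.Adj w v})) m

lemma StepA_of {G : SimpleGraph V} {T U : Finset V} {m : ℕ} {w : V}
    (h : Acyc (cl G (comN G (insert w T) U)) m) : StepA G T U m w := by
  unfold StepA
  rw [comN_inter_nbr]
  exact h m le_rfl

/-- the event that all the required complexes are acyclic -/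
lemma StepBC_of {G : SimpleGraph V} {T V1 U : Finset V} {m : ℕ} {w : V} (hV1 : V1 ⊆ U)
    (hb : ∀ (u : V) (l' : List V), (u :: l').IsSuffix V1.toList →
      Acyc (cl G (comN G (insert u T) ((U \ V1) ∪ l'.toFinset))) m)
    (hc : ∀ τ : Finset V, τ ⊆ U \ V1 → τ.card ≤ m →
      Acyc (cl G (comN G (insert w T ∪ τ) V1)) (m - τ.card)) : StepBC G T V1 U m w := by
  refine ⟨?_, ?_, ?_⟩
  · have hU : (U \ V1) ∪ V1.toList.toFinset = U := by
      rw [Finset.toList_toFinset, Finset.sdiff_union_of_subset hV1]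
    have := surj_of_list (G := G) (T := T) (m := m) V1.toList (U \ V1) (Finset.nodup_toList V1)
      (fun v hv => by rw [Finset.mem_toList] at hv; simp [hv])
      (fun u l' hs => hb u l' hs m le_rfl)
    rw [hU] at this
    exact this
  · have := hc ∅ (Finset.empty_subset _) (by simp)
    simpa using this
  · intro τ hτ hlen
    have hls : ls τ = ((τ.toFinset : Finset V) : Set V) := by
      ext v; simp [ls]
    rw [hls]
    refine acyc_union_clique τ.toFinset ?_ _ _ ?_ ?_
    · intro a ha b hb hab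
      rw [List.mem_toFinset] at ha hb
      exact hτ.2 a ha b hb hab
    · intro v hv hmem
      rw [List.mem_toFinset] at hv
      have h1 := (hτ.1 v hv).1
      rw [Finset.mem_sdiff] at h1
      exact h1.2 hmem.1
    · intro τ' h1 h2
      rw [comN_inter]
      refine hc τ' ?_ h2
      intro v hv
      have := h1 hv
      rw [List.mem_toFinset] at this
      exact (hτ.1 v this).1

/-! ### Invariance under agreement -/

lemma Agr.stepBC {G G' : SimpleGraph V} {T V1 U : Finset V} {m : ℕ} {w : V} (hV1 : V1 ⊆ U)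
    (h : Agr G G' (T ∪ U)) (hw : ∀ v ∈ V1, (G'.Adj w v ↔ G.Adj w v)) :
    StepBC G' T V1 U m w ↔ StepBC G T V1 U m w := by
  have hT : T ⊆ T ∪ U := Finset.subset_union_left
  have hU : U ⊆ T ∪ U := Finset.subset_union_right
  have hU2 : U \ V1 ⊆ T ∪ U := Finset.sdiff_subset.trans hU
  have hUset : ((U : Finset V) : Set V) ⊆ ((T ∪ U : Finset V) : Set V) := Finset.coe_subset.mpr hU
  have e1 : comN G' T U = comN G T U := h.comN_eq hT hU
  have e2 : comN G' T (U \ V1) = comN G T (U \ V1) := h.comN_eq hT hU2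
  have e3 : comN G' (insert w T) V1 = comN G (insert w T) V1 := by
    ext v
    simp only [mem_comN, Finset.forall_mem_insert]
    constructor
    · rintro ⟨h1, h2, h3⟩
      exact ⟨h1, (hw v h1).mp h2, fun t ht => (h t (hT ht) v (hU (hV1 h1))).mp (h3 t ht)⟩
    · rintro ⟨h1, h2, h3⟩
      exact ⟨h1, (hw v h1).mpr h2, fun t ht => (h t (hT ht) v (hU (hV1 h1))).mpr (h3 t ht)⟩
  have c1 : cl G' (comN G T U) = cl G (comN G T U) := h.cl_eq (comN_subset.trans hUset)
  have c2 : cl G' (comN G T (U \ V1)) = cl G (comN G T (U \ V1)) :=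
    h.cl_eq ((comN_subset.trans (Finset.coe_subset.mpr Finset.sdiff_subset)).trans hUset)
  have c3 : cl G' (comN G (insert w T) V1) = cl G (comN G (insert w T) V1) :=
    h.cl_eq ((comN_subset.trans (Finset.coe_subset.mpr hV1)).trans hUset)
  unfold StepBC
  rw [e1, e2, e3, c1, c2, c3]
  refine and_congr_right fun _ => and_congr_right fun _ => ?_
  refine forall_congr' fun τ => ?_
  refine imp_congr_right fun hτ => ?_
  refine imp_congr_right fun _ => ?_
  have c4 : cl G' (comN G (insert w T) V1 ∪ ls τ) = cl G (comN G (insert w T) V1 ∪ ls τ) := by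
    refine h.cl_eq (Set.union_subset ((comN_subset.trans (Finset.coe_subset.mpr hV1)).trans hUset) ?_)
    intro v hv
    exact hUset (Finset.sdiff_subset (hτ.1 v hv).1)
  rw [c4]

lemma Agr.stepA {G G' : SimpleGraph V} {T U : Finset V} {m : ℕ} {w : V}
    (h : Agr G G' (T ∪ U)) (hw : ∀ v ∈ U, (G'.Adj w v ↔ G.Adj w v)) :
    StepA G' T U m w ↔ StepA G T U m w := by
  have hT : T ⊆ T ∪ U := Finset.subset_union_left
  have hU : U ⊆ T ∪ U := Finset.subset_union_right
  have hUset : ((U : Finset V) : Set V) ⊆ ((T ∪ U : Finset V) : Set V) := Finset.coe_subset.mpr hU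
  have e1 : comN G' T U = comN G T U := h.comN_eq hT hU
  have e2 : comN G T U ∩ {v | G'.Adj w v} = comN G T U ∩ {v | G.Adj w v} := by
    ext v
    simp only [Set.mem_inter_iff, Set.mem_setOf_eq]
    exact and_congr_right fun h1 => hw v h1.1
  unfold StepA
  rw [e1, e2, h.cl_eq (S := comN G T U ∩ {v | G.Adj w v})
    ((Set.inter_subset_left.trans comN_subset).trans hUset)]

/-- all steps along a list are good (the head of the list is added last) -/
def GoodL (G : SimpleGraph V) (T V1 U0 : Finset V) (m : ℕ) : List V → Prop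
  | [] => True
  | w :: l => GoodL G T V1 U0 m l ∧ StepA G T (U0 ∪ l.toFinset) m w ∧
      StepBC G T V1 (U0 ∪ l.toFinset) m w

lemma Agr.goodL {G G' : SimpleGraph V} {T V1 U0 : Finset V} {m : ℕ} (hV1 : V1 ⊆ U0)
    (l : List V) : Agr G G' (T ∪ (U0 ∪ l.toFinset)) →
    (GoodL G' T V1 U0 m l ↔ GoodL G T V1 U0 m l) := by
  induction l with
  | nil => intro _; exact Iff.rfl
  | cons w l ih =>
    intro h
    have hsub : U0 ∪ l.toFinset ⊆ U0 ∪ (w :: l).toFinset := by
      apply Finset.union_subset_union_right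
      rw [List.toFinset_cons]; exact Finset.subset_insert _ _
    have h' : Agr G G' (T ∪ (U0 ∪ l.toFinset)) :=
      h.mono (Finset.union_subset_union_right hsub)
    have hw : ∀ v ∈ U0 ∪ l.toFinset, (G'.Adj w v ↔ G.Adj w v) := by
      intro v hv
      apply h
      · apply Finset.mem_union_right; apply Finset.mem_union_right
        rw [List.toFinset_cons]; exact Finset.mem_insert_self _ _
      · exact Finset.mem_union_right _ (hsub hv)
    unfold GoodL
    rw [ih h', h'.stepA hw, h'.stepBC (hV1.trans Finset.subset_union_left)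
      (fun v hv => hw v (Finset.mem_union_left _ (hV1 hv)))]

end Pool.Agent.Work.MP_d1e9a6_pr.BlockA
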