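import Pool.Agent.Work.MP_d1e9a6_pr.Statements

/-!
# MP_d1e9a6_pr, Theorem A: deterministic part
-/

set_option autoImplicit false

namespace Pool.Agent.Work.MP_d1e9a6_pr.BlockA

variable {V : Type}

lemma cl_subClosed (G : SimpleGraph V) (S : Set V) : SubClosed (cl G S) := by
  intro l l' h hl
  exact ⟨fun a ha => hl.1 a (h.subset ha), fun a ha b hb => hl.2 a (h.subset ha) b (h.subset hb)⟩

lemma cl_mono {G : SimpleGraph V} {S S' : Set V} (h : S ⊆ S') (l : List V) (hl : cl G S l) :
    cl G S' l := ⟨fun a ha => h (hl.1 a ha), hl.2⟩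

lemma cl_nil (G : SimpleGraph V) (S : Set V) : cl G S [] := by
  constructor <;> simp

lemma cl_cons {G : SimpleGraph V} {S L : Set V} {w : V} {l : List V} (hl : cl G L l)
    (hL : ∀ v ∈ L, v ∈ S ∧ (v = w ∨ G.Adj w v)) (hw : w ∈ S) : cl G S (w :: l) := by
  constructor
  · intro a ha
    rcases List.mem_cons.mp ha with rfl | ha
    · exact hw
    · exact (hL a (hl.1 a ha)).1
  · intro a ha b hb hab
    rcases List.mem_cons.mp ha with ha | ha <;> rcases List.mem_cons.mp hb with hb | hb
    · exact absurd (ha.trans hb.symm) hab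
    · rcases (hL b (hl.1 b hb)).2 with h | h
      · exact absurd (ha.trans h.symm) hab
      · exact ha ▸ h
    · rcases (hL a (hl.1 a ha)).2 with h | h
      · exact absurd (h.trans hb.symm) hab
      · exact hb ▸ h.symm
    · exact hl.2 a ha b hb hab

/-- cycles in the link of `w` bound after coning with `w` -/
lemma cone_kill {G : SimpleGraph V} {S L : Set V} {w : V} {m : ℕ}
    (hL : ∀ v ∈ L, v ∈ S ∧ (v = w ∨ G.Adj w v)) (hw : w ∈ S) :
    Zc (cl G L) m ≤ Bd (cl G S) m := by
  intro z hz
  rw [mem_Zc] at hz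
  refine ⟨cone w z, cone_mem_CF hz.1 (fun l hl _ => cl_cons hl hL hw), ?_⟩
  rw [D_cone, hz.2, map_zero, sub_zero]

/-- adding a vertex -/
lemma add_vertex {G : SimpleGraph V} {S : Set V} {w : V} (hw : w ∉ S) {m : ℕ}
    (hlink : Zc (cl G (S ∩ {v | G.Adj w v})) m ≤ Bd (cl G (S ∩ {v | G.Adj w v})) m) :
    Zc (cl G (insert w S)) (m + 1) ≤
      Zc (cl G S) (m + 1) ⊔ Bd (cl G (insert w S)) (m + 1) := by
  classical
  set L : Set V := S ∩ {v | G.Adj w v} with hLdef
  intro z hz
  rw [mem_Zc] at hz
  obtain ⟨hz1, hz2⟩ := hz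
  set z1 := z.filter (fun l => w ∈ l) with hz1def
  set z2 := z.filter (fun l => ¬ w ∈ l) with hz2def
  have hsum : z1 + z2 = z := Finsupp.filter_pos_add_filter_neg z _
  have hz1m : z1 ∈ CF (cl G (insert w L)) (m + 1) := by
    rw [mem_CF] at hz1 ⊢
    intro l hl
    rw [hz1def, Finsupp.support_filter, Finset.mem_filter] at hl
    obtain ⟨h1, h2⟩ := hz1 l hl.1
    refine ⟨⟨?_, h1.2⟩, h2⟩
    intro a ha
    by_cases haw : a = w
    · left; exact haw
    · right
      rcases h1.1 a ha with h | h
      · exact absurd h haw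
      · exact ⟨h, h1.2 w hl.2 a ha (Ne.symm haw)⟩
  have hz2m : z2 ∈ CF (cl G S) (m + 1) := by
    rw [mem_CF] at hz1 ⊢
    intro l hl
    rw [hz2def, Finsupp.support_filter, Finset.mem_filter] at hl
    obtain ⟨h1, h2⟩ := hz1 l hl.1
    refine ⟨⟨?_, h1.2⟩, h2⟩
    intro a ha
    rcases h1.1 a ha with h | h
    · exact absurd (h ▸ ha) hl.2
    · exact h
  have hDD : D z1 = - D z2 := by
    have : D z1 + D z2 = 0 := by rw [← map_add, hsum, hz2]
    exact eq_neg_of_add_eq_zero_left this
  have hb1 : D z1 ∈ CF (cl G (insert w L)) m := D_mem_CF (cl_subClosed _ _) hz1m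
  have hb2 : D z1 ∈ CF (cl G S) m := by
    rw [hDD]; exact Submodule.neg_mem _ (D_mem_CF (cl_subClosed _ _) hz2m)
  have hb : D z1 ∈ CF (cl G L) m := by
    rw [mem_CF] at hb1 hb2 ⊢
    intro l hl
    obtain ⟨h1, h2⟩ := hb1 l hl
    obtain ⟨h3, _⟩ := hb2 l hl
    refine ⟨⟨?_, h1.2⟩, h2⟩
    intro a ha
    rcases h1.1 a ha with h | h
    · exact absurd (h ▸ h3.1 a ha) hw
    · exact h
  have hbZ : D z1 ∈ Zc (cl G L) m := ⟨hb, D_D z1⟩
  obtain ⟨c, hc, hcD⟩ := hlink hbZ
  have hLS : L ⊆ S := fun v hv => hv.1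
  have hzc : z1 - c ∈ Zc (cl G (insert w L)) (m + 1) := by
    refine ⟨Submodule.sub_mem _ hz1m (CF_mono (cl_mono (Set.subset_insert w L)) hc), ?_⟩
    show D _ = 0
    rw [map_sub, hcD, sub_self]
  have hkill : z1 - c ∈ Bd (cl G (insert w S)) (m + 1) := by
    refine cone_kill (w := w) ?_ (Set.mem_insert w S) hzc
    intro v hv
    rcases hv with rfl | hv
    · exact ⟨Set.mem_insert _ _, Or.inl rfl⟩
    · exact ⟨Set.mem_insert_of_mem _ hv.1, Or.inr hv.2⟩
  have hz2c : z2 + c ∈ Zc (cl G S) (m + 1) := by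
    refine ⟨Submodule.add_mem _ hz2m (CF_mono (cl_mono hLS) hc), ?_⟩
    show D _ = 0
    rw [map_add, hcD, hDD]; abel
  have : z = (z2 + c) + (z1 - c) := by rw [← hsum]; abel
  rw [this]
  exact Submodule.add_mem_sup hz2c hkill

lemma Zc_zero_le {G : SimpleGraph V} {S S' : Set V} (h : S ⊆ S')
    (hz : Zc (cl G S) 0 ≤ Bd (cl G S) 0) : Zc (cl G S') 0 ≤ Bd (cl G S') 0 := by
  intro z hz'
  have : z ∈ Zc (cl G S) 0 := by
    refine ⟨?_, hz'.2⟩
    have h1 := hz'.1
    rw [SetLike.mem_coe, mem_CF] at *
    intro l hl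
    obtain ⟨_, h2⟩ := h1 l hl
    rw [List.length_eq_zero_iff] at h2
    subst h2
    exact ⟨cl_nil _ _, rfl⟩
  exact Bd_mono (cl_mono h) (hz this)

lemma acyc_insert {G : SimpleGraph V} {S : Set V} {w : V} (hw : w ∉ S) {ℓ : ℕ}
    (hS : Acyc (cl G S) ℓ) (hL : ∀ m, m + 1 ≤ ℓ →
      Zc (cl G (S ∩ {v | G.Adj w v})) m ≤ Bd (cl G (S ∩ {v | G.Adj w v})) m) :
    Acyc (cl G (insert w S)) ℓ := by
  intro m hm
  cases m with
  | zero => exact Zc_zero_le (Set.subset_insert w S) (hS 0 (Nat.zero_le _))
  | succ m =>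
    refine (add_vertex hw (hL m hm)).trans ?_
    refine sup_le ?_ le_rfl
    exact (hS (m + 1) hm).trans (Bd_mono (cl_mono (Set.subset_insert w S)))

/-- joining a clique `τ` to a set `κ` -/
lemma acyc_union_clique [DecidableEq V] {G : SimpleGraph V} (τ : Finset V)
    (hτ : ∀ a ∈ τ, ∀ b ∈ τ, a ≠ b → G.Adj a b) :
    ∀ (κ : Set V) (ℓ : ℕ), (∀ v ∈ τ, v ∉ κ) →
      (∀ τ' ⊆ τ, τ'.card ≤ ℓ → Acyc (cl G (κ ∩ {u | ∀ t ∈ τ', G.Adj t u})) (ℓ - τ'.card)) →
      Acyc (cl G (κ ∪ (τ : Set V))) ℓ := by
  induction τ using Finset.induction_on with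
  | empty =>
    intro κ ℓ _ h
    have := h ∅ (Finset.Subset.refl _) (by simp)
    simpa using this
  | insert v τ hv ih =>
    intro κ ℓ hκ h
    have hτ' : ∀ a ∈ τ, ∀ b ∈ τ, a ≠ b → G.Adj a b := fun a ha b hb =>
      hτ a (Finset.mem_insert_of_mem ha) b (Finset.mem_insert_of_mem hb)
    have hset : (κ ∪ ((insert v τ : Finset V) : Set V)) = insert v (κ ∪ (τ : Set V)) := by
      ext u
      simp only [Set.mem_union, Finset.coe_insert, Set.mem_insert_iff, Finset.mem_coe]
      tauto
    rw [hset]
    refine acyc_insert ?_ ?_ ?_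
    · rintro (h1 | h1)
      · exact hκ v (Finset.mem_insert_self v τ) h1
      · exact hv h1
    · refine ih hτ' κ ℓ (fun u hu => hκ u (Finset.mem_insert_of_mem hu)) ?_
      intro τ' h1 h2
      exact h τ' (h1.trans (Finset.subset_insert v τ)) h2
    · intro m hm
      have hlink : (κ ∪ (τ : Set V)) ∩ {u | G.Adj v u} =
          (κ ∩ {u | G.Adj v u}) ∪ (τ : Set V) := by
        ext u
        simp only [Set.mem_inter_iff, Set.mem_union, Finset.mem_coe, Set.mem_setOf_eq]
        constructor
        · rintro ⟨h1 | h1, h2⟩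
          · left; exact ⟨h1, h2⟩
          · right; exact h1
        · rintro (⟨h1, h2⟩ | h1)
          · exact ⟨Or.inl h1, h2⟩
          · refine ⟨Or.inr h1, ?_⟩
            exact hτ v (Finset.mem_insert_self v τ) u (Finset.mem_insert_of_mem h1)
              (fun e => hv (e ▸ h1))
      rw [hlink]
      have := ih hτ' (κ ∩ {u | G.Adj v u}) (ℓ - 1)
        (fun u hu h1 => hκ u (Finset.mem_insert_of_mem hu) h1.1) ?_
      · exact this m (by omega)
      · intro τ' h1 h2
        have hvτ' : v ∉ τ' := fun h3 => hv (h1 h3)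
        have := h (insert v τ') (Finset.insert_subset_insert v h1)
          (by rw [Finset.card_insert_of_notMem hvτ']; omega)
        rw [Finset.card_insert_of_notMem hvτ'] at this
        have hs : (κ ∩ {u | G.Adj v u}) ∩ {u | ∀ t ∈ τ', G.Adj t u} =
            κ ∩ {u | ∀ t ∈ insert v τ', G.Adj t u} := by
          ext u
          simp only [Set.mem_inter_iff, Set.mem_setOf_eq, Finset.mem_insert, forall_eq_or_imp]
          tauto
        rw [hs]
        have e : ℓ - 1 - τ'.card = ℓ - (τ'.card + 1) := by omega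
        rw [e]
        exact this

/-! ## Acyclic carriers -/

lemma lin_single {A : Type} [AddCommGroup A] (δ : List V → A) (l : List V) (c : ℤ) :
    lin δ (Finsupp.single l c) = c • δ l := by
  simp [lin, Finsupp.linearCombination_single]

/-- the chain map `π` into `κ` -/
lemma exists_pi {G : SimpleGraph V} {κ S2 : Set V} {m : ℕ} (hκ : Acyc (cl G κ) m) :
    ∀ N ≤ m + 1, ∃ π : List V → Ch V, π [] = Finsupp.single [] 1 ∧
      ∀ τ, cl G S2 τ → τ.length ≤ N →
        π τ ∈ CF (cl G κ) τ.length ∧ D (π τ) = lin π (bd τ) := by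
  intro N
  induction N with
  | zero =>
    intro _
    refine ⟨fun _ => Finsupp.single [] 1, rfl, ?_⟩
    intro τ _ h
    have : τ = [] := List.length_eq_zero_iff.mp (Nat.le_zero.mp h)
    subst this
    refine ⟨single_mem_CF _ (cl_nil _ _) rfl, by simp⟩
  | succ N ih =>
    intro hN
    obtain ⟨π, h0, hπ⟩ := ih (by omega)
    -- choose on lists of length `N + 1`
    have hex : ∀ τ, ∃ y : Ch V, (cl G S2 τ ∧ τ.length = N + 1) →
        (y ∈ CF (cl G κ) (N + 1) ∧ D y = lin π (bd τ)) := by
      intro τ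
      by_cases h : cl G S2 τ ∧ τ.length = N + 1
      · have hz : lin π (bd τ) ∈ Zc (cl G κ) N := by
          have hbd : bd τ ∈ CF (cl G S2) N := by
            rw [← D_single_one]
            exact D_mem_CF (cl_subClosed _ _) (single_mem_CF _ h.1 h.2)
          refine ⟨?_, ?_⟩
          · refine map_CF_le (N := CF (cl G κ) N) (lin π) ?_ hbd
            intro l hl hm
            rw [lin_single, one_smul]
            have := (hπ l hl (by omega)).1
            rwa [hm] at this
          · show D _ = 0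
            -- D (lin π z) = lin π (D z) on such chains
            have key : ∀ z ∈ CF (cl G S2) N, D (lin π z) = lin π (D z) := by
              intro z hz
              have := map_CF_le (N := (⊥ : Submodule ℤ (Ch V)))
                ((D : Ch V →ₗ[ℤ] Ch V).comp (lin π) - (lin π).comp D) (F := cl G S2) (m := N) ?_ hz
              · rw [Submodule.mem_bot, LinearMap.sub_apply, sub_eq_zero] at this
                exact this
              · intro l hl hm
                rw [Submodule.mem_bot, LinearMap.sub_apply, sub_eq_zero, LinearMap.comp_apply,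
                  LinearMap.comp_apply, lin_single, one_smul, D_single_one]
                exact (hπ l hl (by omega)).2
            rw [key _ hbd, D_bd, map_zero]
        obtain ⟨y, hy, hyD⟩ := hκ N (by omega) hz
        exact ⟨y, fun _ => ⟨hy, hyD⟩⟩
      · exact ⟨0, fun h' => absurd h' h⟩
    choose y hy using hex
    classical
    refine ⟨fun τ => if τ.length ≤ N then π τ else y τ, ?_, ?_⟩
    · simp [h0]
    · intro τ hτ hlen
      have hlin : ∀ z : Ch V, (∀ l ∈ z.support, l.length ≤ N) →
          lin (fun τ => if τ.length ≤ N then π τ else y τ) z = lin π z := by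
        intro z hz
        unfold lin
        rw [Finsupp.linearCombination_apply, Finsupp.linearCombination_apply, Finsupp.sum,
          Finsupp.sum]
        apply Finset.sum_congr rfl
        intro l hl
        rw [if_pos (hz l hl)]
      have hbd : ∀ l ∈ (bd τ).support, l.length ≤ N := by
        intro l hl
        have := (bd_support τ l hl).2
        omega
      rw [hlin _ hbd]
      by_cases h1 : τ.length ≤ N
      · simp only [if_pos h1]
        exact hπ τ hτ h1
      · simp only [if_neg h1]
        have h2 : τ.length = N + 1 := by omega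
        rw [h2]
        exact hy τ ⟨hτ, h2⟩

lemma lin_comm_of {F : List V → Prop} {N : ℕ} {π : List V → Ch V}
    (h : ∀ l, F l → l.length = N → D (π l) = lin π (bd l)) {z : Ch V} (hz : z ∈ CF F N) :
    D (lin π z) = lin π (D z) := by
  have := map_CF_le (N := (⊥ : Submodule ℤ (Ch V)))
    ((D : Ch V →ₗ[ℤ] Ch V).comp (lin π) - (lin π).comp D) (F := F) (m := N) ?_ hz
  · rw [Submodule.mem_bot, LinearMap.sub_apply, sub_eq_zero] at this
    exact this
  · intro l hl hm
    rw [Submodule.mem_bot, LinearMap.sub_apply, sub_eq_zero, LinearMap.comp_apply,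
      LinearMap.comp_apply, lin_single, one_smul, D_single_one]
    exact h l hl hm

lemma lin_homotopy_of {F : List V → Prop} {N : ℕ} {π h : List V → Ch V}
    (hh : ∀ l, F l → l.length = N →
      D (h l) = Finsupp.single l 1 - π l - lin h (bd l)) {z : Ch V} (hz : z ∈ CF F N) :
    D (lin h z) = z - lin π z - lin h (D z) := by
  have := map_CF_le (N := (⊥ : Submodule ℤ (Ch V)))
    ((D : Ch V →ₗ[ℤ] Ch V).comp (lin h) - (LinearMap.id - lin π - (lin h).comp D))
    (F := F) (m := N) ?_ hz
  · rw [Submodule.mem_bot, LinearMap.sub_apply, sub_eq_zero] at this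
    exact this
  · intro l hl hm
    rw [Submodule.mem_bot, LinearMap.sub_apply, sub_eq_zero, LinearMap.comp_apply,
      LinearMap.sub_apply, LinearMap.sub_apply, LinearMap.comp_apply, lin_single, one_smul,
      D_single_one, LinearMap.id_apply, lin_single, one_smul]
    exact hh l hl hm

/-- the vertices of a list as a set -/
def ls (l : List V) : Set V := {v | v ∈ l}

/-- the homotopy `h` with carrier `κ ∪ τ` -/
lemma exists_h {G : SimpleGraph V} {κ S2 : Set V} {m : ℕ} {π : List V → Ch V}
    (h0 : π [] = Finsupp.single [] 1)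
    (hπ : ∀ τ, cl G S2 τ → τ.length ≤ m + 1 →
        π τ ∈ CF (cl G κ) τ.length ∧ D (π τ) = lin π (bd τ))
    (hac : ∀ τ, cl G S2 τ → τ.length ≤ m → Acyc (cl G (κ ∪ ls τ)) m) :
    ∀ N ≤ m, ∃ h : List V → Ch V, ∀ τ, cl G S2 τ → τ.length ≤ N →
        h τ ∈ CF (cl G (κ ∪ ls τ)) (τ.length + 1) ∧
        D (h τ) = Finsupp.single τ 1 - π τ - lin h (bd τ) := by
  intro N
  induction N with
  | zero =>
    intro _
    refine ⟨fun _ => 0, ?_⟩
    intro τ _ h
    have : τ = [] := List.length_eq_zero_iff.mp (Nat.le_zero.mp h)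
    subst this
    refine ⟨Submodule.zero_mem _, by simp [h0]⟩
  | succ N ih =>
    intro hN
    obtain ⟨h, hh⟩ := ih (by omega)
    have hex : ∀ τ, ∃ y : Ch V, (cl G S2 τ ∧ τ.length = N + 1) →
        (y ∈ CF (cl G (κ ∪ ls τ)) (N + 2) ∧
          D y = Finsupp.single τ 1 - π τ - lin h (bd τ)) := by
      intro τ
      by_cases hτ : cl G S2 τ ∧ τ.length = N + 1
      · have hbd : bd τ ∈ CF (cl G S2) N := by
          rw [← D_single_one]
          exact D_mem_CF (cl_subClosed _ _) (single_mem_CF _ hτ.1 hτ.2)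
        have hbd' : bd τ ∈ CF (fun l => cl G S2 l ∧ ls l ⊆ ls τ) N := by
          rw [mem_CF] at hbd ⊢
          intro l hl
          obtain ⟨h1, h2⟩ := hbd l hl
          exact ⟨⟨h1, fun v hv => (bd_support τ l hl).1.subset hv⟩, h2⟩
        have hz : Finsupp.single τ 1 - π τ - lin h (bd τ) ∈ Zc (cl G (κ ∪ ls τ)) (N + 1) := by
          refine ⟨?_, ?_⟩
          · refine Submodule.sub_mem _ (Submodule.sub_mem _ ?_ ?_) ?_
            · refine single_mem_CF _ ⟨fun a ha => Or.inr ha, hτ.1.2⟩ hτ.2
            · have := (hπ τ hτ.1 (by omega)).1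
              rw [hτ.2] at this
              exact CF_mono (cl_mono Set.subset_union_left) this
            · refine map_CF_le (N := CF (cl G (κ ∪ ls τ)) (N + 1)) (lin h) ?_ hbd'
              intro l hl hm
              rw [lin_single, one_smul]
              have := (hh l hl.1 (by omega)).1
              rw [hm] at this
              exact CF_mono (cl_mono (Set.union_subset_union_right κ hl.2)) this
          · show D _ = 0
            rw [map_sub, map_sub, D_single_one,
              lin_homotopy_of (F := cl G S2) (N := N) (π := π) (h := h)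
                (fun l hl hm => (hh l hl (by omega)).2) hbd,
              D_bd, map_zero, (hπ τ hτ.1 (by omega)).2]
            abel
        obtain ⟨y, hy, hyD⟩ := hac τ hτ.1 (by omega) (N + 1) (by omega) hz
        exact ⟨y, fun _ => ⟨hy, hyD⟩⟩
      · exact ⟨0, fun h' => absurd h' hτ⟩
    choose y hy using hex
    classical
    refine ⟨fun τ => if τ.length ≤ N then h τ else y τ, ?_⟩
    intro τ hτ hlen
    have hlin : ∀ z : Ch V, (∀ l ∈ z.support, l.length ≤ N) →
        lin (fun τ => if τ.length ≤ N then h τ else y τ) z = lin h z := by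
      intro z hz
      unfold lin
      rw [Finsupp.linearCombination_apply, Finsupp.linearCombination_apply, Finsupp.sum,
        Finsupp.sum]
      apply Finset.sum_congr rfl
      intro l hl
      rw [if_pos (hz l hl)]
    have hbd : ∀ l ∈ (bd τ).support, l.length ≤ N := by
      intro l hl
      have := (bd_support τ l hl).2
      omega
    rw [hlin _ hbd]
    by_cases h1 : τ.length ≤ N
    · simp only [if_pos h1]
      exact hh τ hτ h1
    · simp only [if_neg h1]
      have h2 : τ.length = N + 1 := by omega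
      rw [h2]
      exact hy τ ⟨hτ, h2⟩

/-- generators: cycles in `S2` are, modulo cycles in `κ`, combinations of cycles supported on
`κ ∪ σ`, `|σ| = m + 1` -/
lemma exists_generators {G : SimpleGraph V} {κ S2 : Set V} {m : ℕ}
    (hκ : Acyc (cl G κ) m)
    (hac : ∀ τ, cl G S2 τ → τ.length ≤ m → Acyc (cl G (κ ∪ ls τ)) m) :
    ∃ x : List V → Ch V,
      (∀ σ, cl G S2 σ → σ.length = m + 1 → x σ ∈ Zc (cl G (κ ∪ ls σ)) (m + 1)) ∧
      ∀ z ∈ Zc (cl G S2) (m + 1), z - lin x z ∈ Zc (cl G κ) (m + 1) := by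
  obtain ⟨π, h0, hπ⟩ := exists_pi (S2 := S2) hκ (m + 1) le_rfl
  obtain ⟨h, hh⟩ := exists_h h0 hπ hac m le_rfl
  refine ⟨fun σ => Finsupp.single σ 1 - π σ - lin h (bd σ), ?_, ?_⟩
  · intro τ hτ hlen
    have hbd : bd τ ∈ CF (cl G S2) m := by
      rw [← D_single_one]
      exact D_mem_CF (cl_subClosed _ _) (single_mem_CF _ hτ hlen)
    have hbd' : bd τ ∈ CF (fun l => cl G S2 l ∧ ls l ⊆ ls τ) m := by
      rw [mem_CF] at hbd ⊢
      intro l hl
      obtain ⟨h1, h2⟩ := hbd l hl
      exact ⟨⟨h1, fun v hv => (bd_support τ l hl).1.subset hv⟩, h2⟩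
    refine ⟨?_, ?_⟩
    · refine Submodule.sub_mem _ (Submodule.sub_mem _ ?_ ?_) ?_
      · refine single_mem_CF _ ⟨fun a ha => Or.inr ha, hτ.2⟩ hlen
      · have := (hπ τ hτ (by omega)).1
        rw [hlen] at this
        exact CF_mono (cl_mono Set.subset_union_left) this
      · refine map_CF_le (N := CF (cl G (κ ∪ ls τ)) (m + 1)) (lin h) ?_ hbd'
        intro l hl hm
        rw [lin_single, one_smul]
        have := (hh l hl.1 (by omega)).1
        rw [hm] at this
        exact CF_mono (cl_mono (Set.union_subset_union_right κ hl.2)) this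
    · show D (Finsupp.single τ 1 - π τ - lin h (bd τ)) = 0
      rw [map_sub, map_sub, D_single_one,
        lin_homotopy_of (F := cl G S2) (N := m) (π := π) (h := h)
          (fun l hl hm => (hh l hl (by omega)).2) hbd,
        D_bd, map_zero, (hπ τ hτ (by omega)).2]
      abel
  · intro z hz
    have hzz : ∀ y : Ch V, lin (fun σ => Finsupp.single σ 1 - π σ - lin h (bd σ)) y =
        y - lin π y - lin h (D y) := by
      intro y
      induction y using Finsupp.induction_linear with
      | zero => simp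
      | add f g hf hg => rw [map_add, hf, hg, map_add, map_add, map_add]; abel
      | single l c =>
        rw [lin_single, lin_single, D_single, map_smul, smul_sub, smul_sub]
        simp
    rw [hzz, hz.2, map_zero]
    have h1 : z - (z - lin π z - 0) = lin π z := by abel
    rw [h1]
    refine ⟨?_, ?_⟩
    · refine map_CF_le (N := CF (cl G κ) (m + 1)) (lin π) ?_ hz.1
      intro l hl hm
      rw [lin_single, one_smul]
      have := (hπ l hl (by omega)).1
      rwa [hm] at this
    · show D _ = 0
      rw [lin_comm_of (F := cl G S2) (N := m + 1) (π := π)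
        (fun l hl hm => (hπ l hl (by omega)).2) hz.1, hz.2, map_zero]

end Pool.Agent.Work.MP_d1e9a6_pr.BlockA
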