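import Pool.Agent.Work.MP_d1e9a6_pr.AMain

/-!
# MP_d1e9a6_pr, Theorem A: conclusion of the induction
-/

set_option autoImplicit false

namespace Pool.Agent.Work.MP_d1e9a6_pr.BlockA

variable {n : ℕ}

lemma idx_congr {c : ℤ} {m : ℕ} {T U : Finset (Fin n)} {G G' : SimpleGraph (Fin n)}
    (h : Agr G G' (T ∪ U)) :
    idx c (cl G' (comN G' T U)) m = idx c (cl G (comN G T U)) m := by
  have h1 : comN G' T U = comN G T U :=
    h.comN_eq Finset.subset_union_left Finset.subset_union_right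
  have h2 : cl G' (comN G T U) = cl G (comN G T U) :=
    h.cl_eq (comN_subset.trans (Finset.coe_subset.mpr Finset.subset_union_right))
  rw [h1, h2]

lemma Bc_zero {V : Type} (F : List V → Prop) (m : ℕ) : Bc 0 F m = (Bd F m).toAddSubgroup := by
  apply le_antisymm
  · intro z hz
    rw [mem_Bc] at hz
    obtain ⟨b, hb, y, hy, rfl⟩ := Submodule.mem_sup.mp hz
    obtain ⟨x, _, rfl⟩ := hy
    simpa using hb
  · exact Bd_le_Bc

lemma le_of_idx_zero {V : Type} {F : List V → Prop} {m : ℕ} (h : idx 0 F m = 1) :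
    Zc F m ≤ Bd F m := by
  unfold idx at h
  rw [Bc_zero, AddSubgroup.relIndex_eq_one] at h
  exact h

/-- the main estimate in one degree -/
lemma main_degree (hC : Stmt_Count) (hI : Stmt_IndexBound) (h2 : Stmt_Index2) {A b : ℝ}
    {a m : ℕ} (hA : 0 < A) (hb : 0 < b) (hyp : HypA A b a m) :
    ∃ (A' b' : ℝ) (a' : ℕ), 0 < A' ∧ 0 < b' ∧
      ∀ (n : ℕ) (p : ℝ), 0 ≤ p → p ≤ 1 → ∀ T W : Finset (Fin n), Disjoint T W →
      PrG n p (fun G => ¬ Zc (cl G (comN G T W)) (m + 1) ≤ Bd (cl G (comN G T W)) (m + 1)) ≤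
        A' * (n + 1 : ℝ) ^ a' * Real.exp (-(b' * W.card * p ^ (T.card + (m + 1)))) := by
  obtain ⟨C, hC0, hCb⟩ := hI (m + 1)
  set b1 := min b 1 with hb1
  have hb10 : 0 < b1 := lt_min hb one_pos
  refine ⟨(6 * A + 1 + C / Real.log 2) * Real.exp b1, b1 / 4, a + 3 * m + 5, ?_, by positivity, ?_⟩
  · have : 0 < Real.log 2 := Real.log_pos (by norm_num)
    positivity
  intro n p hp0 hp1 T W hTW
  have hlog2 : 0 < Real.log 2 := Real.log_pos (by norm_num)
  set N := W.card with hN
  set M := N / 4 with hM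
  set q := p ^ (T.card + (m + 1)) with hq
  have hq0 : 0 ≤ q := pow_nonneg hp0 _
  have hq1 : q ≤ 1 := pow_le_one₀ hp0 hp1
  obtain ⟨V1, hV1W, hV1c⟩ := Finset.exists_subset_card_eq (s := W) (n := M) (by omega)
  obtain ⟨U0, hV1U0, hU0W, hU0c⟩ := Finset.exists_subsuperset_card_eq hV1W
    (n := 2 * M) (by omega) (by omega)
  obtain ⟨U1, hU0U1, hU1W, hU1c⟩ := Finset.exists_subsuperset_card_eq hU0W
    (n := 3 * M) (by omega) (by omega)
  have hV1U1 : V1 ⊆ U1 := hV1U0.trans hU0U1
  set l1 := (U1 \ U0).toList with hl1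
  set l2 := (W \ U1).toList with hl2
  have hl1U : U0 ∪ l1.toFinset = U1 := by
    rw [hl1, Finset.toList_toFinset, Finset.union_sdiff_of_subset hU0U1]
  have hl2U : U1 ∪ l2.toFinset = W := by
    rw [hl2, Finset.toList_toFinset, Finset.union_sdiff_of_subset hU1W]
  have hlen1 : l1.length = M := by
    rw [hl1, Finset.length_toList, Finset.card_sdiff_of_subset hU0U1]; omega
  have hlen2 : M ≤ l2.length := by
    rw [hl2, Finset.length_toList, Finset.card_sdiff_of_subset hU1W]; omega
  have hlen2' : l2.length ≤ n := by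
    rw [hl2, Finset.length_toList]
    exact (Finset.card_le_univ _).trans (by simp)
  have hlen1' : l1.length ≤ n := by
    rw [hl1, Finset.length_toList]
    exact (Finset.card_le_univ _).trans (by simp)
  have hdis1 : ∀ v ∈ l1, v ∉ U0 := fun v hv => by
    rw [hl1, Finset.mem_toList, Finset.mem_sdiff] at hv; exact hv.2
  have hdis2 : ∀ v ∈ l2, v ∉ U1 := fun v hv => by
    rw [hl2, Finset.mem_toList, Finset.mem_sdiff] at hv; exact hv.2
  have hT1 : ∀ v ∈ l1, v ∉ T := fun v hv h => by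
    rw [hl1, Finset.mem_toList, Finset.mem_sdiff] at hv
    exact Finset.disjoint_left.mp hTW h (hU1W hv.1)
  have hT2 : ∀ v ∈ l2, v ∉ T := fun v hv h => by
    rw [hl2, Finset.mem_toList, Finset.mem_sdiff] at hv
    exact Finset.disjoint_left.mp hTW h hv.1
  have hTU0 : Disjoint T U0 := hTW.mono_right hU0W
  have hTU1 : Disjoint T U1 := hTW.mono_right hU1W
  have hc1 : M ≤ V1.card := by omega
  have hc2 : M ≤ (U0 \ V1).card := by
    rw [Finset.card_sdiff_of_subset hV1U0]; omega
  have hc3 : M ≤ (U1 \ V1).card := by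
    rw [Finset.card_sdiff_of_subset hV1U1]; omega
  -- the two phases
  have hcard : (Fintype.card (Fin n) : ℝ) = n := by simp
  have hph1 := phase hC hp0 hp1 (c := 2) (m := m) (T := T) (V1 := V1) (U0 := U0) hV1U0
    (E := fun _ => True) (fun _ _ _ => Iff.rfl)
    (fun G _ => (h2 (m + 1) (Fin n) _ (cl_subClosed G (comN G T U0))).1)
    (B := (n : ℝ) ^ (m + 1) * Real.log 2) (by positivity)
    (fun G _ => by
      have := (h2 (m + 1) (Fin n) _ (cl_subClosed G (comN G T U0))).2.1
      rw [hcard] at this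
      exact this)
    l1 (Finset.nodup_toList _) hdis1 hT1 hTU0 (M := M) hlen1.ge
  have hph2 := phase hC hp0 hp1 (c := 0) (m := m) (T := T) (V1 := V1) (U0 := U1) hV1U1
    (E := fun G => idx 0 (cl G (comN G T U1)) (m + 1) ≠ 0)
    (fun G G' h => by rw [idx_congr h])
    (fun G h => h)
    (B := C * ((n : ℝ) + 1) ^ (3 * (m + 1))) (by positivity)
    (fun G h => by
      have h3 := hCb (Fin n) _ (cl_subClosed G (comN G T U1))
      rw [← Bc_zero] at h3
      have h4 := h3 h
      rw [hcard] at h4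
      exact h4)
    l2 (Finset.nodup_toList _) hdis2 hT2 hTU1 (M := M) hlen2
  have hg1 := PrG_not_goodL hA hb hyp hp0 hp1 hV1U0 hc1 hc2 l1 (Finset.nodup_toList _) hdis1 hT1 hTU0
  have hg2 := PrG_not_goodL hA hb hyp hp0 hp1 hV1U1 hc1 hc3 l2 (Finset.nodup_toList _) hdis2 hT2 hTU1
  rw [hl1U] at hph1
  rw [hl2U] at hph2
  have hcover : PrG n p (fun G => ¬ Zc (cl G (comN G T W)) (m + 1) ≤
      Bd (cl G (comN G T W)) (m + 1)) ≤
      PrG n p (fun G => ¬ GoodL G T V1 U0 m l1) +
      (PrG n p (fun G => True ∧ GoodL G T V1 U0 m l1 ∧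
          idx 2 (cl G (comN G T U1)) (m + 1) ≠ 1) +
      (PrG n p (fun G => ¬ GoodL G T V1 U1 m l2) +
        PrG n p (fun G => idx 0 (cl G (comN G T U1)) (m + 1) ≠ 0 ∧ GoodL G T V1 U1 m l2 ∧
          idx 0 (cl G (comN G T W)) (m + 1) ≠ 1))) := by
    refine le_trans ?_ ((PrG_or_le hp0 hp1 _ _).trans
      (add_le_add le_rfl ((PrG_or_le hp0 hp1 _ _).trans
        (add_le_add le_rfl (PrG_or_le hp0 hp1 _ _)))))
    apply PrG_mono hp0 hp1
    intro G hG
    by_cases e1 : GoodL G T V1 U0 m l1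
    · by_cases e2 : idx 2 (cl G (comN G T U1)) (m + 1) = 1
      · have e3 : idx 0 (cl G (comN G T U1)) (m + 1) ≠ 0 := by
          have := (h2 (m + 1) (Fin n) _ (cl_subClosed G (comN G T U1))).2.2 e2
          unfold idx
          rw [Bc_zero]
          exact this
        by_cases e4 : GoodL G T V1 U1 m l2
        · right; right; right
          refine ⟨e3, e4, ?_⟩
          intro e5
          exact hG (le_of_idx_zero e5)
        · right; right; left; exact e4
      · right; left; exact ⟨trivial, e1, e2⟩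
    · left; exact e1
  refine hcover.trans ?_
  -- numerics
  have hX : (1 : ℝ) ≤ (n : ℝ) + 1 := by
    have : (0 : ℝ) ≤ n := Nat.cast_nonneg n
    linarith
  set X : ℝ := (n : ℝ) + 1 with hXdef
  have hMN : (N : ℝ) / 4 - 1 ≤ M := by
    have : N < 4 * (M + 1) := by omega
    have h3 : (N : ℝ) < 4 * ((M : ℝ) + 1) := by exact_mod_cast this
    linarith
  have hE1 : Real.exp (-(b * M * q)) ≤ Real.exp b1 * Real.exp (-(b1 / 4 * N * q)) := by
    rw [← Real.exp_add, Real.exp_le_exp]
    have h3 : b1 * M * q ≤ b * M * q := by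
      apply mul_le_mul_of_nonneg_right _ hq0
      exact mul_le_mul_of_nonneg_right (min_le_left _ _) (Nat.cast_nonneg _)
    have h4 : b1 * ((N : ℝ) / 4 - 1) * q ≤ b1 * M * q := by
      apply mul_le_mul_of_nonneg_right _ hq0
      exact mul_le_mul_of_nonneg_left hMN hb10.le
    have h5 : b1 * q ≤ b1 := by nlinarith
    nlinarith
  have hE2 : Real.exp (-(M * q)) ≤ Real.exp b1 * Real.exp (-(b1 / 4 * N * q)) := by
    rw [← Real.exp_add, Real.exp_le_exp]
    have h3 : b1 * M * q ≤ 1 * M * q := by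
      apply mul_le_mul_of_nonneg_right _ hq0
      exact mul_le_mul_of_nonneg_right (min_le_right _ _) (Nat.cast_nonneg _)
    have h4 : b1 * ((N : ℝ) / 4 - 1) * q ≤ b1 * M * q := by
      apply mul_le_mul_of_nonneg_right _ hq0
      exact mul_le_mul_of_nonneg_left hMN hb10.le
    have h5 : b1 * q ≤ b1 := by nlinarith
    nlinarith
  set Ef := Real.exp b1 * Real.exp (-(b1 / 4 * N * q)) with hEf
  have hEf0 : 0 ≤ Ef := by positivity
  have hXpos : (0 : ℝ) < X := by linarith
  have hpowle : ∀ {i j : ℕ}, i ≤ j → X ^ i ≤ X ^ j := fun h => pow_le_pow_right₀ hX h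
  have hgood : ∀ L : ℕ, L ≤ n →
      (L : ℝ) * ((1 + (X + X ^ m)) * (A * X ^ a * Real.exp (-(b * M * q)))) ≤
        3 * A * X ^ (a + 3 * m + 5) * Ef := by
    intro L hL
    have h3 : (L : ℝ) ≤ X := by
      have : (L : ℝ) ≤ n := by exact_mod_cast hL
      linarith
    have h4 : 1 + (X + X ^ m) ≤ 3 * X ^ (m + 1) := by
      have e1 : (1 : ℝ) ≤ X ^ (m + 1) := one_le_pow₀ hX
      have e2 : X ≤ X ^ (m + 1) := by
        calc X = X ^ 1 := (pow_one X).symm
          _ ≤ _ := hpowle (by omega)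
      have e3 : X ^ m ≤ X ^ (m + 1) := hpowle (by omega)
      linarith
    calc (L : ℝ) * ((1 + (X + X ^ m)) * (A * X ^ a * Real.exp (-(b * M * q))))
        ≤ X * ((3 * X ^ (m + 1)) * (A * X ^ a * Ef)) := by
          gcongr
      _ = 3 * A * X ^ (a + m + 2) * Ef := by ring
      _ ≤ 3 * A * X ^ (a + 3 * m + 5) * Ef := by
          gcongr
          all_goals first | exact hX | omega
  have t1 := hg1.trans (hgood l1.length hlen1')
  have t3 := hg2.trans (hgood l2.length hlen2')
  have t2 : PrG n p (fun G => True ∧ GoodL G T V1 U0 m l1 ∧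
      idx 2 (cl G (comN G T U1)) (m + 1) ≠ 1) ≤ 1 * X ^ (a + 3 * m + 5) * Ef := by
    refine hph1.trans ?_
    rw [mul_div_assoc, div_self hlog2.ne', mul_one, one_mul]
    have e1 : (n : ℝ) ^ (m + 1) ≤ X ^ (a + 3 * m + 5) := by
      calc (n : ℝ) ^ (m + 1) ≤ X ^ (m + 1) := by
            apply pow_le_pow_left₀ (Nat.cast_nonneg _)
            linarith
        _ ≤ _ := hpowle (by omega)
    exact mul_le_mul e1 hE2 (Real.exp_pos _).le (by positivity)
  have t4 : PrG n p (fun G => idx 0 (cl G (comN G T U1)) (m + 1) ≠ 0 ∧ GoodL G T V1 U1 m l2 ∧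
          idx 0 (cl G (comN G T W)) (m + 1) ≠ 1) ≤
      (C / Real.log 2) * X ^ (a + 3 * m + 5) * Ef := by
    refine hph2.trans ?_
    have e1 : X ^ (3 * (m + 1)) ≤ X ^ (a + 3 * m + 5) := hpowle (by omega)
    calc C * X ^ (3 * (m + 1)) / Real.log 2 * Real.exp (-(M * q))
        = (C / Real.log 2) * X ^ (3 * (m + 1)) * Real.exp (-(M * q)) := by ring
      _ ≤ (C / Real.log 2) * X ^ (a + 3 * m + 5) * Ef := by
          gcongr
  calc _ ≤ 3 * A * X ^ (a + 3 * m + 5) * Ef + (1 * X ^ (a + 3 * m + 5) * Ef +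
        (3 * A * X ^ (a + 3 * m + 5) * Ef + (C / Real.log 2) * X ^ (a + 3 * m + 5) * Ef)) :=
        add_le_add t1 (add_le_add t2 (add_le_add t3 t4))
    _ = _ := by rw [hEf]; ring

lemma exists_hypA (hC : Stmt_Count) (hI : Stmt_IndexBound) (h2 : Stmt_Index2) (m : ℕ) :
    ∃ (A b : ℝ) (a : ℕ), 0 < A ∧ 0 < b ∧ HypA A b a m := by
  induction m with
  | zero =>
    refine ⟨1, 1, 0, one_pos, one_pos, ?_⟩
    intro ℓ hℓ n p hp0 hp1 T W hTW
    have : ℓ = 0 := Nat.le_zero.mp hℓ
    subst this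
    have := base_bound hp0 hp1 T W hTW
    simpa using this
  | succ m ih =>
    obtain ⟨A, b, a, hA, hb, hyp⟩ := ih
    obtain ⟨A', b', a', hA', hb', hmain⟩ := main_degree hC hI h2 hA hb hyp
    refine ⟨A + A', min b b', a + a', by positivity, lt_min hb hb', ?_⟩
    intro ℓ hℓ n p hp0 hp1 T W hTW
    have hX : (1 : ℝ) ≤ (n : ℝ) + 1 := by
      have : (0 : ℝ) ≤ n := Nat.cast_nonneg n
      linarith
    have hle1 : ∀ (e : ℕ), A * (n + 1 : ℝ) ^ a * Real.exp (-(b * W.card * p ^ e)) ≤
        A * (n + 1 : ℝ) ^ (a + a') * Real.exp (-(min b b' * W.card * p ^ e)) := by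
      intro e
      have h3 : min b b' * W.card * p ^ e ≤ b * W.card * p ^ e := by
        apply mul_le_mul_of_nonneg_right _ (pow_nonneg hp0 _)
        exact mul_le_mul_of_nonneg_right (min_le_left _ _) (Nat.cast_nonneg _)
      have h4 : Real.exp (-(b * W.card * p ^ e)) ≤ Real.exp (-(min b b' * W.card * p ^ e)) := by
        rw [Real.exp_le_exp]; linarith
      gcongr
      all_goals first | exact hX | omega
    have hle2 : ∀ (e : ℕ), A' * (n + 1 : ℝ) ^ a' * Real.exp (-(b' * W.card * p ^ e)) ≤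
        A' * (n + 1 : ℝ) ^ (a + a') * Real.exp (-(min b b' * W.card * p ^ e)) := by
      intro e
      have h3 : min b b' * W.card * p ^ e ≤ b' * W.card * p ^ e := by
        apply mul_le_mul_of_nonneg_right _ (pow_nonneg hp0 _)
        exact mul_le_mul_of_nonneg_right (min_le_right _ _) (Nat.cast_nonneg _)
      have h4 : Real.exp (-(b' * W.card * p ^ e)) ≤ Real.exp (-(min b b' * W.card * p ^ e)) := by
        rw [Real.exp_le_exp]; linarith
      gcongr
      all_goals first | exact hX | omega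
    rcases Nat.lt_or_ge ℓ (m + 1) with hlt | hge
    · have h1 := hyp ℓ (by omega) n p hp0 hp1 T W hTW
      refine h1.trans ((hle1 _).trans ?_)
      have h5 : A ≤ A + A' := by linarith
      gcongr
    · have hℓe : ℓ = m + 1 := by omega
      subst hℓe
      have h1 := hyp m le_rfl n p hp0 hp1 T W hTW
      have h3 := hmain n p hp0 hp1 T W hTW
      have hsplit : PrG n p (fun G => ¬ Acyc (cl G (comN G T W)) (m + 1)) ≤
          PrG n p (fun G => ¬ Acyc (cl G (comN G T W)) m) +
          PrG n p (fun G => ¬ Zc (cl G (comN G T W)) (m + 1) ≤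
            Bd (cl G (comN G T W)) (m + 1)) := by
        refine le_trans ?_ (PrG_or_le hp0 hp1 _ _)
        apply PrG_mono hp0 hp1
        intro G hG
        by_contra hcon
        push Not at hcon
        apply hG
        intro j hj
        rcases Nat.lt_or_ge j (m + 1) with h | h
        · exact hcon.1 j (by omega)
        · have : j = m + 1 := by omega
          rw [this]; exact hcon.2
      have h4 : A * (n + 1 : ℝ) ^ a * Real.exp (-(b * W.card * p ^ (T.card + m))) ≤
          A * (n + 1 : ℝ) ^ a * Real.exp (-(b * W.card * p ^ (T.card + (m + 1)))) := by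
        apply mul_le_mul_of_nonneg_left _ (by positivity)
        rw [Real.exp_le_exp]
        have : p ^ (T.card + (m + 1)) ≤ p ^ (T.card + m) :=
          pow_le_pow_of_le_one hp0 hp1 (by omega)
        have h5 : b * W.card * p ^ (T.card + (m + 1)) ≤ b * W.card * p ^ (T.card + m) :=
          mul_le_mul_of_nonneg_left this (by positivity)
        linarith
      calc _ ≤ _ := hsplit
        _ ≤ A * (n + 1 : ℝ) ^ (a + a') *
              Real.exp (-(min b b' * W.card * p ^ (T.card + (m + 1)))) +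
            A' * (n + 1 : ℝ) ^ (a + a') *
              Real.exp (-(min b b' * W.card * p ^ (T.card + (m + 1)))) :=
            add_le_add (h1.trans (h4.trans (hle1 _))) (h3.trans (hle2 _))
        _ = _ := by ring

/-- Theorem A -/
theorem stmt_A_of (hC : Stmt_Count) (hI : Stmt_IndexBound) (h2 : Stmt_Index2) : Stmt_A := by
  intro ℓ
  obtain ⟨A, b, a, hA, hb, h⟩ := exists_hypA hC hI h2 ℓ
  exact ⟨A, b, a, hA, hb, h ℓ le_rfl⟩

end Pool.Agent.Work.MP_d1e9a6_pr.BlockA
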