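import Pool.Agent.Work.MP_d1e9a6_pr.APhase

/-!
# MP_d1e9a6_pr, Theorem A
-/

set_option autoImplicit false

namespace Pool.Agent.Work.MP_d1e9a6_pr.BlockA

variable {n : ℕ}

/-! ### Base case -/

lemma acyc_zero_of_mem {V : Type} {G : SimpleGraph V} {S : Set V} {v : V} (hv : v ∈ S) :
    Acyc (cl G S) 0 := by
  intro m hm
  have hm0 : m = 0 := Nat.le_zero.mp hm
  subst hm0
  intro z hz
  refine ⟨cone v z, ?_, ?_⟩
  · refine cone_mem_CF hz.1 ?_
    intro l _ hl
    rw [List.length_eq_zero_iff] at hl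
    subst hl
    constructor
    · intro a ha; rw [List.mem_singleton] at ha; rw [ha]; exact hv
    · intro a ha b hb hab
      rw [List.mem_singleton] at ha hb
      exact absurd (ha.trans hb.symm) hab
  · rw [D_cone, hz.2, map_zero, sub_zero]

lemma ExG_none (p : ℝ) (T W : Finset (Fin n)) (h : Disjoint T W) :
    ExG p (fun G => ind (∀ w ∈ W, ¬ ∀ t ∈ T, G.Adj w t)) = (1 - p ^ T.card) ^ W.card := by
  induction W using Finset.induction_on with
  | empty =>
    simp only [Finset.notMem_empty, false_imp_iff, implies_true, Finset.card_empty, pow_zero]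
    have : (fun _ : SimpleGraph (Fin n) => ind True) = fun _ => 1 := by
      funext G; exact ind_true trivial
    rw [this, ExG_const]
  | insert w W hw ih =>
    have hwT : w ∉ T := fun h1 => (Finset.disjoint_left.mp h) h1 (Finset.mem_insert_self w W)
    have hTW : Disjoint T W := h.mono_right (Finset.subset_insert w W)
    have h1 : (fun G : SimpleGraph (Fin n) => ind (∀ w' ∈ insert w W, ¬ ∀ t ∈ T, G.Adj w' t)) =
        fun G => ind (∀ w' ∈ W, ¬ ∀ t ∈ T, G.Adj w' t) +
          (-1) * (ind (∀ t ∈ T, G.Adj w t) * ind (∀ w' ∈ W, ¬ ∀ t ∈ T, G.Adj w' t)) := by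
      funext G
      rw [ind_congr (Finset.forall_mem_insert w W (fun w' => ¬ ∀ t ∈ T, G.Adj w' t)), ind_and,
        ind_not]
      ring
    rw [h1, ExG_add, ExG_mul_left, ExG_star_mul p T hwT, ih hTW, Finset.card_insert_of_notMem hw]
    · ring
    · intro t ht G H
      apply ind_congr
      refine forall₂_congr fun w' hw' => not_congr (forall₂_congr fun t' ht' => ?_)
      have hne : w' ≠ w := fun e => hw (e ▸ hw')
      have hne2 : w' ≠ t := fun e => (Finset.disjoint_left.mp hTW) ht (e ▸ hw')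
      have h3 : ¬ (SimpleGraph.edge w t).Adj w' t' := by
        rw [SimpleGraph.edge_adj]
        rintro ⟨⟨h4, _⟩ | ⟨h4, _⟩, _⟩
        · exact hne h4
        · exact hne2 h4
      rw [mrg_adj]; tauto

lemma base_bound {p : ℝ} (hp0 : 0 ≤ p) (hp1 : p ≤ 1) (T W : Finset (Fin n)) (h : Disjoint T W) :
    PrG n p (fun G => ¬ Acyc (cl G (comN G T W)) 0) ≤
      Real.exp (-(W.card * p ^ T.card)) := by
  have h1 : PrG n p (fun G => ¬ Acyc (cl G (comN G T W)) 0) ≤
      PrG n p (fun G => ∀ w ∈ W, ¬ ∀ t ∈ T, G.Adj w t) := by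
    apply PrG_mono hp0 hp1
    intro G hG w hw hadj
    exact hG (acyc_zero_of_mem (v := w) ⟨hw, fun t ht => (hadj t ht).symm⟩)
  refine h1.trans ?_
  rw [PrG_eq, ExG_none p T W h]
  have h2 : 1 - p ^ T.card ≤ Real.exp (-(p ^ T.card)) := by
    have := Real.add_one_le_exp (-(p ^ T.card))
    linarith
  have h3 : 0 ≤ 1 - p ^ T.card := by
    have := pow_le_one₀ (n := T.card) hp0 hp1
    linarith
  calc (1 - p ^ T.card) ^ W.card ≤ (Real.exp (-(p ^ T.card))) ^ W.card :=
        pow_le_pow_left₀ h3 h2 _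
    _ = _ := by rw [← Real.exp_nat_mul]; congr 1; ring

/-! ### A phase of the exposure -/

lemma Psi_le (hC : Stmt_Count) {p : ℝ} (hp0 : 0 ≤ p) (hp1 : p ≤ 1) {c : ℤ} {m : ℕ}
    {T V1 U0 : Finset (Fin n)}
    (hV1 : V1 ⊆ U0) {E : SimpleGraph (Fin n) → Prop}
    (hE : ∀ G G', Agr G G' (T ∪ U0) → (E G' ↔ E G))
    (hEidx : ∀ G, E G → idx c (cl G (comN G T U0)) (m + 1) ≠ 0) {B : ℝ} (hB0 : 0 ≤ B)
    (hB : ∀ G, E G → Real.log (idx c (cl G (comN G T U0)) (m + 1)) ≤ B)
    (l : List (Fin n)) (hnd : l.Nodup) (hdis : ∀ v ∈ l, v ∉ U0)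
    (hT : ∀ v ∈ l, v ∉ T) (hTU : Disjoint T U0) :
    ExG p (Psi c m T V1 U0 E l) ≤ (1 - p ^ (T.card + (m + 1))) ^ l.length * B := by
  have hq : 0 ≤ 1 - p ^ (T.card + (m + 1)) := by
    have := pow_le_one₀ (n := T.card + (m + 1)) hp0 hp1
    linarith
  induction l with
  | nil =>
    simp only [List.length_nil, pow_zero, one_mul]
    calc ExG p (Psi c m T V1 U0 E []) ≤ ExG p (fun _ : SimpleGraph (Fin n) => B) := by
          apply ExG_mono hp0 hp1
          intro G
          unfold Psi
          by_cases h : E G ∧ GoodL G T V1 U0 m []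
          · rw [ind_true h, one_mul]
            simpa using hB G h.1
          · rw [ind_false h, zero_mul]; exact hB0
      _ = B := ExG_const _ _
  | cons w l ih =>
    have hnd' := List.nodup_cons.mp hnd
    have ih' := ih hnd'.2 (fun v hv => hdis v (List.mem_cons_of_mem _ hv))
      (fun v hv => hT v (List.mem_cons_of_mem _ hv))
    have hstep := Psi_step hC hp0 hp1 hV1 hE hEidx w l hnd hdis (hT w List.mem_cons_self)
      (by
        intro t ht hmem
        rw [Finset.mem_union, List.mem_toFinset] at hmem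
        rcases hmem with h1 | h1
        · exact Finset.disjoint_left.mp hTU ht h1
        · exact hT t (List.mem_cons_of_mem _ h1) ht)
    calc _ ≤ (1 - p ^ (T.card + (m + 1))) * ExG p (Psi c m T V1 U0 E l) := hstep
      _ ≤ (1 - p ^ (T.card + (m + 1))) * ((1 - p ^ (T.card + (m + 1))) ^ l.length * B) :=
          mul_le_mul_of_nonneg_left ih' hq
      _ = _ := by rw [List.length_cons, pow_succ]; ring

lemma phase (hC : Stmt_Count) {p : ℝ} (hp0 : 0 ≤ p) (hp1 : p ≤ 1) {c : ℤ} {m : ℕ}
    {T V1 U0 : Finset (Fin n)}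
    (hV1 : V1 ⊆ U0) {E : SimpleGraph (Fin n) → Prop}
    (hE : ∀ G G', Agr G G' (T ∪ U0) → (E G' ↔ E G))
    (hEidx : ∀ G, E G → idx c (cl G (comN G T U0)) (m + 1) ≠ 0) {B : ℝ} (hB0 : 0 ≤ B)
    (hB : ∀ G, E G → Real.log (idx c (cl G (comN G T U0)) (m + 1)) ≤ B)
    (l : List (Fin n)) (hnd : l.Nodup) (hdis : ∀ v ∈ l, v ∉ U0)
    (hT : ∀ v ∈ l, v ∉ T) (hTU : Disjoint T U0) {M : ℕ} (hM : M ≤ l.length) :
    PrG n p (fun G => E G ∧ GoodL G T V1 U0 m l ∧
      idx c (cl G (comN G T (U0 ∪ l.toFinset))) (m + 1) ≠ 1) ≤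
      B / Real.log 2 * Real.exp (-(M * p ^ (T.card + (m + 1)))) := by
  have hlog2 : 0 < Real.log 2 := Real.log_pos (by norm_num)
  have hq1 : p ^ (T.card + (m + 1)) ≤ 1 := pow_le_one₀ hp0 hp1
  have hq0 : 0 ≤ p ^ (T.card + (m + 1)) := pow_nonneg hp0 _
  have h1 : PrG n p (fun G => E G ∧ GoodL G T V1 U0 m l ∧
      idx c (cl G (comN G T (U0 ∪ l.toFinset))) (m + 1) ≠ 1) ≤
      PrG n p (fun G => Real.log 2 ≤ Psi c m T V1 U0 E l G) := by
    apply PrG_mono hp0 hp1
    rintro G ⟨hEG, hgood, hne⟩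
    have hidx := idx_ne_zero hC hV1 (hEidx G hEG) l hnd hdis hgood
    unfold Psi
    rw [ind_true ⟨hEG, hgood⟩, one_mul]
    apply Real.log_le_log (by norm_num)
    have : 2 ≤ idx c (cl G (comN G T (U0 ∪ l.toFinset))) (m + 1) := by omega
    exact_mod_cast this
  refine h1.trans ((PrG_markov hp0 hp1 hlog2 (fun G => Psi_nonneg _ _ _ _ _ _ _ G)).trans ?_)
  rw [div_mul_eq_mul_div]
  apply div_le_div_of_nonneg_right _ hlog2.le
  refine (Psi_le hC hp0 hp1 hV1 hE hEidx hB0 hB l hnd hdis hT hTU).trans ?_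
  rw [mul_comm B]
  apply mul_le_mul_of_nonneg_right _ hB0
  have h2 : 1 - p ^ (T.card + (m + 1)) ≤ Real.exp (-(p ^ (T.card + (m + 1)))) := by
    have := Real.add_one_le_exp (-(p ^ (T.card + (m + 1))))
    linarith
  calc (1 - p ^ (T.card + (m + 1))) ^ l.length ≤ (1 - p ^ (T.card + (m + 1))) ^ M :=
        pow_le_pow_of_le_one (by linarith) (by linarith) hM
    _ ≤ (Real.exp (-(p ^ (T.card + (m + 1))))) ^ M := pow_le_pow_left₀ (by linarith) h2 _
    _ = _ := by rw [← Real.exp_nat_mul]; congr 1; ring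

/-! ### Probability of a bad step -/

/-- the inductive hypothesis -/
def HypA (A b : ℝ) (a m : ℕ) : Prop :=
  ∀ ℓ ≤ m, ∀ (n : ℕ) (p : ℝ), 0 ≤ p → p ≤ 1 → ∀ T W : Finset (Fin n), Disjoint T W →
    PrG n p (fun G => ¬ Acyc (cl G (comN G T W)) ℓ) ≤
      A * (n + 1 : ℝ) ^ a * Real.exp (-(b * W.card * p ^ (T.card + ℓ)))

lemma HypA.le {A b : ℝ} {a m : ℕ} (h : HypA A b a m) (hA : 0 < A) (hb : 0 < b) {ℓ : ℕ}
    (hℓ : ℓ ≤ m) {p : ℝ} (hp0 : 0 ≤ p) (hp1 : p ≤ 1) {T W : Finset (Fin n)} (hd : Disjoint T W)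
    {M e : ℕ} (hM : M ≤ W.card) (he : T.card + ℓ = e) :
    PrG n p (fun G => ¬ Acyc (cl G (comN G T W)) ℓ) ≤
      A * (n + 1 : ℝ) ^ a * Real.exp (-(b * M * p ^ e)) := by
  refine (h ℓ hℓ n p hp0 hp1 T W hd).trans ?_
  rw [he]
  have h1 : (0 : ℝ) ≤ A * (n + 1 : ℝ) ^ a := by positivity
  apply mul_le_mul_of_nonneg_left _ h1
  rw [Real.exp_le_exp]
  have h2 : (M : ℝ) ≤ W.card := by exact_mod_cast hM
  have h3 : 0 ≤ p ^ e := pow_nonneg hp0 _
  have h4 : b * M * p ^ e ≤ b * W.card * p ^ e := by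
    apply mul_le_mul_of_nonneg_right _ h3
    exact mul_le_mul_of_nonneg_left h2 hb.le
  linarith

open Classical in
lemma card_small_subsets (n m : ℕ) :
    (((Finset.univ : Finset (Finset (Fin n)))).filter (fun τ => τ.card ≤ m)).card ≤
      (n + 1) ^ m := by
  have hsurj : ∀ τ ∈ ((Finset.univ : Finset (Finset (Fin n)))).filter (fun τ => τ.card ≤ m),
      ∃ f : Fin m → Option (Fin n),
        (Finset.univ.image f).filter (fun x => x ≠ none) = τ.image some := by
    intro τ hτ
    rw [Finset.mem_filter] at hτ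
    refine ⟨fun i => τ.toList[(i : ℕ)]?, ?_⟩
    ext x
    simp only [Finset.mem_filter, Finset.mem_image, Finset.mem_univ, true_and]
    constructor
    · rintro ⟨⟨i, hi⟩, hx⟩
      obtain ⟨y, rfl⟩ := Option.ne_none_iff_exists'.mp hx
      rw [List.getElem?_eq_some_iff] at hi
      obtain ⟨h1, h2⟩ := hi
      refine ⟨y, ?_, rfl⟩
      rw [← h2]
      exact Finset.mem_toList.mp (List.getElem_mem h1)
    · rintro ⟨y, hy, rfl⟩
      refine ⟨?_, by simp⟩
      rw [← Finset.mem_toList] at hy
      obtain ⟨i, hi, hiy⟩ := List.getElem_of_mem hy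
      have hlen : τ.toList.length ≤ m := by rw [Finset.length_toList]; exact hτ.2
      refine ⟨⟨i, by omega⟩, ?_⟩
      rw [List.getElem?_eq_some_iff]
      exact ⟨hi, hiy⟩
  choose! f hf using hsurj
  have hcard : (Finset.univ : Finset (Fin m → Option (Fin n))).card = (n + 1) ^ m := by
    simp [Fintype.card_option]
  rw [← hcard]
  apply Finset.card_le_card_of_injOn f
  · intro τ _; exact Finset.mem_coe.mpr (Finset.mem_univ _)
  · intro τ hτ τ' hτ' h
    have h1 := hf τ hτ
    have h2 := hf τ' hτ'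
    rw [h] at h1
    have h3 := h1.symm.trans h2
    exact Finset.image_injective (Option.some_injective _) h3

lemma PrG_not_stepBC {A b : ℝ} {a m : ℕ} (hA : 0 < A) (hb : 0 < b) (hyp : HypA A b a m)
    {p : ℝ} (hp0 : 0 ≤ p) (hp1 : p ≤ 1) {T V1 U : Finset (Fin n)} {w : Fin n} (hV1 : V1 ⊆ U)
    (hwU : w ∉ U) (hwT : w ∉ T) (hTU : Disjoint T U) {M : ℕ} (hM1 : M ≤ V1.card)
    (hM2 : M ≤ (U \ V1).card) :
    PrG n p (fun G => ¬ StepBC G T V1 U m w) ≤
      ((n + 1 : ℝ) + (n + 1 : ℝ) ^ m) *
        (A * (n + 1 : ℝ) ^ a * Real.exp (-(b * M * p ^ (T.card + (m + 1))))) := by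
  classical
  set Q := A * (n + 1 : ℝ) ^ a * Real.exp (-(b * M * p ^ (T.card + (m + 1)))) with hQ
  have hQ0 : 0 ≤ Q := by positivity
  set P1 : List (Fin n) → SimpleGraph (Fin n) → Prop := fun s G =>
    match s with
    | [] => False
    | u :: l' => ¬ Acyc (cl G (comN G (insert u T) ((U \ V1) ∪ l'.toFinset))) m with hP1
  set P2 : Finset (Fin n) → SimpleGraph (Fin n) → Prop := fun τ G =>
    τ ⊆ U \ V1 ∧ ¬ Acyc (cl G (comN G (insert w T ∪ τ) V1)) (m - τ.card) with hP2
  set s1 := V1.toList.tails.toFinset with hs1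
  set s2 := ((Finset.univ : Finset (Finset (Fin n)))).filter (fun τ => τ.card ≤ m) with hs2
  have h1 : PrG n p (fun G => ¬ StepBC G T V1 U m w) ≤
      PrG n p (fun G => (∃ s ∈ s1, P1 s G) ∨ (∃ τ ∈ s2, P2 τ G)) := by
    apply PrG_mono hp0 hp1
    intro G hG
    by_contra hcon
    push Not at hcon
    obtain ⟨hc1, hc2⟩ := hcon
    apply hG
    refine StepBC_of hV1 ?_ ?_
    · intro u l' hs
      have := hc1 (u :: l') (by rw [hs1, List.mem_toFinset, List.mem_tails]; exact hs)
      simpa [hP1] using this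
    · intro τ hτ hcard
      have := hc2 τ (by rw [hs2, Finset.mem_filter]; exact ⟨Finset.mem_univ _, hcard⟩)
      by_contra hcon
      exact this ⟨hτ, hcon⟩
  refine h1.trans ((PrG_or_le hp0 hp1 _ _).trans ?_)
  rw [add_mul]
  apply add_le_add
  · refine (PrG_exists_le hp0 hp1 s1 P1).trans ?_
    have hbound : ∀ s ∈ s1, PrG n p (P1 s) ≤ Q := by
      intro s hs
      cases s with
      | nil =>
        have : PrG n p (P1 []) = 0 := by
          rw [PrG_eq]
          have : (fun G : SimpleGraph (Fin n) => ind (P1 [] G)) = fun _ => 0 := by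
            funext G; exact ind_false (by simp [hP1])
          rw [this, ExG_const]
        rw [this]; exact hQ0
      | cons u l' =>
        rw [hs1, List.mem_toFinset, List.mem_tails] at hs
        have huV1 : u ∈ V1 := by
          rw [← Finset.mem_toList]; exact hs.subset List.mem_cons_self
        have hnd : (u :: l').Nodup := (Finset.nodup_toList V1).sublist hs.sublist
        have huT : u ∉ T := fun h => Finset.disjoint_left.mp hTU h (hV1 huV1)
        have hl'V1 : ∀ v ∈ l', v ∈ V1 := fun v hv => by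
          rw [← Finset.mem_toList]; exact hs.subset (List.mem_cons_of_mem _ hv)
        refine hyp.le hA hb le_rfl hp0 hp1 ?_ ?_ ?_
        · rw [Finset.disjoint_left]
          intro v hv hv2
          rw [Finset.mem_union, List.mem_toFinset] at hv2
          rcases Finset.mem_insert.mp hv with rfl | hv
          · rcases hv2 with h | h
            · exact (Finset.mem_sdiff.mp h).2 huV1
            · exact (List.nodup_cons.mp hnd).1 h
          · rcases hv2 with h | h
            · exact Finset.disjoint_left.mp hTU hv (Finset.sdiff_subset h)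
            · exact Finset.disjoint_left.mp hTU hv (hV1 (hl'V1 v h))
        · exact hM2.trans (Finset.card_le_card Finset.subset_union_left)
        · rw [Finset.card_insert_of_notMem huT]; ring
    calc ∑ s ∈ s1, PrG n p (P1 s) ≤ ∑ _s ∈ s1, Q := Finset.sum_le_sum hbound
      _ = s1.card * Q := by rw [Finset.sum_const, nsmul_eq_mul]
      _ ≤ (n + 1 : ℝ) * Q := by
          apply mul_le_mul_of_nonneg_right _ hQ0
          have h2 : s1.card ≤ n + 1 := by
            rw [hs1]
            refine (List.toFinset_card_le _).trans ?_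
            rw [List.length_tails, Finset.length_toList]
            have : V1.card ≤ n := by simpa using Finset.card_le_univ V1
            omega
          exact_mod_cast h2
  · refine (PrG_exists_le hp0 hp1 s2 P2).trans ?_
    have hbound : ∀ τ ∈ s2, PrG n p (P2 τ) ≤ Q := by
      intro τ hτ
      rw [hs2, Finset.mem_filter] at hτ
      by_cases hsub : τ ⊆ U \ V1
      · have h3 : PrG n p (P2 τ) ≤
            PrG n p (fun G => ¬ Acyc (cl G (comN G (insert w T ∪ τ) V1)) (m - τ.card)) :=
          PrG_mono hp0 hp1 fun G h => h.2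
        refine h3.trans ?_
        refine hyp.le hA hb (Nat.sub_le _ _) hp0 hp1 ?_ hM1 ?_
        · rw [Finset.disjoint_left]
          intro v hv hv2
          rcases Finset.mem_union.mp hv with hv | hv
          · rcases Finset.mem_insert.mp hv with rfl | hv
            · exact hwU (hV1 hv2)
            · exact Finset.disjoint_left.mp hTU hv (hV1 hv2)
          · exact (Finset.mem_sdiff.mp (hsub hv)).2 hv2
        · rw [Finset.card_union_of_disjoint, Finset.card_insert_of_notMem hwT]
          · have := hτ.2; omega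
          · rw [Finset.disjoint_left]
            intro v hv hv2
            have hvU := Finset.sdiff_subset (hsub hv2)
            rcases Finset.mem_insert.mp hv with rfl | hv
            · exact hwU hvU
            · exact Finset.disjoint_left.mp hTU hv hvU
      · have : PrG n p (P2 τ) = 0 := by
          rw [PrG_eq]
          have : (fun G : SimpleGraph (Fin n) => ind (P2 τ G)) = fun _ => 0 := by
            funext G; exact ind_false (fun h => hsub h.1)
          rw [this, ExG_const]
        rw [this]; exact hQ0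
    calc ∑ τ ∈ s2, PrG n p (P2 τ) ≤ ∑ _s ∈ s2, Q := Finset.sum_le_sum hbound
      _ = s2.card * Q := by rw [Finset.sum_const, nsmul_eq_mul]
      _ ≤ (n + 1 : ℝ) ^ m * Q := by
          apply mul_le_mul_of_nonneg_right _ hQ0
          exact_mod_cast card_small_subsets n m

lemma PrG_not_goodL {A b : ℝ} {a m : ℕ} (hA : 0 < A) (hb : 0 < b) (hyp : HypA A b a m)
    {p : ℝ} (hp0 : 0 ≤ p) (hp1 : p ≤ 1) {T V1 U0 : Finset (Fin n)} (hV1 : V1 ⊆ U0)
    {M : ℕ} (hM1 : M ≤ V1.card) (hM2 : M ≤ (U0 \ V1).card)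
    (l : List (Fin n)) (hnd : l.Nodup) (hdis : ∀ v ∈ l, v ∉ U0)
    (hT : ∀ v ∈ l, v ∉ T) (hTU : Disjoint T U0) :
    PrG n p (fun G => ¬ GoodL G T V1 U0 m l) ≤
      l.length * ((1 + ((n + 1 : ℝ) + (n + 1 : ℝ) ^ m)) *
        (A * (n + 1 : ℝ) ^ a * Real.exp (-(b * M * p ^ (T.card + (m + 1)))))) := by
  set Q := A * (n + 1 : ℝ) ^ a * Real.exp (-(b * M * p ^ (T.card + (m + 1)))) with hQ
  induction l with
  | nil =>
    have : PrG n p (fun G => ¬ GoodL G T V1 U0 m []) = 0 := by
      rw [PrG_eq]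
      have : (fun G : SimpleGraph (Fin n) => ind (¬ GoodL G T V1 U0 m [])) = fun _ => 0 := by
        funext G; exact ind_false (by simp [GoodL])
      rw [this, ExG_const]
    rw [this]; simp
  | cons w l ih =>
    have hnd' := List.nodup_cons.mp hnd
    have ih' := ih hnd'.2 (fun v hv => hdis v (List.mem_cons_of_mem _ hv))
      (fun v hv => hT v (List.mem_cons_of_mem _ hv))
    set U := U0 ∪ l.toFinset with hU
    have hwU : w ∉ U := by
      rw [hU, Finset.mem_union, List.mem_toFinset]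
      rintro (h1 | h1)
      · exact hdis w List.mem_cons_self h1
      · exact hnd'.1 h1
    have hTU' : Disjoint T U := by
      rw [hU, Finset.disjoint_left]
      intro t ht hmem
      rw [Finset.mem_union, List.mem_toFinset] at hmem
      rcases hmem with h1 | h1
      · exact Finset.disjoint_left.mp hTU ht h1
      · exact hT t (List.mem_cons_of_mem _ h1) ht
    have hwT : w ∉ T := hT w List.mem_cons_self
    have hV1U : V1 ⊆ U := hV1.trans Finset.subset_union_left
    have hUV : U0 \ V1 ⊆ U \ V1 := Finset.sdiff_subset_sdiff Finset.subset_union_left subset_rfl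
    have h1 : PrG n p (fun G => ¬ StepA G T U m w) ≤ Q := by
      have h2 : PrG n p (fun G => ¬ StepA G T U m w) ≤
          PrG n p (fun G => ¬ Acyc (cl G (comN G (insert w T) U)) m) :=
        PrG_mono hp0 hp1 fun G h h' => h (StepA_of h')
      refine h2.trans (hyp.le hA hb le_rfl hp0 hp1 ?_ ?_ ?_)
      · rw [Finset.disjoint_insert_left]; exact ⟨hwU, hTU'⟩
      · exact (hM2.trans (Finset.card_le_card hUV)).trans (Finset.card_le_card Finset.sdiff_subset)
      · rw [Finset.card_insert_of_notMem hwT]; ring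
    have h2 := PrG_not_stepBC hA hb hyp hp0 hp1 (w := w) hV1U hwU hwT hTU' hM1
      (hM2.trans (Finset.card_le_card hUV))
    have h3 : PrG n p (fun G => ¬ GoodL G T V1 U0 m (w :: l)) ≤
        PrG n p (fun G => ¬ GoodL G T V1 U0 m l) +
          (PrG n p (fun G => ¬ StepA G T U m w) + PrG n p (fun G => ¬ StepBC G T V1 U m w)) := by
      refine le_trans ?_ ((PrG_or_le hp0 hp1 _ _).trans
        (add_le_add le_rfl (PrG_or_le hp0 hp1 _ _)))
      apply PrG_mono hp0 hp1
      intro G hG
      unfold GoodL at hG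
      tauto
    refine h3.trans ?_
    rw [List.length_cons]
    push_cast
    rw [add_mul, one_mul]
    refine add_le_add ih' ?_
    rw [add_mul, one_mul]
    exact add_le_add h1 h2

end Pool.Agent.Work.MP_d1e9a6_pr.BlockA
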