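import Pool.Agent.Work.MP_d1e9a6_pr.ACombi

/-!
# MP_d1e9a6_pr, Theorem A: decay of the expected logarithm of the homology group
-/

set_option autoImplicit false

namespace Pool.Agent.Work.MP_d1e9a6_pr.BlockA

section Step

variable {V : Type} [DecidableEq V] [Fintype V]

lemma step_cor (hC : Stmt_Count) {G : SimpleGraph V} {T V1 U : Finset V} (c : ℤ) {m : ℕ} {w : V}
    (hV1 : V1 ⊆ U) (hwU : w ∉ U) (hBC : StepBC G T V1 U m w)
    (hidx : idx c (cl G (comN G T U)) (m + 1) ≠ 0) :
    ∃ wt : List V → ℝ, (∀ l, 0 ≤ wt l) ∧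
      ∑ l ∈ clLists G (comN G T (U \ V1)) (m + 1), wt l ≤
        Real.log (idx c (cl G (comN G T U)) (m + 1)) ∧
      ∀ G' : SimpleGraph V, Agr G G' (T ∪ U) → (∀ v ∈ V1, (G'.Adj w v ↔ G.Adj w v)) →
        (∀ t ∈ T, G'.Adj w t) → StepA G' T U m w →
        idx c (cl G' (comN G' T (insert w U))) (m + 1) ≠ 0 ∧
        Real.log (idx c (cl G' (comN G' T (insert w U))) (m + 1)) ≤
          ∑ l ∈ clLists G (comN G T (U \ V1)) (m + 1), wt l * ind (¬ ∀ v ∈ l, G'.Adj w v) := by
  classical
  have hT : T ⊆ T ∪ U := Finset.subset_union_left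
  have hU : U ⊆ T ∪ U := Finset.subset_union_right
  obtain ⟨hb, hκ, hac⟩ := hBC
  have hκS : comN G (insert w T) V1 ⊆ comN G T U := by
    intro v hv
    exact ⟨hV1 hv.1, fun t ht => hv.2 t (Finset.mem_insert_of_mem ht)⟩
  have hS2S : comN G T (U \ V1) ⊆ comN G T U := comN_mono Finset.sdiff_subset
  obtain ⟨wt, h0, hsum, hstep⟩ := step_det hC c hκS hS2S hb hκ hac hidx
  refine ⟨wt, h0, hsum, ?_⟩
  intro G' hAg hV hT' hA
  have e1 : comN G' T U = comN G T U := hAg.comN_eq hT hU
  have e2 : comN G' T (insert w U) = insert w (comN G T U) := by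
    rw [comN_insert_of hT', e1]
  have hw : w ∉ comN G T U := fun h => hwU h.1
  have h1 := hstep G' w hw (fun a ha b hb => hAg a (hU ha.1) b (hU hb.1))
    (fun v hv => (hV v hv.1).mpr (hv.2 w (Finset.mem_insert_self w T)))
    (by unfold StepA at hA; rw [e1] at hA; exact hA)
  rw [e2]
  refine ⟨h1.1, h1.2.trans (le_of_eq ?_)⟩
  rw [Finset.sum_filter]
  apply Finset.sum_congr rfl
  intro l _
  by_cases h : ∀ v ∈ l, G'.Adj w v
  · rw [if_neg (not_not.mpr h), ind_false (not_not.mpr h), mul_zero]
  · rw [if_pos h, ind_true h, mul_one]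

end Step

variable {n : ℕ}

/-- the star at `w` with leaves `V2` -/
def starG (w : Fin n) (V2 : Finset (Fin n)) (hw : w ∉ V2) : SimpleGraph (Fin n) where
  Adj a b := (a = w ∧ b ∈ V2) ∨ (b = w ∧ a ∈ V2)
  symm := ⟨fun a b h => h.symm⟩
  loopless := ⟨by
    rintro a (⟨h1, h2⟩ | ⟨h1, h2⟩) <;> exact hw (h1 ▸ h2)⟩

/-- the potential -/
noncomputable def Psi (c : ℤ) (m : ℕ) (T V1 U0 : Finset (Fin n))
    (E : SimpleGraph (Fin n) → Prop) (l : List (Fin n)) (G : SimpleGraph (Fin n)) : ℝ :=
  ind (E G ∧ GoodL G T V1 U0 m l) *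
    Real.log (idx c (cl G (comN G T (U0 ∪ l.toFinset))) (m + 1))

lemma Psi_nonneg (c : ℤ) (m : ℕ) (T V1 U0 : Finset (Fin n))
    (E : SimpleGraph (Fin n) → Prop) (l : List (Fin n)) (G : SimpleGraph (Fin n)) :
    0 ≤ Psi c m T V1 U0 E l G :=
  mul_nonneg (ind_nonneg _) (Real.log_natCast_nonneg _)

lemma Psi_congr {c : ℤ} {m : ℕ} {T V1 U0 : Finset (Fin n)} (hV1 : V1 ⊆ U0)
    {E : SimpleGraph (Fin n) → Prop} (hE : ∀ G G', Agr G G' (T ∪ U0) → (E G' ↔ E G))
    {l : List (Fin n)} {G G' : SimpleGraph (Fin n)}
    (h : Agr G G' (T ∪ (U0 ∪ l.toFinset))) :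
    Psi c m T V1 U0 E l G' = Psi c m T V1 U0 E l G := by
  unfold Psi
  have h1 : comN G' T (U0 ∪ l.toFinset) = comN G T (U0 ∪ l.toFinset) :=
    h.comN_eq Finset.subset_union_left Finset.subset_union_right
  have h2 : cl G' (comN G T (U0 ∪ l.toFinset)) = cl G (comN G T (U0 ∪ l.toFinset)) :=
    h.cl_eq (comN_subset.trans (Finset.coe_subset.mpr Finset.subset_union_right))
  rw [h1, h2]
  congr 1
  apply ind_congr
  rw [h.goodL hV1 l, hE G G' (h.mono (Finset.union_subset_union_right Finset.subset_union_left))]

/-- the index stays nonzero along good steps -/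
lemma idx_ne_zero (hC : Stmt_Count) {c : ℤ} {m : ℕ} {T V1 U0 : Finset (Fin n)} (hV1 : V1 ⊆ U0)
    {G : SimpleGraph (Fin n)} (hG : idx c (cl G (comN G T U0)) (m + 1) ≠ 0)
    (l : List (Fin n)) (hnd : l.Nodup) (hdis : ∀ v ∈ l, v ∉ U0)
    (hgood : GoodL G T V1 U0 m l) :
    idx c (cl G (comN G T (U0 ∪ l.toFinset))) (m + 1) ≠ 0 := by
  induction l with
  | nil => simpa using hG
  | cons w l ih =>
    have hnd' := List.nodup_cons.mp hnd
    obtain ⟨hg1, hA, hBC⟩ := hgood
    have ih' := ih hnd'.2 (fun v hv => hdis v (List.mem_cons_of_mem _ hv)) hg1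
    have hU : U0 ∪ (w :: l).toFinset = insert w (U0 ∪ l.toFinset) := by
      rw [List.toFinset_cons, Finset.union_insert]
    rw [hU]
    by_cases hw : ∀ t ∈ T, G.Adj w t
    · have hwU : w ∉ U0 ∪ l.toFinset := by
        rw [Finset.mem_union, List.mem_toFinset]
        rintro (h1 | h1)
        · exact hdis w List.mem_cons_self h1
        · exact hnd'.1 h1
      obtain ⟨wt, _, _, h⟩ := step_cor hC c (hV1.trans Finset.subset_union_left) hwU hBC ih'
      exact (h G (fun _ _ _ _ => Iff.rfl) (fun _ _ => Iff.rfl) hw hA).1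
    · rw [comN_insert_of_not hw]
      exact ih'

lemma Psi_step (hC : Stmt_Count) {p : ℝ} (hp0 : 0 ≤ p) (hp1 : p ≤ 1) {c : ℤ} {m : ℕ}
    {T V1 U0 : Finset (Fin n)}
    (hV1 : V1 ⊆ U0) {E : SimpleGraph (Fin n) → Prop}
    (hE : ∀ G G', Agr G G' (T ∪ U0) → (E G' ↔ E G))
    (hEidx : ∀ G, E G → idx c (cl G (comN G T U0)) (m + 1) ≠ 0)
    (w : Fin n) (l : List (Fin n)) (hnd : (w :: l).Nodup) (hdis : ∀ v ∈ w :: l, v ∉ U0)
    (hT : w ∉ T) (hTd : ∀ t ∈ T, t ∉ U0 ∪ l.toFinset) :
    ExG p (Psi c m T V1 U0 E (w :: l)) ≤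
      (1 - p ^ (T.card + (m + 1))) * ExG p (Psi c m T V1 U0 E l) := by
  classical
  have hnd' := List.nodup_cons.mp hnd
  set U := U0 ∪ l.toFinset with hUdef
  have hU : U0 ∪ (w :: l).toFinset = insert w U := by
    rw [List.toFinset_cons, Finset.union_insert]
  have hV1U : V1 ⊆ U := hV1.trans Finset.subset_union_left
  have hwU : w ∉ U := by
    rw [hUdef, Finset.mem_union, List.mem_toFinset]
    rintro (h1 | h1)
    · exact hdis w List.mem_cons_self h1
    · exact hnd'.1 h1
  have hwV2 : w ∉ U \ V1 := fun h => hwU (Finset.sdiff_subset h)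
  set A := starG w (U \ V1) hwV2 with hA
  have hAadj : ∀ a b, A.Adj a b ↔ (a = w ∧ b ∈ U \ V1) ∨ (b = w ∧ a ∈ U \ V1) := fun _ _ => Iff.rfl
  -- pointwise inequality
  have key : ∀ G, ExG p (fun H => Psi c m T V1 U0 E (w :: l) (mrg A G H)) ≤
      Psi c m T V1 U0 E l G +
        (-(p ^ (m + 1))) * (ind (∀ t ∈ T, G.Adj w t) * Psi c m T V1 U0 E l G) := by
    intro G
    have hAgr : ∀ H, Agr G (mrg A G H) (T ∪ U) := by
      intro H a ha b hb
      have h1 : ¬ A.Adj a b := by
        rw [hAadj]
        rintro (⟨h1, _⟩ | ⟨h1, _⟩)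
        · subst h1
          rcases Finset.mem_union.mp ha with h2 | h2
          · exact hT h2
          · exact hwU h2
        · subst h1
          rcases Finset.mem_union.mp hb with h2 | h2
          · exact hT h2
          · exact hwU h2
      rw [mrg_adj]; tauto
    have hwT : ∀ H, ∀ t ∈ T, ((mrg A G H).Adj w t ↔ G.Adj w t) := by
      intro H t ht
      have h1 : ¬ A.Adj w t := by
        rw [hAadj]
        rintro (⟨_, h1⟩ | ⟨h1, _⟩)
        · exact hTd t ht (Finset.sdiff_subset h1)
        · exact hT (h1 ▸ ht)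
      rw [mrg_adj]; tauto
    have hwV1 : ∀ H, ∀ v ∈ V1, ((mrg A G H).Adj w v ↔ G.Adj w v) := by
      intro H v hv
      have h1 : ¬ A.Adj w v := by
        rw [hAadj]
        rintro (⟨_, h1⟩ | ⟨h1, _⟩)
        · rw [Finset.mem_sdiff] at h1; exact h1.2 hv
        · exact hwU (h1 ▸ hV1U hv)
      rw [mrg_adj]; tauto
    have hwV2' : ∀ H, ∀ v ∈ U \ V1, ((mrg A G H).Adj w v ↔ H.Adj w v) := by
      intro H v hv
      have h1 : A.Adj w v := by
        rw [hAadj]; exact Or.inl ⟨rfl, hv⟩
      rw [mrg_adj]; tauto
    by_cases hgood : E G ∧ GoodL G T V1 U0 m l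
    · have hidx := idx_ne_zero hC hV1 (hEidx G hgood.1) l hnd'.2
        (fun v hv => hdis v (List.mem_cons_of_mem _ hv)) hgood.2
      rw [← hUdef] at hidx
      have hPsi : Psi c m T V1 U0 E l G = Real.log (idx c (cl G (comN G T U)) (m + 1)) := by
        unfold Psi
        rw [ind_true hgood, one_mul]
      by_cases hadj : ∀ t ∈ T, G.Adj w t
      · rw [ind_true hadj, one_mul, hPsi]
        by_cases hBC : StepBC G T V1 U m w
        · obtain ⟨wt, hwt0, hwtsum, hwt⟩ := step_cor hC c hV1U hwU hBC hidx
          have hbound : ∀ H, Psi c m T V1 U0 E (w :: l) (mrg A G H) ≤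
              ∑ l' ∈ clLists G (comN G T (U \ V1)) (m + 1), wt l' * ind (¬ ∀ v ∈ l', H.Adj w v) := by
            intro H
            unfold Psi
            by_cases h2 : E (mrg A G H) ∧ GoodL (mrg A G H) T V1 U0 m (w :: l)
            · rw [ind_true h2, one_mul, hU]
              obtain ⟨_, _, hSA, _⟩ := h2
              have h3 := (hwt (mrg A G H) (hAgr H) (hwV1 H)
                (fun t ht => (hwT H t ht).mpr (hadj t ht)) hSA).2
              refine h3.trans (le_of_eq ?_)
              apply Finset.sum_congr rfl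
              intro l' hl'
              rw [mem_clLists] at hl'
              congr 1
              apply ind_congr
              rw [not_iff_not]
              refine forall₂_congr fun v hv => ?_
              exact hwV2' H v (hl'.2.1 v hv).1
            · rw [ind_false h2, zero_mul]
              exact Finset.sum_nonneg fun l' _ => mul_nonneg (hwt0 l') (ind_nonneg _)
          calc ExG p (fun H => Psi c m T V1 U0 E (w :: l) (mrg A G H))
              ≤ ExG p (fun H => ∑ l' ∈ clLists G (comN G T (U \ V1)) (m + 1),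
                  wt l' * ind (¬ ∀ v ∈ l', H.Adj w v)) := ExG_mono hp0 hp1 hbound
            _ = ∑ l' ∈ clLists G (comN G T (U \ V1)) (m + 1),
                  wt l' * (1 - p ^ l'.toFinset.card) := by
                rw [ExG_sum]
                apply Finset.sum_congr rfl
                intro l' hl'
                rw [mem_clLists] at hl'
                rw [ExG_mul_left, ← PrG_eq, PrG_compl]
                congr 2
                have hwl : w ∉ l'.toFinset := by
                  intro h
                  rw [List.mem_toFinset] at h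
                  exact hwV2 (hl'.2.1 w h).1
                have := PrG_star p l'.toFinset hwl
                simp only [List.mem_toFinset] at this
                exact this
            _ ≤ ∑ l' ∈ clLists G (comN G T (U \ V1)) (m + 1), wt l' * (1 - p ^ (m + 1)) := by
                apply Finset.sum_le_sum
                intro l' hl'
                rw [mem_clLists] at hl'
                apply mul_le_mul_of_nonneg_left _ (hwt0 l')
                have : p ^ (m + 1) ≤ p ^ l'.toFinset.card := by
                  apply pow_le_pow_of_le_one hp0 hp1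
                  rw [← hl'.1]
                  exact List.toFinset_card_le l'
                linarith
            _ ≤ _ := by
                rw [← Finset.sum_mul]
                have h1 : 0 ≤ 1 - p ^ (m + 1) := by
                  have := pow_le_one₀ (n := m + 1) hp0 hp1
                  linarith
                have := mul_le_mul_of_nonneg_right hwtsum h1
                linarith
        · -- the step is never good
          have hzero : ∀ H, Psi c m T V1 U0 E (w :: l) (mrg A G H) = 0 := by
            intro H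
            unfold Psi
            rw [ind_false, zero_mul]
            rintro ⟨_, _, _, h3⟩
            exact hBC (((hAgr H).stepBC hV1U (hwV1 H)).mp h3)
          simp only [hzero]
          rw [ExG_const]
          have h1 : 0 ≤ 1 - p ^ (m + 1) := by
            have := pow_le_one₀ (n := m + 1) hp0 hp1
            linarith
          have h2 : 0 ≤ Real.log (idx c (cl G (comN G T U)) (m + 1)) :=
            Real.log_natCast_nonneg _
          nlinarith [mul_nonneg h1 h2]
      · rw [ind_false hadj, zero_mul, mul_zero, add_zero, hPsi]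
        have hbound : ∀ H, Psi c m T V1 U0 E (w :: l) (mrg A G H) ≤
            Real.log (idx c (cl G (comN G T U)) (m + 1)) := by
          intro H
          unfold Psi
          have hno : ¬ ∀ t ∈ T, (mrg A G H).Adj w t := fun h =>
            hadj fun t ht => (hwT H t ht).mp (h t ht)
          rw [hU, comN_insert_of_not hno,
            (hAgr H).comN_eq Finset.subset_union_left Finset.subset_union_right,
            (hAgr H).cl_eq (S := comN G T U)
              (comN_subset.trans (Finset.coe_subset.mpr Finset.subset_union_right))]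
          have := ind_le_one (E (mrg A G H) ∧ GoodL (mrg A G H) T V1 U0 m (w :: l))
          have h2 : 0 ≤ Real.log (idx c (cl G (comN G T U)) (m + 1)) :=
            Real.log_natCast_nonneg _
          calc _ ≤ 1 * Real.log (idx c (cl G (comN G T U)) (m + 1)) :=
                mul_le_mul_of_nonneg_right this h2
            _ = _ := one_mul _
        calc _ ≤ ExG p (fun _ => Real.log (idx c (cl G (comN G T U)) (m + 1))) :=
              ExG_mono hp0 hp1 hbound
          _ = _ := ExG_const _ _
    · -- not good before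
      have hzero : ∀ H, Psi c m T V1 U0 E (w :: l) (mrg A G H) = 0 := by
        intro H
        unfold Psi
        rw [ind_false, zero_mul]
        rintro ⟨h1, h2, _, _⟩
        apply hgood
        refine ⟨(hE G _ ((hAgr H).mono
          (Finset.union_subset_union_right Finset.subset_union_left))).mp h1, ?_⟩
        exact ((hAgr H).goodL hV1 l).mp h2
      have hPsi : Psi c m T V1 U0 E l G = 0 := by
        unfold Psi; rw [ind_false hgood, zero_mul]
      simp only [hzero, hPsi]
      rw [ExG_const]; simp
  calc ExG p (Psi c m T V1 U0 E (w :: l))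
      = ExG p (fun G => ExG p (fun H => Psi c m T V1 U0 E (w :: l) (mrg A G H))) :=
        ExG_resample p A _
    _ ≤ ExG p (fun G => Psi c m T V1 U0 E l G +
        (-(p ^ (m + 1))) * (ind (∀ t ∈ T, G.Adj w t) * Psi c m T V1 U0 E l G)) :=
        ExG_mono hp0 hp1 key
    _ = ExG p (Psi c m T V1 U0 E l) +
        (-(p ^ (m + 1))) * (p ^ T.card * ExG p (Psi c m T V1 U0 E l)) := by
        rw [ExG_add, ExG_mul_left, ExG_star_mul p T hT]
        intro t ht G H
        apply Psi_congr hV1 hE
        intro a ha b hb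
        have h1 : ¬ (SimpleGraph.edge w t).Adj a b := by
          rw [SimpleGraph.edge_adj]
          have hane : ∀ x ∈ T ∪ (U0 ∪ l.toFinset), w ≠ x := by
            intro x hx h
            subst h
            rcases Finset.mem_union.mp hx with h2 | h2
            · exact hT h2
            · exact hwU h2
          rintro ⟨⟨h2, _⟩ | ⟨_, h2⟩, _⟩
          · exact hane a ha h2.symm
          · exact hane b hb h2.symm
        rw [mrg_adj]; tauto
    _ = _ := by rw [pow_add]; ring

end Pool.Agent.Work.MP_d1e9a6_pr.BlockA
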