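import Pool.Agent.Work.MP_d1e9a6_pr.ADet

/-!
# MP_d1e9a6_pr, Theorem A: one step of the exposure, deterministic part
-/

set_option autoImplicit false

namespace Pool.Agent.Work.MP_d1e9a6_pr.BlockA

variable {V : Type}

/-- boundaries plus `c` times cycles -/
noncomputable def Bc (c : ℤ) (F : List V → Prop) (m : ℕ) : AddSubgroup (Ch V) :=
  (Bd F m ⊔ (Zc F m).map (LinearMap.lsmul ℤ (Ch V) c)).toAddSubgroup

/-- cardinality of homology modulo `c` (`0` if infinite) -/
noncomputable def idx (c : ℤ) (F : List V → Prop) (m : ℕ) : ℕ :=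
  (Bc c F m).relIndex (Zc F m).toAddSubgroup

lemma mem_Bc {c : ℤ} {F : List V → Prop} {m : ℕ} {z : Ch V} :
    z ∈ Bc c F m ↔ z ∈ Bd F m ⊔ (Zc F m).map (LinearMap.lsmul ℤ (Ch V) c) := Iff.rfl

lemma Bd_le_Bc {c : ℤ} {F : List V → Prop} {m : ℕ} : (Bd F m).toAddSubgroup ≤ Bc c F m :=
  fun _ hz => mem_Bc.mpr (Submodule.mem_sup_left hz)

lemma Bc_le_Zc {c : ℤ} {F : List V → Prop} (hF : SubClosed F) {m : ℕ} :
    Bc c F m ≤ (Zc F m).toAddSubgroup := by
  intro z hz
  rw [mem_Bc] at hz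
  have : Bd F m ⊔ (Zc F m).map (LinearMap.lsmul ℤ (Ch V) c) ≤ Zc F m := by
    refine sup_le (Bd_le_Zc hF m) ?_
    rintro _ ⟨y, hy, rfl⟩
    exact Submodule.smul_mem _ c hy
  exact this hz

lemma cl_congr {G G' : SimpleGraph V} {S : Set V}
    (h : ∀ a ∈ S, ∀ b ∈ S, (G'.Adj a b ↔ G.Adj a b)) : cl G' S = cl G S := by
  funext l
  apply propext
  constructor
  · rintro ⟨h1, h2⟩
    exact ⟨h1, fun a ha b hb hab => (h a (h1 a ha) b (h1 b hb)).mp (h2 a ha b hb hab)⟩
  · rintro ⟨h1, h2⟩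
    exact ⟨h1, fun a ha b hb hab => (h a (h1 a ha) b (h1 b hb)).mpr (h2 a ha b hb hab)⟩

open Classical in
/-- clique lists of length `m` in `S` -/
noncomputable def clLists [Fintype V] (G : SimpleGraph V) (S : Set V) (m : ℕ) :
    Finset (List V) := ((List.finite_length_eq V m).toFinset).filter (fun l => cl G S l)

lemma mem_clLists [Fintype V] {G : SimpleGraph V} {S : Set V} {m : ℕ} {l : List V} :
    l ∈ clLists G S m ↔ l.length = m ∧ cl G S l := by
  simp [clLists]

/-- an integral combination lies in the subgroup generated -/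
lemma lin_mem_closure {x : List V → Ch V} {z : Ch V} {s : Set (List V)}
    (hz : ∀ l ∈ z.support, l ∈ s) : lin x z ∈ AddSubgroup.closure (x '' s) := by
  unfold lin
  rw [Finsupp.linearCombination_apply, Finsupp.sum]
  refine AddSubgroup.sum_mem _ fun l hl => ?_
  have h1 : x l ∈ AddSubgroup.closure (x '' s) :=
    AddSubgroup.subset_closure (Set.mem_image_of_mem x (hz l hl))
  exact AddSubgroup.zsmul_mem _ h1 _

open Classical in
lemma step_det (hC : Stmt_Count) [Fintype V] {G : SimpleGraph V} {S κ S2 : Set V} (c : ℤ) {m : ℕ}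
    (hκS : κ ⊆ S) (hS2S : S2 ⊆ S)
    (hb : Zc (cl G S) (m + 1) ≤ Zc (cl G S2) (m + 1) ⊔ Bd (cl G S) (m + 1))
    (hκ : Acyc (cl G κ) m)
    (hac : ∀ τ, cl G S2 τ → τ.length ≤ m → Acyc (cl G (κ ∪ ls τ)) m)
    (hidx : idx c (cl G S) (m + 1) ≠ 0) :
    ∃ wt : List V → ℝ, (∀ l, 0 ≤ wt l) ∧
      ∑ l ∈ clLists G S2 (m + 1), wt l ≤ Real.log (idx c (cl G S) (m + 1)) ∧
      ∀ (G' : SimpleGraph V) (w : V), w ∉ S →
        (∀ a ∈ S, ∀ b ∈ S, (G'.Adj a b ↔ G.Adj a b)) → (∀ v ∈ κ, G'.Adj w v) →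
        Zc (cl G' (S ∩ {v | G'.Adj w v})) m ≤ Bd (cl G' (S ∩ {v | G'.Adj w v})) m →
        idx c (cl G' (insert w S)) (m + 1) ≠ 0 ∧
        Real.log (idx c (cl G' (insert w S)) (m + 1)) ≤
          ∑ l ∈ (clLists G S2 (m + 1)).filter (fun l => ¬ ∀ v ∈ l, G'.Adj w v), wt l := by
  obtain ⟨x, hx, hgen⟩ := exists_generators hκ hac
  set R := clLists G S2 (m + 1) with hR
  set Z : AddSubgroup (Ch V) := (Zc (cl G S) (m + 1)).toAddSubgroup with hZ
  set A0 : AddSubgroup (Ch V) := Bc c (cl G S) (m + 1) ⊔ (Zc (cl G κ) (m + 1)).toAddSubgroup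
    with hA0
  have hκZ : (Zc (cl G κ) (m + 1)).toAddSubgroup ≤ Z :=
    fun z hz => Zc_mono (cl_mono hκS) hz
  have hA0Z : A0 ≤ Z := sup_le (Bc_le_Zc (cl_subClosed _ _)) hκZ
  have hxZ : ∀ l ∈ R, x l ∈ Z := by
    intro l hl
    rw [hR, mem_clLists] at hl
    refine Zc_mono (cl_mono ?_) (hx l hl.2 hl.1)
    refine Set.union_subset hκS ?_
    intro v hv
    exact hS2S (hl.2.1 v hv)
  have hgenZ : Z ≤ A0 ⊔ AddSubgroup.closure (x '' (R : Set (List V))) := by
    intro z hz
    obtain ⟨z2, hz2, b, hbb, rfl⟩ := Submodule.mem_sup.mp (hb hz)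
    have h1 := hgen z2 hz2
    have h2 : lin x z2 ∈ AddSubgroup.closure (x '' (R : Set (List V))) := by
      refine lin_mem_closure ?_
      intro l hl
      have := (mem_CF.mp hz2.1) l hl
      rw [Finset.mem_coe, hR, mem_clLists]
      exact ⟨this.2, this.1⟩
    have h3 : z2 + b = (b + (z2 - lin x z2)) + lin x z2 := by abel
    rw [h3]
    refine AddSubgroup.add_mem_sup ?_ h2
    refine AddSubgroup.add_mem_sup (Bd_le_Bc hbb) h1
  have hrel : A0.relIndex Z ≠ 0 := by
    intro h0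
    apply hidx
    have := AddSubgroup.relIndex_dvd_of_le_left Z (le_sup_left : Bc c (cl G S) (m + 1) ≤ A0)
    rw [h0] at this
    exact Nat.eq_zero_of_zero_dvd this
  obtain ⟨wt, hwt0, hwtsum, hwt⟩ := hC (Ch V) A0 Z (List V) R x hA0Z hxZ hgenZ hrel
  refine ⟨wt, hwt0, ?_, ?_⟩
  · refine hwtsum.trans ?_
    apply Real.log_le_log
    · exact_mod_cast Nat.pos_of_ne_zero hrel
    · exact_mod_cast AddSubgroup.relIndex_le_of_le_left
        (le_sup_left : Bc c (cl G S) (m + 1) ≤ A0) hidx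
  · intro G' w hwS hGG' hκw hlink
    have hclS : cl G' S = cl G S := cl_congr hGG'
    set J := R.filter (fun l => ∀ v ∈ l, G'.Adj w v) with hJ
    obtain ⟨hJ0, hJle⟩ := hwt J (Finset.filter_subset _ _)
    have hdiff : R \ J = R.filter (fun l => ¬ ∀ v ∈ l, G'.Adj w v) := by
      ext l
      simp only [hJ, Finset.mem_sdiff, Finset.mem_filter]
      tauto
    rw [hdiff] at hJle
    set B' : AddSubgroup (Ch V) := Bc c (cl G' (insert w S)) (m + 1) with hB'
    set Z' : AddSubgroup (Ch V) := (Zc (cl G' (insert w S)) (m + 1)).toAddSubgroup with hZ'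
    have hZZ' : Z ≤ Z' := by
      intro z hz
      have : z ∈ Zc (cl G' S) (m + 1) := by rw [hclS]; exact hz
      exact Zc_mono (cl_mono (Set.subset_insert w S)) this
    have hZ'le : Z' ≤ B' ⊔ Z := by
      intro z hz
      have h1 := add_vertex (G := G') hwS hlink hz
      obtain ⟨z2, hz2, b, hbb, rfl⟩ := Submodule.mem_sup.mp h1
      rw [add_comm]
      refine AddSubgroup.add_mem_sup (Bd_le_Bc hbb) ?_
      rw [hclS] at hz2
      exact hz2
    have hB'ge : A0 ⊔ AddSubgroup.closure (x '' (J : Set (List V))) ≤ B' := by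
      refine sup_le (sup_le ?_ ?_) ?_
      · intro z hz
        rw [mem_Bc] at hz
        rw [hB', mem_Bc]
        have h1 : Bd (cl G S) (m + 1) ≤ Bd (cl G' (insert w S)) (m + 1) := by
          rw [← hclS]; exact Bd_mono (cl_mono (Set.subset_insert w S))
        have h2 : Zc (cl G S) (m + 1) ≤ Zc (cl G' (insert w S)) (m + 1) := by
          rw [← hclS]; exact Zc_mono (cl_mono (Set.subset_insert w S))
        exact (sup_le_sup h1 (Submodule.map_mono h2)) hz
      · intro z hz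
        apply Bd_le_Bc
        have hclκ : cl G' κ = cl G κ :=
          cl_congr fun a ha b hb => hGG' a (hκS ha) b (hκS hb)
        refine cone_kill (G := G') (w := w) (L := κ) ?_ (Set.mem_insert w S) ?_
        · intro v hv
          exact ⟨Set.mem_insert_of_mem _ (hκS hv), Or.inr (hκw v hv)⟩
        · rw [hclκ]; exact hz
      · rw [AddSubgroup.closure_le]
        rintro _ ⟨l, hl, rfl⟩
        rw [Finset.mem_coe, hJ, Finset.mem_filter, hR, mem_clLists] at hl
        obtain ⟨⟨hlen, hcl⟩, hadj⟩ := hl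
        have hsub : κ ∪ ls l ⊆ S := Set.union_subset hκS fun v hv => hS2S (hcl.1 v hv)
        have hclκ : cl G' (κ ∪ ls l) = cl G (κ ∪ ls l) :=
          cl_congr fun a ha b hb => hGG' a (hsub ha) b (hsub hb)
        apply Bd_le_Bc
        refine cone_kill (G := G') (w := w) (L := κ ∪ ls l) ?_ (Set.mem_insert w S) ?_
        · intro v hv
          refine ⟨Set.mem_insert_of_mem _ (hsub hv), Or.inr ?_⟩
          rcases hv with hv | hv
          · exact hκw v hv
          · exact hadj v hv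
        · rw [hclκ]; exact hx l hcl hlen
    have hle1 : B'.relIndex Z' = B'.relIndex Z := by
      have h1 : B'.relIndex (B' ⊔ Z) = B'.relIndex Z := AddSubgroup.relIndex_sup_left Z B'
      rw [← h1]
      have hsup : Z' = B' ⊔ Z := by
        apply le_antisymm hZ'le
        exact sup_le (Bc_le_Zc (cl_subClosed _ _)) hZZ'
      rw [hsup]
    have hne : B'.relIndex Z ≠ 0 := by
      intro h0
      apply hJ0
      have h2 := AddSubgroup.relIndex_dvd_of_le_left Z hB'ge
      rw [h0] at h2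
      exact Nat.eq_zero_of_zero_dvd h2
    have hidx' : idx c (cl G' (insert w S)) (m + 1) = B'.relIndex Z := hle1
    rw [hidx']
    refine ⟨hne, le_trans ?_ hJle⟩
    apply Real.log_le_log
    · exact_mod_cast Nat.pos_of_ne_zero hne
    · exact_mod_cast AddSubgroup.relIndex_le_of_le_left hB'ge hJ0

end Pool.Agent.Work.MP_d1e9a6_pr.BlockA
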