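import Mathlib

/-!
# MP_d1e9a6_pr: shared definitions

* chains on lists (`Ch V = List V →₀ ℤ`), the boundary `D`, cones, `Zc`, `Bd`, `Acyc`;
* geometric realisation `Geo K` of a family `K` of finite sets;
* vanishing of homotopy groups `PiVanish`, loops and their classes `cls`, post-composition `mapLoop`.
-/

set_option autoImplicit false

open scoped unitInterval Topology Topology.Homotopy

namespace Pool.Agent.Work.MP_d1e9a6_pr

/-! ## Chains -/

section Chains

variable {V : Type}

/-- integral chains on lists of vertices; a list of length `m` is a simplex of dimension `m - 1`,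
the empty list carries the augmentation -/
abbrev Ch (V : Type) := List V →₀ ℤ

/-- put the vertex `v` in front of every list -/
noncomputable def cone (v : V) : Ch V →ₗ[ℤ] Ch V := Finsupp.lmapDomain ℤ ℤ (List.cons v)

/-- boundary of a list -/
noncomputable def bd : List V → Ch V
  | [] => 0
  | v :: l => Finsupp.single l 1 - cone v (bd l)

/-- the boundary operator -/
noncomputable def D : Ch V →ₗ[ℤ] Ch V := Finsupp.linearCombination ℤ bd

@[simp] lemma cone_single (v : V) (l : List V) (c : ℤ) :
    cone v (Finsupp.single l c) = Finsupp.single (v :: l) c := by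
  simp [cone, Finsupp.lmapDomain_apply, Finsupp.mapDomain_single]

@[simp] lemma bd_nil : bd ([] : List V) = 0 := rfl

lemma bd_cons (v : V) (l : List V) : bd (v :: l) = Finsupp.single l 1 - cone v (bd l) := rfl

lemma D_single (l : List V) (c : ℤ) : D (Finsupp.single l c) = c • bd l := by
  simp [D, Finsupp.linearCombination_single]

@[simp] lemma D_single_one (l : List V) : D (Finsupp.single l 1) = bd l := by
  rw [D_single, one_smul]

/-- the cone formula -/
lemma D_cone (v : V) (z : Ch V) : D (cone v z) = z - cone v (D z) := by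
  induction z using Finsupp.induction_linear with
  | zero => simp
  | add f g hf hg => rw [map_add, map_add, map_add, map_add, hf, hg]; abel
  | single l c =>
    rw [cone_single, D_single, D_single, bd_cons, smul_sub, map_smul]
    simp

lemma D_bd (l : List V) : D (bd l) = 0 := by
  induction l with
  | nil => simp
  | cons v l ih => rw [bd_cons, map_sub, D_single_one, D_cone, ih]; simp

lemma D_D (z : Ch V) : D (D z) = 0 := by
  induction z using Finsupp.induction_linear with
  | zero => simp
  | add f g hf hg => rw [map_add, map_add, hf, hg, add_zero]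
  | single l c => rw [D_single, map_smul, D_bd, smul_zero]

/-- chains of length `m` supported on lists satisfying `F` -/
def CF (F : List V → Prop) (m : ℕ) : Submodule ℤ (Ch V) :=
  Finsupp.supported ℤ ℤ {l | F l ∧ l.length = m}

/-- cycles -/
noncomputable def Zc (F : List V → Prop) (m : ℕ) : Submodule ℤ (Ch V) :=
  CF F m ⊓ LinearMap.ker (D : Ch V →ₗ[ℤ] Ch V)

/-- boundaries (of chains one longer) -/
noncomputable def Bd (F : List V → Prop) (m : ℕ) : Submodule ℤ (Ch V) :=
  (CF F (m + 1)).map (D : Ch V →ₗ[ℤ] Ch V)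

/-- every cycle of list length `≤ ℓ` is a boundary (reduced homology vanishes in degrees
`≤ ℓ - 1`) -/
def Acyc (F : List V → Prop) (ℓ : ℕ) : Prop := ∀ m ≤ ℓ, Zc F m ≤ Bd F m

/-- the family of lists is closed under sublists -/
def SubClosed (F : List V → Prop) : Prop := ∀ l l' : List V, l'.Sublist l → F l → F l'

lemma mem_CF {F : List V → Prop} {m : ℕ} {z : Ch V} :
    z ∈ CF F m ↔ ∀ l ∈ z.support, F l ∧ l.length = m := by
  rw [CF, Finsupp.mem_supported]
  constructor
  · intro h l hl; exact h hl
  · intro h l hl; exact h l hl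

lemma single_mem_CF {F : List V → Prop} {m : ℕ} {l : List V} (c : ℤ) (h : F l)
    (hl : l.length = m) : Finsupp.single l c ∈ CF F m :=
  Finsupp.single_mem_supported ℤ c ⟨h, hl⟩

lemma mem_Zc {F : List V → Prop} {m : ℕ} {z : Ch V} : z ∈ Zc F m ↔ z ∈ CF F m ∧ D z = 0 :=
  Iff.rfl

lemma mem_Bd {F : List V → Prop} {m : ℕ} {z : Ch V} :
    z ∈ Bd F m ↔ ∃ y ∈ CF F (m + 1), D y = z := Iff.rfl

lemma CF_mono {F F' : List V → Prop} {m : ℕ} (h : ∀ l, F l → F' l) : CF F m ≤ CF F' m :=
  Finsupp.supported_mono fun _ hl => ⟨h _ hl.1, hl.2⟩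

lemma Zc_mono {F F' : List V → Prop} {m : ℕ} (h : ∀ l, F l → F' l) : Zc F m ≤ Zc F' m :=
  inf_le_inf_right _ (CF_mono h)

lemma Bd_mono {F F' : List V → Prop} {m : ℕ} (h : ∀ l, F l → F' l) : Bd F m ≤ Bd F' m :=
  Submodule.map_mono (CF_mono h)

/-- linear maps out of `CF F m` are checked on single lists -/
lemma CF_le_iff {F : List V → Prop} {m : ℕ} {N : Submodule ℤ (Ch V)} :
    CF F m ≤ N ↔ ∀ l, F l → l.length = m → Finsupp.single l (1 : ℤ) ∈ N := by
  rw [CF, Finsupp.supported_eq_span_single, Submodule.span_le]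
  constructor
  · intro h l hl hm
    exact h ⟨l, ⟨hl, hm⟩, rfl⟩
  · rintro h _ ⟨l, ⟨hl, hm⟩, rfl⟩
    exact h l hl hm

lemma map_CF_le {M : Type*} [AddCommGroup M] {F : List V → Prop} {m : ℕ} {N : Submodule ℤ M}
    (φ : Ch V →ₗ[ℤ] M) (h : ∀ l, F l → l.length = m → φ (Finsupp.single l 1) ∈ N) {z : Ch V}
    (hz : z ∈ CF F m) : φ z ∈ N := by
  have : CF F m ≤ N.comap φ := by
    rw [CF, Finsupp.supported_eq_span_single, Submodule.span_le]
    rintro _ ⟨l, ⟨hl, hm⟩, rfl⟩
    exact h l hl hm
  exact this hz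

lemma cone_mem_CF {F F' : List V → Prop} {m : ℕ} {v : V} {z : Ch V} (hz : z ∈ CF F m)
    (h : ∀ l, F l → l.length = m → F' (v :: l)) : cone v z ∈ CF F' (m + 1) := by
  refine map_CF_le (N := CF F' (m + 1)) (cone v) ?_ hz
  intro l hl hm
  rw [cone_single]
  exact single_mem_CF _ (h l hl hm) (by simp [hm])

/-- the boundary of a list is supported on sublists of length one less -/
lemma bd_support (l : List V) : ∀ l' ∈ (bd l).support, l'.Sublist l ∧ l'.length + 1 = l.length := by
  induction l with
  | nil => intro l' hl'; simp at hl'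
  | cons v l ih =>
    classical
    intro l' hl'
    rw [bd_cons] at hl'
    rcases Finset.mem_union.mp (Finsupp.support_sub hl') with h | h
    · have := Finsupp.support_single_subset h
      rw [Finset.mem_singleton] at this
      subst this
      exact ⟨List.sublist_cons_self v l', by simp⟩
    · have h2 := Finsupp.mapDomain_support h
      rw [Finset.mem_image] at h2
      obtain ⟨l'', hl'', rfl⟩ := h2
      obtain ⟨h3, h4⟩ := ih l'' hl''
      exact ⟨h3.cons_cons v, by simp [h4]⟩

lemma D_mem_CF {F : List V → Prop} (hF : SubClosed F) {m : ℕ} {z : Ch V}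
    (hz : z ∈ CF F (m + 1)) : D z ∈ CF F m := by
  refine map_CF_le (N := CF F m) D ?_ hz
  intro l hl hm
  rw [D_single_one, mem_CF]
  intro l' hl'
  obtain ⟨h1, h2⟩ := bd_support l l' hl'
  exact ⟨hF l l' h1 hl, by omega⟩

lemma D_mem_Zc {F : List V → Prop} (hF : SubClosed F) {m : ℕ} {z : Ch V}
    (hz : z ∈ CF F (m + 1)) : D z ∈ Zc F m := ⟨D_mem_CF hF hz, D_D z⟩

lemma Bd_le_Zc {F : List V → Prop} (hF : SubClosed F) (m : ℕ) : Bd F m ≤ Zc F m := by
  rintro _ ⟨y, hy, rfl⟩
  exact D_mem_Zc hF hy

end Chains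

/-! ## Complexes and their geometric realisation

A complex is a family `K : Set (Finset V)` which is a lower set (`IsLowerSet K`); it contains the
empty set as soon as it is nonempty. -/

section Geo

variable {V : Type} [Fintype V]

/-- support of a point -/
noncomputable def supp (x : V → ℝ) : Finset V := by
  classical exact Finset.univ.filter fun v => x v ≠ 0

@[simp] lemma mem_supp (x : V → ℝ) (v : V) : v ∈ supp x ↔ x v ≠ 0 := by simp [supp]

/-- geometric realisation -/
def Geo (K : Set (Finset V)) : Set (V → ℝ) := {x | (∀ v, 0 ≤ x v) ∧ ∑ v, x v = 1 ∧ supp x ∈ K}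

lemma Geo_mono {K L : Set (Finset V)} (h : L ⊆ K) : Geo L ⊆ Geo K :=
  fun _ hx => ⟨hx.1, hx.2.1, h hx.2.2⟩

/-- inclusion of realisations -/
def incl {K L : Set (Finset V)} (h : L ⊆ K) : C(Geo L, Geo K) :=
  ⟨fun x => ⟨x.1, Geo_mono h x.2⟩, Continuous.subtype_mk continuous_subtype_val _⟩

@[simp] lemma incl_val {K L : Set (Finset V)} (h : L ⊆ K) (x : Geo L) :
    (incl h x).1 = x.1 := rfl

variable [DecidableEq V]

lemma vertex_mem {K : Set (Finset V)} {o : V} (ho : {o} ∈ K) :
    (Pi.single o (1 : ℝ) : V → ℝ) ∈ Geo K := by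
  refine ⟨fun v => ?_, ?_, ?_⟩
  · by_cases h : v = o
    · subst h; simp
    · simp [Pi.single_eq_of_ne h]
  · simp
  · have : supp (Pi.single o (1 : ℝ) : V → ℝ) = {o} := by
      ext v
      rw [mem_supp, Finset.mem_singleton]
      by_cases h : v = o
      · subst h; simp
      · simp [Pi.single_eq_of_ne h, h]
    rw [this]; exact ho

/-- a vertex as a point of the realisation -/
noncomputable def vtx {K : Set (Finset V)} (o : V) (ho : {o} ∈ K) : Geo K := ⟨Pi.single o 1, vertex_mem ho⟩

/-- lists spanning a face -/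
def FK (K : Set (Finset V)) : List V → Prop := fun l => l.toFinset ∈ K

lemma FK_subClosed {K : Set (Finset V)} (hK : IsLowerSet K) : SubClosed (FK K) := by
  intro l l' h hl
  refine hK ?_ hl
  intro v hv
  rw [List.mem_toFinset] at hv ⊢
  exact h.subset hv

/-- strictly increasing lists spanning a face -/
def FS [LinearOrder V] (K : Set (Finset V)) : List V → Prop :=
  fun l => l.toFinset ∈ K ∧ l.Pairwise (· < ·)

end Geo

/-! ## Homotopy groups -/

section Homotopy

variable {Y Y' : Type} [TopologicalSpace Y] [TopologicalSpace Y']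

/-- every `s`-loop at `y0` is null-homotopic (for `s = 0`: every point is joined to `y0`) -/
def PiVanish (s : ℕ) (Y : Type) [TopologicalSpace Y] (y0 : Y) : Prop :=
  ∀ f : GenLoop (Fin s) Y y0, GenLoop.Homotopic f GenLoop.const

/-- the homotopy group `π_{n+2}`, written additively -/
abbrev HG (n : ℕ) (Y : Type) [TopologicalSpace Y] (y0 : Y) :=
  Additive (HomotopyGroup (Fin (n + 2)) Y y0)

/-- class of a loop -/
def cls {n : ℕ} {y0 : Y} (f : GenLoop (Fin (n + 2)) Y y0) : HG n Y y0 :=
  Additive.ofMul (Quotient.mk _ f)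

/-- make a loop -/
def mkLoop {s : ℕ} {y0 : Y} (f : C(Fin s → I, Y)) (hf : ∀ y ∈ Cube.boundary (Fin s), f y = y0) :
    GenLoop (Fin s) Y y0 := ⟨f, hf⟩

/-- compose a loop with a continuous map -/
def mapLoop {s : ℕ} {y0 : Y} (g : C(Y, Y')) (f : GenLoop (Fin s) Y y0) :
    GenLoop (Fin s) Y' (g y0) :=
  ⟨g.comp f.1, fun y hy => congrArg g (f.2 y hy)⟩

end Homotopy

end Pool.Agent.Work.MP_d1e9a6_pr
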