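import Pool.Agent.Work.MP_d1e9a6_pr.Thr

/-!
# MP_d1e9a6_pr: exact statements of the blocks

Every block is a `Prop`-valued definition; a block file proves `theorem ... : Stmt_...`, possibly
from other statements.  See BLUEPRINT.md for the proofs.
-/

set_option autoImplicit false

open scoped unitInterval Topology Topology.Homotopy

namespace Pool.Agent.Work.MP_d1e9a6_pr

/-! ## T1: cubes -/

/-- inserting a coordinate -/
def insC {j : ℕ} (i : Fin (j + 1)) (ε : I) : C(Fin j → I, Fin (j + 1) → I) :=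
  ⟨fun x => Fin.insertNth (α := fun _ => I) i ε x, by
    refine continuous_pi fun m => ?_
    refine Fin.succAboveCases i ?_ (fun m => ?_) m
    · simp only [Fin.insertNth_apply_same]; exact continuous_const
    · simp only [Fin.insertNth_apply_succAbove]; exact continuous_apply m⟩

/-- homotopy addition theorem for cubes of dimension `≥ 3` -/
def Stmt_HomAdd : Prop :=
  ∀ (Y : Type) [TopologicalSpace Y] (y0 : Y) (n : ℕ) (F : C(Fin (n + 3) → I, Y)),
    (∀ y : Fin (n + 3) → I,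
      (∃ a b, a ≠ b ∧ (y a = 0 ∨ y a = 1) ∧ (y b = 0 ∨ y b = 1)) → F y = y0) →
    ∑ i : Fin (n + 3), (-1 : ℤ) ^ (i : ℕ) •
      (clsOf y0 (F.comp (insC i 1)) - clsOf y0 (F.comp (insC i 0))) = 0

/-- `theta` vanishes on boundaries (consequence of `Stmt_HomAdd`) -/
def Stmt_ThetaBd : Prop :=
  ∀ (V : Type) [Fintype V] [DecidableEq V] (K : Set (Finset V)) (hK : IsLowerSet K)
    (Y : Type) [TopologicalSpace Y] (y0 : Y) (n : ℕ) (u : C(Geo K, Y)),
    Normalized (n + 2) y0 u → ∀ τ : List V, τ.toFinset ∈ K → τ.length = n + 4 →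
      theta n hK y0 u (bd τ) = 0

/-! ## T3: homotopy extension -/

def Stmt_HEP : Prop :=
  ∀ (V : Type) [Fintype V] [DecidableEq V] (K L : Set (Finset V)) (_hK : IsLowerSet K)
    (_hL : IsLowerSet L) (hLK : L ⊆ K) (Y : Type) [TopologicalSpace Y] (g : C(Geo K, Y))
    (h : C(I × Geo L, Y)), (∀ x, h (0, x) = g (incl hLK x)) →
    ∃ H : C(I × Geo K, Y), (∀ x, H (0, x) = g x) ∧ ∀ t x, H (t, incl hLK x) = h (t, x)

/-! ## T4: cells -/

/-- the closed simplex on `F` -/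
def PF {V : Type} (F : Finset V) : Set (Finset V) := {s | s ⊆ F}

lemma isLowerSet_PF {V : Type} (F : Finset V) : IsLowerSet (PF F) :=
  fun _ _ h hs => h.trans hs

lemma self_mem_PF {V : Type} (F : Finset V) : F ∈ PF F := Finset.Subset.refl F

/-- the characteristic map of a list `v :: l` -/
noncomputable def chi {V : Type} [Fintype V] [DecidableEq V] {K : Set (Finset V)}
    (hK : IsLowerSet K) (v : V) (l : List V) (h : (v :: l).toFinset ∈ K) (j : ℕ) :
    C(Fin j → I, Geo K) := thrG hK (fun b => psi v l b) (adm_psi hK h)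

/-- realisation of a loop on a simplex -/
def Stmt_CellReal : Prop :=
  ∀ (V : Type) [Fintype V] [DecidableEq V] (v : V) (l : List V), (v :: l).Nodup →
    ∀ (Y : Type) [TopologicalSpace Y] (y0 : Y) (f : GenLoop (Fin l.length) Y y0),
    ∃ u : C(Geo (PF (v :: l).toFinset), Y),
      (∀ x, supp x.1 ≠ (v :: l).toFinset → u x = y0) ∧
      (u.comp (chi (isLowerSet_PF _) v l (self_mem_PF _) l.length)).HomotopicRel f.1
        (Cube.boundary (Fin l.length))

/-- two maps on a simplex, constant on the boundary, with homotopic loops are homotopic rel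
boundary -/
def Stmt_CellInj : Prop :=
  ∀ (V : Type) [Fintype V] [DecidableEq V] (v : V) (l : List V), (v :: l).Nodup →
    ∀ (Y : Type) [TopologicalSpace Y] (y0 : Y) (p q : C(Geo (PF (v :: l).toFinset), Y)),
    (∀ x, supp x.1 ≠ (v :: l).toFinset → p x = y0) →
    (∀ x, supp x.1 ≠ (v :: l).toFinset → q x = y0) →
    (p.comp (chi (isLowerSet_PF _) v l (self_mem_PF _) l.length)).HomotopicRel
      (q.comp (chi (isLowerSet_PF _) v l (self_mem_PF _) l.length)) (Cube.boundary (Fin l.length)) →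
    ∃ H : C(I × Geo (PF (v :: l).toFinset), Y), (∀ x, H (0, x) = p x) ∧ (∀ x, H (1, x) = q x) ∧
      ∀ t x, supp x.1 ≠ (v :: l).toFinset → H (t, x) = y0

/-- realisation of a loop on simplex times interval; the time is coordinate `0` of the cube -/
def Stmt_CellPrism : Prop :=
  ∀ (V : Type) [Fintype V] [DecidableEq V] (v : V) (l : List V), (v :: l).Nodup →
    ∀ (Y : Type) [TopologicalSpace Y] (y0 : Y) (f : GenLoop (Fin (l.length + 1)) Y y0),
    ∃ h : C(I × Geo (PF (v :: l).toFinset), Y),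
      (∀ t x, (t = 0 ∨ t = 1 ∨ supp x.1 ≠ (v :: l).toFinset) → h (t, x) = y0) ∧
      ∀ G : C(Fin (l.length + 1) → I, Y),
        (∀ y, G y = h (y 0, chi (isLowerSet_PF _) v l (self_mem_PF _) l.length (fun i => y i.succ))) →
        G.HomotopicRel f.1 (Cube.boundary (Fin (l.length + 1)))

/-! ## T5: normalisation -/

/-- extension over one layer of faces: all faces of cardinality `j + 1` outside `L` are pushed to
`y0` at once -/
def Stmt_Layer : Prop :=
  ∀ (V : Type) [Fintype V] [DecidableEq V] (K L : Set (Finset V)) (hK : IsLowerSet K)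
    (_hL : IsLowerSet L) (_hLK : L ⊆ K) (Y : Type) [TopologicalSpace Y] (y0 : Y) (j : ℕ)
    (u : C(Geo K, Y)), Normalized j y0 u →
    (∀ x : Geo K, supp x.1 ∈ L → (supp x.1).card ≤ j + 1 → u x = y0) →
    (∀ F ∈ K, F ∉ L → F.card = j + 1 →
      ∃ (v : V) (l : List V) (h : (v :: l).toFinset ∈ K), (v :: l).toFinset = F ∧ l.length = j ∧
        (u.comp (chi hK v l h j)).HomotopicRel (ContinuousMap.const _ y0)
          (Cube.boundary (Fin j))) →
    ∃ H : C(I × Geo K, Y), (∀ x, H (0, x) = u x) ∧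
      (∀ t x, (supp x.1 ∈ L ∨ (supp x.1).card ≤ j) → H (t, x) = u x) ∧
      ∀ x : Geo K, (supp x.1).card ≤ j + 1 → H (1, x) = y0

/-- normalisation of a map into a highly connected space, relative to `L` -/
def Stmt_Normalize : Prop :=
  ∀ (V : Type) [Fintype V] [DecidableEq V] (K L : Set (Finset V)) (_hK : IsLowerSet K)
    (_hL : IsLowerSet L) (_hLK : L ⊆ K) (Y : Type) [TopologicalSpace Y] (y0 : Y) (j : ℕ),
    (∀ s < j, PiVanish s Y y0) → ∀ u : C(Geo K, Y),
    (∀ x : Geo K, supp x.1 ∈ L → (supp x.1).card ≤ j → u x = y0) →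
    ∃ H : C(I × Geo K, Y), (∀ x, H (0, x) = u x) ∧
      (∀ t x, supp x.1 ∈ L → H (t, x) = u x) ∧
      ∀ x : Geo K, (supp x.1).card ≤ j → H (1, x) = y0

/-! ## T9a: modification and uniqueness -/

/-- evaluate a function on lists linearly on chains -/
noncomputable def lin {V : Type} {A : Type} [AddCommGroup A] (δ : List V → A) : Ch V →ₗ[ℤ] A :=
  Finsupp.linearCombination ℤ δ

/-- changing a map on the `(j-1)`-simplices, `j = n + 2` -/
def Stmt_Mod : Prop :=
  ∀ (V : Type) [Fintype V] [LinearOrder V] (K : Set (Finset V)) (hK : IsLowerSet K)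
    (Y : Type) [TopologicalSpace Y] (y0 : Y) (n : ℕ) (u : C(Geo K, Y)),
    Normalized (n + 2) y0 u → ∀ δ : List V → HG n Y y0,
    ∃ u' : C(Geo K, Y), u'.Homotopic u ∧ Normalized (n + 2) y0 u' ∧
      ∀ τ : List V, FS K τ → τ.length = n + 3 →
        theta n hK y0 u' (Finsupp.single τ 1) =
          theta n hK y0 u (Finsupp.single τ 1) + lin δ (bd τ)

/-- maps are determined by their classes when `dim K ≤ j = n + 2` -/
def Stmt_Uniq : Prop :=
  ∀ (V : Type) [Fintype V] [LinearOrder V] (K : Set (Finset V)) (hK : IsLowerSet K)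
    (Y : Type) [TopologicalSpace Y] (y0 : Y) (n : ℕ) (u u' : C(Geo K, Y)),
    (∀ s ∈ K, s.card ≤ n + 3) →
    Normalized (n + 2) y0 u → Normalized (n + 2) y0 u' →
    (∀ τ : List V, FS K τ → τ.length = n + 3 →
      theta n hK y0 u (Finsupp.single τ 1) = theta n hK y0 u' (Finsupp.single τ 1)) →
    u.Homotopic u'

/-- maps with prescribed classes exist when `dim K ≤ j = n + 2` -/
def Stmt_Exist : Prop :=
  ∀ (V : Type) [Fintype V] [LinearOrder V] (K : Set (Finset V)) (hK : IsLowerSet K)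
    (Y : Type) [TopologicalSpace Y] (y0 : Y) (n : ℕ), (∀ s ∈ K, s.card ≤ n + 3) →
    ∀ α : List V → HG n Y y0, ∃ u : C(Geo K, Y), Normalized (n + 2) y0 u ∧
      ∀ τ : List V, FS K τ → τ.length = n + 3 → theta n hK y0 u (Finsupp.single τ 1) = α τ

/-- the identity of a complex without homology up to list length `k` (sorted chains) and with a
normalisation at level 2 can be normalised at level `k` -/
def Stmt_NormId : Prop :=
  ∀ (V : Type) [Fintype V] [LinearOrder V] (K : Set (Finset V)) (_hK : IsLowerSet K) (o : V)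
    (ho : {o} ∈ K) (k : ℕ), 2 ≤ k → Acyc (FS K) k →
    (∃ g : C(Geo K, Geo K), g.Homotopic (ContinuousMap.id _) ∧ Normalized 2 (vtx o ho) g) →
    ∃ g : C(Geo K, Geo K), g.Homotopic (ContinuousMap.id _) ∧ Normalized k (vtx o ho) g

/-! ## T9b: invariance -/

/-- two normalised maps which are homotopic differ by a coboundary on classes -/
def Stmt_Inv : Prop :=
  ∀ (V : Type) [Fintype V] [LinearOrder V] (K : Set (Finset V)) (hK : IsLowerSet K)
    (Y : Type) [TopologicalSpace Y] (y0 : Y) (n : ℕ), (∀ s < n + 2, PiVanish s Y y0) →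
    ∀ u u' : C(Geo K, Y), Normalized (n + 2) y0 u → Normalized (n + 2) y0 u' → u.Homotopic u' →
    ∃ δ : List V → HG n Y y0, ∀ τ : List V, τ.toFinset ∈ K → τ.length = n + 3 →
      theta n hK y0 u' (Finsupp.single τ 1) =
        theta n hK y0 u (Finsupp.single τ 1) + lin δ (bd τ)

/-! ## T6, T7: the wedge of spheres of the frozen statement -/

/-- wedge of `m` spheres of dimension `k` -/
abbrev Wedge (m k : ℕ) : Type :=
  {y : Fin m × Fin (k + 1) → ℝ // y = 0 ∨ ∃ i : Fin m,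
    (∀ j : Fin m, ∀ t : Fin (k + 1), j ≠ i → y (j, t) = 0) ∧
    ∑ t : Fin (k + 1), (y (i, t)) ^ 2 = 2 * y (i, 0)}

/-- base point -/
def wpt (m k : ℕ) : Wedge m k := ⟨0, Or.inl rfl⟩

/-- universal properties of the wedge (`k ≥ 1`) -/
def Stmt_Wedge : Prop :=
  ∀ (m k : ℕ), 1 ≤ k → ∃ ι : Fin m → GenLoop (Fin k) (Wedge m k) (wpt m k),
    (∀ (Y : Type) [TopologicalSpace Y] (y0 : Y) (f : Fin m → GenLoop (Fin k) Y y0),
      ∃ g : C(Wedge m k, Y), g (wpt m k) = y0 ∧ ∀ i y, g (ι i y) = f i y) ∧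
    (∀ (Y : Type) [TopologicalSpace Y] (y0 : Y) (g g' : C(Wedge m k, Y)),
      g (wpt m k) = y0 → g' (wpt m k) = y0 →
      (∀ i, (g.comp (ι i).1).HomotopicRel (g'.comp (ι i).1) (Cube.boundary (Fin k))) →
      g.Homotopic g')

/-- the wedge of `k`-spheres is `(k-1)`-connected -/
def Stmt_WedgePi : Prop :=
  ∀ (m k s : ℕ), s < k → PiVanish s (Wedge m k) (wpt m k)

/-! ## T8: level 2 normalisation for complexes with connected common neighbourhoods -/

def Stmt_Level2 : Prop :=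
  ∀ (V : Type) [Fintype V] [DecidableEq V] (K : Set (Finset V)) (_hK : IsLowerSet K)
    (G : SimpleGraph V) (_hG : ∀ s : Finset V, s.card ≤ 3 → G.IsClique (s : Set V) → s ∈ K)
    (_hG' : ∀ s ∈ K, G.IsClique (s : Set V))
    (_h3 : ∀ u v w : V, ∃ z, G.Adj z u ∧ G.Adj z v ∧ G.Adj z w)
    (_h2 : ∀ u v a b : V, G.Adj a u → G.Adj a v → G.Adj b u → G.Adj b v →
      Relation.ReflTransGen (fun x y => G.Adj x y ∧ G.Adj y u ∧ G.Adj y v) a b)
    (o : V) (ho : {o} ∈ K),
    ∃ g : C(Geo K, Geo K), g.Homotopic (ContinuousMap.id _) ∧ Normalized 2 (vtx o ho) g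

/-! ## S: sorted chains -/

def Stmt_Sorted : Prop :=
  ∀ (V : Type) [Fintype V] [LinearOrder V] (K : Set (Finset V)) (_hK : IsLowerSet K) (ℓ : ℕ),
    Acyc (FK K) ℓ → Acyc (FS K) ℓ

/-! ## T9c: final topological theorem -/

def Stmt_Topology : Prop :=
  ∀ (V : Type) [Fintype V] [LinearOrder V] (K : Set (Finset V)) (_hK : IsLowerSet K) (o : V)
    (ho : {o} ∈ K) (k : ℕ), 2 ≤ k → (∀ s ∈ K, s.card ≤ k + 1) → Acyc (FK K) k →
    (∃ g : C(Geo K, Geo K), g.Homotopic (ContinuousMap.id _) ∧ Normalized 2 (vtx o ho) g) →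
    ∃ m : ℕ, Nonempty (ContinuousMap.HomotopyEquiv (Geo K) (Wedge m k))

/-! ## C: collapse to dimension `≤ k` -/

/-- remove the star of `ρ` -/
def delStar {V : Type} (K : Set (Finset V)) (ρ : Finset V) : Set (Finset V) := {τ ∈ K | ¬ ρ ⊆ τ}

/-- one reduction step: the link of `ρ` is a cone with apex `v` -/
def Step {V : Type} [DecidableEq V] (k : ℕ) (K K' : Set (Finset V)) : Prop :=
  ∃ (ρ : Finset V) (v : V), v ∉ ρ ∧ k + 1 ≤ ρ.card ∧ (∀ τ ∈ K, ρ ⊆ τ → insert v τ ∈ K) ∧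
    K' = delStar K ρ

/-- reductions -/
def Red {V : Type} [DecidableEq V] (k : ℕ) : Set (Finset V) → Set (Finset V) → Prop :=
  Relation.ReflTransGen (Step k)

/-- cliques of a graph -/
def cliques {V : Type} (G : SimpleGraph V) : Set (Finset V) := {s | G.IsClique (s : Set V)}

def Stmt_StepTop : Prop :=
  ∀ (V : Type) [Fintype V] [DecidableEq V] (K : Set (Finset V)) (_hK : IsLowerSet K)
    (ρ : Finset V) (v : V), ρ.Nonempty → v ∉ ρ → (∀ τ ∈ K, ρ ⊆ τ → insert v τ ∈ K) →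
    Nonempty (ContinuousMap.HomotopyEquiv (Geo K) (Geo (delStar K ρ)))

def Stmt_StepAcyc : Prop :=
  ∀ (V : Type) [Fintype V] [DecidableEq V] (K : Set (Finset V)) (_hK : IsLowerSet K)
    (k : ℕ) (ρ : Finset V) (v : V), k + 1 ≤ ρ.card → v ∉ ρ →
    (∀ τ ∈ K, ρ ⊆ τ → insert v τ ∈ K) → Acyc (FK K) k → Acyc (FK (delStar K ρ)) k

open Classical in
/-- number of edges inside `U` -/
noncomputable def eIn {V : Type} [Fintype V] (G : SimpleGraph V) (U : Finset V) : ℕ :=
  (G.edgeFinset.filter fun e => ∀ v ∈ e, v ∈ U).card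

/-- sparse graphs reduce to dimension `≤ k` -/
def Stmt_Reduce : Prop :=
  ∀ (V : Type) [Fintype V] [DecidableEq V] (G : SimpleGraph V) (k M : ℕ), k + 2 ≤ M →
    (∀ U : Finset V, U.Nonempty → U.card ≤ M → eIn G U < (k + 1) * U.card) →
    (∀ U : Finset V, U.card = M → 2 * eIn G U + (k + 1) * (k + 2) < 2 * ((k + 1) * M)) →
    ∃ K' : Set (Finset V), Red k (cliques G) K' ∧ ∀ s ∈ K', s.card ≤ k + 1

/-! ## Probability -/

open Classical in
/-- probability of an event in `G(n,p)` -/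
noncomputable def PrG (n : ℕ) (p : ℝ) (P : SimpleGraph (Fin n) → Prop) : ℝ :=
  ∑ G ∈ (Finset.univ : Finset (SimpleGraph (Fin n))).filter P,
    p ^ G.edgeFinset.card * (1 - p) ^ (n.choose 2 - G.edgeFinset.card)

/-- C3: sparsity of all small subgraphs -/
def Stmt_Sparse : Prop :=
  ∀ (k : ℕ) (ε : ℝ), 1 ≤ k → 0 < ε → ∃ M : ℕ, k + 2 ≤ M ∧ ∀ p : ℕ → ℝ,
    (∀ᶠ n : ℕ in Filter.atTop, 0 ≤ p n ∧ p n ≤ 1 ∧
      p n ≤ (n : ℝ) ^ (-ε) / (n : ℝ) ^ (1 / ((k : ℝ) + 1))) →
    Filter.Tendsto (fun n : ℕ => PrG n (p n) fun G =>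
      (∀ U : Finset (Fin n), U.Nonempty → U.card ≤ M → eIn G U < (k + 1) * U.card) ∧
      (∀ U : Finset (Fin n), U.card = M → 2 * eIn G U + (k + 1) * (k + 2) < 2 * ((k + 1) * M)))
      Filter.atTop (nhds 1)

/-- lists of pairwise adjacent-or-equal vertices of `S` -/
def cl {V : Type} (G : SimpleGraph V) (S : Set V) : List V → Prop :=
  fun l => (∀ a ∈ l, a ∈ S) ∧ ∀ a ∈ l, ∀ b ∈ l, a ≠ b → G.Adj a b

/-- common neighbours of `T` inside `W` -/
def comN {V : Type} (G : SimpleGraph V) (T W : Finset V) : Set V :=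
  {v | v ∈ W ∧ ∀ t ∈ T, G.Adj t v}

/-- Theorem A -/
def Stmt_A : Prop :=
  ∀ ℓ : ℕ, ∃ (A b : ℝ) (a : ℕ), 0 < A ∧ 0 < b ∧ ∀ (n : ℕ) (p : ℝ), 0 ≤ p → p ≤ 1 →
    ∀ T W : Finset (Fin n), Disjoint T W →
      PrG n p (fun G => ¬ Acyc (cl G (comN G T W)) ℓ) ≤
        A * (n + 1 : ℝ) ^ a * Real.exp (-(b * W.card * p ^ (T.card + ℓ)))

/-! ## Sub-blocks of Theorem A -/

/-- A1, counting lemma: killing the generators `x i`, `i ∈ J`, of `Z / A0` -/
def Stmt_Count : Prop :=
  ∀ (M : Type) [AddCommGroup M] (A0 Z : AddSubgroup M) (ι : Type) [DecidableEq ι] (s : Finset ι)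
    (x : ι → M), A0 ≤ Z → (∀ i ∈ s, x i ∈ Z) → Z ≤ A0 ⊔ AddSubgroup.closure (x '' s) →
    A0.relIndex Z ≠ 0 →
    ∃ w : ι → ℝ, (∀ i, 0 ≤ w i) ∧ ∑ i ∈ s, w i ≤ Real.log (A0.relIndex Z) ∧
      ∀ J ⊆ s, (A0 ⊔ AddSubgroup.closure (x '' J)).relIndex Z ≠ 0 ∧
        Real.log ((A0 ⊔ AddSubgroup.closure (x '' J)).relIndex Z) ≤ ∑ i ∈ s \ J, w i

/-- A2: a finite homology group has logarithmic size polynomial in the number of vertices -/
def Stmt_IndexBound : Prop :=
  ∀ m : ℕ, ∃ C : ℝ, 0 < C ∧ ∀ (V : Type) [Fintype V] (F : List V → Prop), SubClosed F →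
    (Bd F m).toAddSubgroup.relIndex (Zc F m).toAddSubgroup ≠ 0 →
    Real.log ((Bd F m).toAddSubgroup.relIndex (Zc F m).toAddSubgroup) ≤
      C * ((Fintype.card V : ℝ) + 1) ^ (3 * m)

/-- A2': homology modulo 2 -/
def Stmt_Index2 : Prop :=
  ∀ (m : ℕ) (V : Type) [Fintype V] (F : List V → Prop), SubClosed F →
    (Bd F m ⊔ (Zc F m).map (LinearMap.lsmul ℤ (Ch V) 2)).toAddSubgroup.relIndex
      (Zc F m).toAddSubgroup ≠ 0 ∧
    Real.log ((Bd F m ⊔ (Zc F m).map (LinearMap.lsmul ℤ (Ch V) 2)).toAddSubgroup.relIndex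
      (Zc F m).toAddSubgroup) ≤ (Fintype.card V : ℝ) ^ m * Real.log 2 ∧
    ((Bd F m ⊔ (Zc F m).map (LinearMap.lsmul ℤ (Ch V) 2)).toAddSubgroup.relIndex
      (Zc F m).toAddSubgroup = 1 →
      (Bd F m).toAddSubgroup.relIndex (Zc F m).toAddSubgroup ≠ 0)

end Pool.Agent.Work.MP_d1e9a6_pr
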