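import Pool.Agent.Work.MP_d1e9a6_pr.Defs

/-!
# MP_d1e9a6_pr: threshold maps

For a labelling `a : (Fin j → Bool) → V` of the vertices of the cube, `thr a x` is the law of
`a (1{x > s})` for a uniform level `s ∈ [0,1)`.  It is the map which is affine on the simplices of
the standard (Kuhn) triangulation of the cube.
-/

set_option autoImplicit false

open scoped unitInterval Topology Topology.Homotopy
open MeasureTheory Set

namespace Pool.Agent.Work.MP_d1e9a6_pr

variable {V : Type}

/-- the vertex of the cube seen at level `s` -/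
noncomputable def lev {j : ℕ} (x : Fin j → I) (s : ℝ) : Fin j → Bool :=
  fun i => decide (s < (x i : ℝ))

/-- levels at which the label is `v` -/
def levSet {j : ℕ} (a : (Fin j → Bool) → V) (x : Fin j → I) (v : V) : Set ℝ :=
  {s | 0 ≤ s ∧ s < 1 ∧ a (lev x s) = v}

/-- the threshold map -/
noncomputable def thr {j : ℕ} (a : (Fin j → Bool) → V) (x : Fin j → I) (v : V) : ℝ :=
  (volume (levSet a x v)).toReal

lemma measurable_lev {j : ℕ} (x : Fin j → I) : Measurable (lev x) := by
  refine measurable_pi_lambda _ fun i => ?_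
  have h : (fun s : ℝ => lev x s i) = fun s : ℝ => if s < (x i : ℝ) then true else false := by
    funext s; unfold lev; by_cases hs : s < (x i : ℝ) <;> simp [hs]
  rw [h]
  exact Measurable.ite (measurableSet_lt measurable_id measurable_const) measurable_const
    measurable_const

lemma measurableSet_levSet {j : ℕ} (a : (Fin j → Bool) → V) (x : Fin j → I) (v : V) :
    MeasurableSet (levSet a x v) := by
  have h : levSet a x v = Ico 0 1 ∩ (lev x) ⁻¹' (a ⁻¹' {v}) := by
    ext s; simp [levSet, and_assoc]
  rw [h]
  exact measurableSet_Ico.inter (measurable_lev x (Set.toFinite _).measurableSet)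

lemma levSet_subset {j : ℕ} (a : (Fin j → Bool) → V) (x : Fin j → I) (v : V) :
    levSet a x v ⊆ Ico 0 1 := fun _ hs => ⟨hs.1, hs.2.1⟩

lemma volume_levSet_ne_top {j : ℕ} (a : (Fin j → Bool) → V) (x : Fin j → I) (v : V) :
    volume (levSet a x v) ≠ ⊤ := by
  refine ne_top_of_le_ne_top ?_ (measure_mono (levSet_subset a x v))
  simp

lemma thr_nonneg {j : ℕ} (a : (Fin j → Bool) → V) (x : Fin j → I) (v : V) : 0 ≤ thr a x v :=
  ENNReal.toReal_nonneg

lemma thr_sum [Fintype V] {j : ℕ} (a : (Fin j → Bool) → V) (x : Fin j → I) :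
    ∑ v, thr a x v = 1 := by
  classical
  unfold thr
  rw [← ENNReal.toReal_sum fun v _ => volume_levSet_ne_top a x v]
  have h1 : ∑ v, volume (levSet a x v) = volume (⋃ v ∈ (Finset.univ : Finset V), levSet a x v) := by
    rw [measure_biUnion_finset]
    · intro v _ w _ hvw
      rw [Function.onFun, Set.disjoint_left]
      rintro s ⟨_, _, h⟩ ⟨_, _, h'⟩
      exact hvw (h.symm.trans h')
    · intro v _
      exact measurableSet_levSet a x v
  have h2 : (⋃ v ∈ (Finset.univ : Finset V), levSet a x v) = Ico 0 1 := by
    ext s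
    simp [levSet]
  rw [h1, h2]
  simp

lemma lev_ne {j : ℕ} {x y : Fin j → I} {s : ℝ} (h : lev x s ≠ lev y s) :
    ∃ i, s ∈ Ico (min (x i : ℝ) (y i)) (max (x i : ℝ) (y i)) := by
  by_contra hcon
  push Not at hcon
  apply h
  funext i
  have hi := hcon i
  unfold lev
  rw [decide_eq_decide]
  rw [mem_Ico, not_and_or, not_le, not_lt] at hi
  constructor
  · intro h1
    rcases hi with h2 | h2
    · exact (lt_min_iff.mp h2).2
    · exact absurd h1 (not_lt.mpr ((le_max_left _ _).trans h2))
  · intro h1
    rcases hi with h2 | h2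
    · exact (lt_min_iff.mp h2).1
    · exact absurd h1 (not_lt.mpr ((le_max_right _ _).trans h2))

/-- the threshold map is Lipschitz -/
lemma thr_sub_le {j : ℕ} (a : (Fin j → Bool) → V) (x y : Fin j → I) (v : V) :
    thr a x v - thr a y v ≤ ∑ i, |(x i : ℝ) - y i| := by
  have h1 : levSet a x v ⊆ levSet a y v ∪ ⋃ i, Ico (min (x i : ℝ) (y i)) (max (x i : ℝ) (y i)) := by
    intro s hs
    by_cases h : lev x s = lev y s
    · left
      exact ⟨hs.1, hs.2.1, h ▸ hs.2.2⟩
    · right
      rw [mem_iUnion]
      exact lev_ne h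
  have h2 : volume (levSet a x v) ≤
      volume (levSet a y v) + ∑ i, ENNReal.ofReal |(x i : ℝ) - y i| := by
    refine (measure_mono h1).trans ((measure_union_le _ _).trans ?_)
    gcongr
    refine (measure_iUnion_fintype_le volume _).trans ?_
    apply Finset.sum_le_sum
    intro i _
    rw [Real.volume_Ico, max_sub_min_eq_abs]
    rw [abs_sub_comm]
  have h3 := ENNReal.toReal_mono ?_ h2
  · rw [ENNReal.toReal_add (volume_levSet_ne_top a y v), ENNReal.toReal_sum] at h3
    · simp only [ENNReal.toReal_ofReal (abs_nonneg _)] at h3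
      unfold thr
      linarith
    · intro i _; exact ENNReal.ofReal_ne_top
    · exact ENNReal.sum_ne_top.mpr fun i _ => ENNReal.ofReal_ne_top
  · exact ENNReal.add_ne_top.mpr ⟨volume_levSet_ne_top a y v,
      ENNReal.sum_ne_top.mpr fun i _ => ENNReal.ofReal_ne_top⟩

lemma continuous_thr {j : ℕ} (a : (Fin j → Bool) → V) : Continuous (thr a) := by
  refine continuous_pi fun v => ?_
  rw [continuous_iff_continuousAt]
  intro x
  have hb : ∀ y, |thr a y v - thr a x v| ≤ ∑ i, |(y i : ℝ) - x i| := by
    intro y
    rw [abs_le]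
    constructor
    · have := thr_sub_le a x y v
      have h : ∑ i, |(x i : ℝ) - y i| = ∑ i, |(y i : ℝ) - x i| :=
        Finset.sum_congr rfl fun i _ => abs_sub_comm _ _
      linarith
    · exact thr_sub_le a y x v
  have hlim : Filter.Tendsto (fun y : Fin j → I => ∑ i, |(y i : ℝ) - x i|) (𝓝 x) (𝓝 0) := by
    have hc : Continuous (fun y : Fin j → I => ∑ i, |(y i : ℝ) - x i|) := by fun_prop
    have := hc.tendsto x
    simpa using this
  have h0 : Filter.Tendsto (fun y => |thr a y v - thr a x v|) (𝓝 x) (𝓝 0) :=
    squeeze_zero (fun _ => abs_nonneg _) hb hlim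
  rw [ContinuousAt, tendsto_iff_norm_sub_tendsto_zero]
  exact h0

/-- labels occurring at the point `x` -/
noncomputable def labels {j : ℕ} [Fintype V] (a : (Fin j → Bool) → V) (x : Fin j → I) : Finset V := by
  classical exact Finset.univ.filter fun v => ∃ s : ℝ, 0 ≤ s ∧ s < 1 ∧ a (lev x s) = v

lemma mem_labels {j : ℕ} [Fintype V] (a : (Fin j → Bool) → V) (x : Fin j → I) (v : V) :
    v ∈ labels a x ↔ ∃ s : ℝ, 0 ≤ s ∧ s < 1 ∧ a (lev x s) = v := by
  simp [labels]

lemma supp_thr_subset {j : ℕ} [Fintype V] (a : (Fin j → Bool) → V) (x : Fin j → I) :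
    supp (thr a x) ⊆ labels a x := by
  intro v hv
  rw [mem_supp] at hv
  rw [mem_labels]
  by_contra hcon
  apply hv
  have : levSet a x v = ∅ := by
    rw [Set.eq_empty_iff_forall_notMem]
    intro s hs
    exact hcon ⟨s, hs⟩
  simp [thr, this]

/-- a labelling is admissible for `K` if the labels along every chain span a face -/
def Adm {j : ℕ} [DecidableEq V] (K : Set (Finset V)) (a : (Fin j → Bool) → V) : Prop :=
  ∀ C : Finset (Fin j → Bool), IsChain (· ≤ ·) (C : Set (Fin j → Bool)) → C.image a ∈ K

lemma lev_anti {j : ℕ} (x : Fin j → I) {s t : ℝ} (h : s ≤ t) : lev x t ≤ lev x s := by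
  intro i
  unfold lev
  by_cases h1 : t < x i
  · simp [h1, lt_of_le_of_lt h h1]
  · simp [h1]

/-- the labels at a point are the labels along a chain -/
lemma labels_eq_image {j : ℕ} [Fintype V] [DecidableEq V] (a : (Fin j → Bool) → V)
    (x : Fin j → I) : ∃ C : Finset (Fin j → Bool), IsChain (· ≤ ·) (C : Set (Fin j → Bool)) ∧
      labels a x = C.image a := by
  classical
  refine ⟨Finset.univ.filter fun b => ∃ s : ℝ, 0 ≤ s ∧ s < 1 ∧ lev x s = b, ?_, ?_⟩
  · intro b hb b' hb' _
    simp only [Finset.coe_filter, Finset.mem_univ, true_and, mem_setOf_eq] at hb hb'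
    obtain ⟨s, _, _, rfl⟩ := hb
    obtain ⟨t, _, _, rfl⟩ := hb'
    rcases le_total s t with h | h
    · right; exact lev_anti x h
    · left; exact lev_anti x h
  · ext v
    rw [mem_labels, Finset.mem_image]
    constructor
    · rintro ⟨s, h0, h1, rfl⟩
      exact ⟨lev x s, by simp; exact ⟨s, h0, h1, rfl⟩, rfl⟩
    · rintro ⟨b, hb, rfl⟩
      simp only [Finset.mem_filter, Finset.mem_univ, true_and] at hb
      obtain ⟨s, h0, h1, rfl⟩ := hb
      exact ⟨s, h0, h1, rfl⟩

lemma thr_mem_Geo {j : ℕ} [Fintype V] [DecidableEq V] {K : Set (Finset V)} (hK : IsLowerSet K)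
    {a : (Fin j → Bool) → V} (ha : Adm K a) (x : Fin j → I) : thr a x ∈ Geo K := by
  refine ⟨fun v => thr_nonneg a x v, thr_sum a x, ?_⟩
  obtain ⟨C, hC, h⟩ := labels_eq_image a x
  exact hK (supp_thr_subset a x) (h ▸ ha C hC)

/-- threshold map into the realisation -/
noncomputable def thrG {j : ℕ} [Fintype V] [DecidableEq V] {K : Set (Finset V)}
    (hK : IsLowerSet K) (a : (Fin j → Bool) → V) (ha : Adm K a) : C(Fin j → I, Geo K) :=
  ⟨fun x => ⟨thr a x, thr_mem_Geo hK ha x⟩, Continuous.subtype_mk (continuous_thr a) _⟩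

@[simp] lemma thrG_val {j : ℕ} [Fintype V] [DecidableEq V] {K : Set (Finset V)}
    (hK : IsLowerSet K) (a : (Fin j → Bool) → V) (ha : Adm K a) (x : Fin j → I) :
    (thrG hK a ha x).1 = thr a x := rfl

/-- the labels at a point number at most `j + 1` (length of a chain in the cube) -/
lemma card_labels_le {j : ℕ} [Fintype V] (a : (Fin j → Bool) → V)
    (x : Fin j → I) : (labels a x).card ≤ j + 1 := by
  classical
  obtain ⟨C, hC, h⟩ := labels_eq_image a x
  rw [h]
  refine Finset.card_image_le.trans ?_
  -- the number of trues is injective on the chain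
  have hinj : Set.InjOn (fun b : Fin j → Bool => (Finset.univ.filter fun i => b i = true).card)
      (C : Set (Fin j → Bool)) := by
    intro b hb b' hb' hbb
    by_contra hne
    rcases hC hb hb' hne with h1 | h1
    · have hsub : (Finset.univ.filter fun i => b i = true) ⊆
          (Finset.univ.filter fun i => b' i = true) := by
        intro i hi
        simp only [Finset.mem_filter, Finset.mem_univ, true_and] at hi ⊢
        have := h1 i
        rw [hi] at this
        exact Bool.eq_true_of_true_le this
      have heq := Finset.eq_of_subset_of_card_le hsub (le_of_eq hbb.symm)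
      apply hne
      funext i
      have : i ∈ (Finset.univ.filter fun i => b i = true) ↔
        i ∈ (Finset.univ.filter fun i => b' i = true) := by rw [heq]
      simp only [Finset.mem_filter, Finset.mem_univ, true_and] at this
      exact Bool.eq_iff_iff.mpr this
    · have hsub : (Finset.univ.filter fun i => b' i = true) ⊆
          (Finset.univ.filter fun i => b i = true) := by
        intro i hi
        simp only [Finset.mem_filter, Finset.mem_univ, true_and] at hi ⊢
        have := h1 i
        rw [hi] at this
        exact Bool.eq_true_of_true_le this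
      have heq := Finset.eq_of_subset_of_card_le hsub (le_of_eq hbb)
      apply hne
      funext i
      have : i ∈ (Finset.univ.filter fun i => b i = true) ↔
        i ∈ (Finset.univ.filter fun i => b' i = true) := by rw [heq]
      simp only [Finset.mem_filter, Finset.mem_univ, true_and] at this
      exact Bool.eq_iff_iff.mpr this
  rw [← Finset.card_image_of_injOn hinj]
  calc _ ≤ (Finset.range (j + 1)).card := by
        apply Finset.card_le_card
        intro m hm
        rw [Finset.mem_image] at hm
        obtain ⟨b, _, rfl⟩ := hm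
        rw [Finset.mem_range]
        have : (Finset.univ.filter fun i => b i = true).card ≤ (Finset.univ : Finset (Fin j)).card :=
          Finset.card_filter_le _ _
        simp at this
        omega
    _ = j + 1 := by simp

/-- faces: setting coordinate `i` to `ε` in the point amounts to restricting the labelling -/
lemma thr_insertNth {j : ℕ} (a : (Fin (j + 1) → Bool) → V) (i : Fin (j + 1)) (ε : Bool)
    (x : Fin j → I) (v : V) :
    thr a (Fin.insertNth (α := fun _ => I) i (if ε then 1 else 0) x) v = thr (fun b : Fin j → Bool => a (Fin.insertNth (α := fun _ => Bool) i ε b)) x v := by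
  unfold thr
  congr 2
  ext s
  unfold levSet
  simp only [mem_setOf_eq]
  constructor
  · rintro ⟨h0, h1, h⟩
    refine ⟨h0, h1, ?_⟩
    rw [← h]
    congr 1
    funext m
    refine Fin.succAboveCases i ?_ (fun m => ?_) m
    · rw [Fin.insertNth_apply_same]
      unfold lev
      rw [Fin.insertNth_apply_same]
      cases ε <;> simp [h0, h1]
    · rw [Fin.insertNth_apply_succAbove]
      unfold lev
      rw [Fin.insertNth_apply_succAbove]
  · rintro ⟨h0, h1, h⟩
    refine ⟨h0, h1, ?_⟩
    rw [← h]
    congr 1
    funext m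
    refine Fin.succAboveCases i ?_ (fun m => ?_) m
    · rw [Fin.insertNth_apply_same]
      unfold lev
      rw [Fin.insertNth_apply_same]
      cases ε <;> simp [h0, h1]
    · rw [Fin.insertNth_apply_succAbove]
      unfold lev
      rw [Fin.insertNth_apply_succAbove]

/-! ## The labelling of the cube attached to a list -/

/-- `psi v l b`: walk along the list `v :: l` as long as the leading coordinates of `b` are true -/
def psi : V → List V → ∀ {j : ℕ}, (Fin j → Bool) → V
  | v, [], _, _ => v
  | v, _ :: _, 0, _ => v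
  | v, u :: l, _ + 1, b => if b 0 then psi u l (fun i => b i.succ) else v

lemma psi_mem (v : V) (l : List V) {j : ℕ} (b : Fin j → Bool) : psi v l b ∈ v :: l := by
  induction l generalizing v j with
  | nil => simp [psi]
  | cons u l ih =>
    cases j with
    | zero => simp [psi]
    | succ j =>
      rw [psi]
      split_ifs with h
      · exact List.mem_cons_of_mem _ (ih u _)
      · exact List.mem_cons_self

lemma adm_psi {j : ℕ} [DecidableEq V] {K : Set (Finset V)} (hK : IsLowerSet K) {v : V}
    {l : List V} (h : (v :: l).toFinset ∈ K) : Adm K (fun b : Fin j → Bool => psi v l b) := by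
  intro C _
  refine hK ?_ h
  intro w hw
  rw [Finset.mem_image] at hw
  obtain ⟨b, _, rfl⟩ := hw
  rw [List.mem_toFinset]
  exact psi_mem v l b

/-! ## Classes -/

section Classes

variable {Y : Type} [TopologicalSpace Y]

open Classical in
/-- class of a continuous map on the cube (`0` if it does not send the boundary to `y0`) -/
noncomputable def clsOf {n : ℕ} (y0 : Y) (F : C(Fin (n + 2) → I, Y)) : HG n Y y0 :=
  if h : ∀ y ∈ Cube.boundary (Fin (n + 2)), F y = y0 then cls ⟨F, h⟩ else 0

lemma clsOf_eq {n : ℕ} {y0 : Y} {F : C(Fin (n + 2) → I, Y)}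
    (h : ∀ y ∈ Cube.boundary (Fin (n + 2)), F y = y0) : clsOf y0 F = cls ⟨F, h⟩ := dif_pos h

/-- `D` sends every point with at most `m` nonzero coordinates to `y0` -/
def Normalized [Fintype V] {K : Set (Finset V)} (m : ℕ) (y0 : Y) (u : Geo K → Y) : Prop :=
  ∀ x : Geo K, (supp x.1).card ≤ m → u x = y0

variable [Fintype V] [DecidableEq V] {K : Set (Finset V)}

open Classical in
/-- class in `π_{n+2}(Y)` of the cube labelled by `a`, under `u : |K| → Y` -/
noncomputable def cD {n : ℕ} (hK : IsLowerSet K) (y0 : Y) (u : C(Geo K, Y))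
    (a : (Fin (n + 2) → Bool) → V) : HG n Y y0 :=
  if h : Adm K a then clsOf y0 (u.comp (thrG hK a h)) else 0

/-- class of a list (meant for lists of length `n + 3`) -/
noncomputable def thetaList (n : ℕ) (hK : IsLowerSet K) (y0 : Y) (u : C(Geo K, Y)) :
    List V → HG n Y y0
  | [] => 0
  | v :: l => cD hK y0 u (fun b => psi v l b)

/-- linear extension to chains -/
noncomputable def theta (n : ℕ) (hK : IsLowerSet K) (y0 : Y) (u : C(Geo K, Y)) :
    Ch V →ₗ[ℤ] HG n Y y0 := Finsupp.linearCombination ℤ (thetaList n hK y0 u)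

end Classes

end Pool.Agent.Work.MP_d1e9a6_pr
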